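import Pool.Agent.Work.SF081200.CNT1B
import Pool.Agent.Work.SF081200.M3

/-!
# Block CNT1: few members of the family without a good triple
-/

set_option autoImplicit false

open Finset Filter Topology

namespace Pool.Agent.Work.SF.CN1

theorem tendsto_log_floor {a : ℝ} (ha : 0 < a) :
    Tendsto (fun Q : ℝ => Real.log (⌊Q ^ a⌋₊ : ℝ) / Real.log Q) atTop (𝓝 a) := by
  have h1 : Tendsto (fun Q : ℝ => Q ^ a) atTop atTop := tendsto_rpow_atTop ha
  have h2 : Tendsto (fun Q : ℝ => (⌊Q ^ a⌋₊ : ℝ) / Q ^ a) atTop (𝓝 1) :=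
    (tendsto_nat_floor_div_atTop).comp h1
  have h3 : Tendsto (fun Q : ℝ => Real.log ((⌊Q ^ a⌋₊ : ℝ) / Q ^ a)) atTop (𝓝 0) := by
    have := (Real.continuousAt_log (one_ne_zero)).tendsto.comp h2
    simpa [Function.comp_def] using this
  have h4 : Tendsto (fun Q : ℝ => Real.log ((⌊Q ^ a⌋₊ : ℝ) / Q ^ a) / Real.log Q + a) atTop
      (𝓝 (0 + a)) := (h3.div_atTop Real.tendsto_log_atTop).add_const a
  rw [zero_add] at h4
  refine h4.congr' ?_
  filter_upwards [eventually_gt_atTop 1] with Q hQ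
  have hQ0 : 0 < Q := by linarith
  have h5 : 1 ≤ Q ^ a := Real.one_le_rpow hQ.le ha.le
  have h6 : (0 : ℝ) < ⌊Q ^ a⌋₊ := by
    have := Nat.floor_pos.2 h5
    exact_mod_cast this
  have h7 : 0 < Real.log Q := Real.log_pos hQ
  rw [Real.log_div h6.ne' (by positivity), Real.log_rpow hQ0]
  field_simp
  ring

/-- the exponents -/
noncomputable def u (j : ℕ) : ℝ := 1 / 8 * (2 / 3) ^ j

theorem u_pos (j : ℕ) : 0 < u j := by unfold u; positivity

theorem u_le (j : ℕ) : u j ≤ 1 / 8 := by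
  unfold u
  have : (2 / 3 : ℝ) ^ j ≤ 1 := pow_le_one₀ (by norm_num) (by norm_num)
  linarith

theorem u_lt {i j : ℕ} (h : i < j) : 3 / 2 * u j ≤ u i := by
  unfold u
  obtain ⟨k, rfl⟩ : ∃ k, j = i + k + 1 := ⟨j - i - 1, by omega⟩
  rw [pow_succ, pow_add]
  have h1 : (2 / 3 : ℝ) ^ k ≤ 1 := pow_le_one₀ (by norm_num) (by norm_num)
  have h2 : (0 : ℝ) < (2 / 3) ^ i := by positivity
  have : (2 / 3 : ℝ) ^ i * (2 / 3) ^ k ≤ (2 / 3) ^ i * 1 := mul_le_mul_of_nonneg_left h1 h2.le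
  linarith

theorem u_anti {i j : ℕ} (h : i ≤ j) : u j ≤ u i := by
  rcases h.eq_or_lt with rfl | h
  · exact le_rfl
  · have := u_lt h
    have := u_pos j
    linarith

/-- the blocks -/
noncomputable def BL (Q : ℝ) (j : ℕ) : Finset ℕ :=
  (Ioc ⌊Q ^ u j⌋₊ ⌊Q ^ (3 / 2 * u j)⌋₊).filter (fun p => p.Prime ∧ p % 3 = 1)

theorem mem_BL {Q : ℝ} (hQ : 0 ≤ Q) {j p : ℕ} : p ∈ BL Q j ↔
    Q ^ u j < p ∧ (p : ℝ) ≤ Q ^ (3 / 2 * u j) ∧ p.Prime ∧ p % 3 = 1 := by
  unfold BL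
  rw [mem_filter, mem_Ioc, Nat.floor_lt (by positivity), Nat.le_floor_iff (by positivity)]
  tauto

theorem BL_lower (j : ℕ) : ∀ᶠ Q : ℝ in atTop,
    1 / 2 * Real.log (3 / 2) ≤ ∑ p ∈ BL Q j, 2 / (p : ℝ) := by
  obtain ⟨C, hC0, hC⟩ := M3.mertens2_three
  have hu := u_pos j
  have h1 := tendsto_log_floor hu
  have h2 := tendsto_log_floor (show 0 < 3 / 2 * u j by positivity)
  have h3 : Tendsto (fun Q : ℝ => Real.log (Real.log (⌊Q ^ (3 / 2 * u j)⌋₊ : ℝ) / Real.log Q) -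
      Real.log (Real.log (⌊Q ^ u j⌋₊ : ℝ) / Real.log Q)) atTop
      (𝓝 (Real.log (3 / 2 * u j) - Real.log (u j))) := by
    apply Tendsto.sub
    · exact (Real.continuousAt_log (by positivity)).tendsto.comp h2
    · exact (Real.continuousAt_log (by positivity)).tendsto.comp h1
  have h4 : Tendsto (fun Q : ℝ => Real.log (⌊Q ^ u j⌋₊ : ℝ)) atTop atTop := by
    refine Real.tendsto_log_atTop.comp (tendsto_natCast_atTop_atTop.comp
      (tendsto_nat_floor_atTop.comp (tendsto_rpow_atTop hu)))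
  have h5 : Tendsto (fun Q : ℝ => 2 * C / Real.log (⌊Q ^ u j⌋₊ : ℝ)) atTop (𝓝 0) :=
    tendsto_const_nhds.div_atTop h4
  have h6 := h3.sub h5
  have h7 : Real.log (3 / 2 * u j) - Real.log (u j) - 0 = Real.log (3 / 2) := by
    rw [Real.log_mul (by norm_num) hu.ne']; ring
  rw [h7] at h6
  have h8 : 1 / 2 * Real.log (3 / 2) < Real.log (3 / 2) := by
    have := Real.log_pos (show (1 : ℝ) < 3 / 2 by norm_num)
    linarith
  have hfl : Tendsto (fun Q : ℝ => ⌊Q ^ u j⌋₊) atTop atTop :=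
    tendsto_nat_floor_atTop.comp (tendsto_rpow_atTop hu)
  filter_upwards [h6.eventually (lt_mem_nhds h8), hfl.eventually_ge_atTop 2,
    eventually_gt_atTop 1] with Q hQ1 hQ2 hQ3
  have h9 : ⌊Q ^ u j⌋₊ ≤ ⌊Q ^ (3 / 2 * u j)⌋₊ := by
    apply Nat.floor_le_floor
    apply Real.rpow_le_rpow_of_exponent_le hQ3.le
    linarith
  have h10 := (abs_le.1 (hC _ _ hQ2 h9)).1
  have hlQ : 0 < Real.log Q := Real.log_pos hQ3
  have hlu : 0 < Real.log (⌊Q ^ u j⌋₊ : ℝ) := Real.log_pos (by exact_mod_cast (by omega))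
  have hlv : 0 < Real.log (⌊Q ^ (3 / 2 * u j)⌋₊ : ℝ) := Real.log_pos (by exact_mod_cast (by omega))
  rw [Real.log_div hlv.ne' hlQ.ne', Real.log_div hlu.ne' hlQ.ne'] at hQ1
  have h11 : ∑ p ∈ BL Q j, 2 / (p : ℝ) = 2 * ∑ p ∈ BL Q j, 1 / (p : ℝ) := by
    rw [mul_sum]
    exact sum_congr rfl fun p _ => by ring
  rw [h11]
  unfold BL
  have h12 : 2 * C / Real.log (⌊Q ^ u j⌋₊ : ℝ) = 2 * (C / Real.log (⌊Q ^ u j⌋₊ : ℝ)) := by ring
  rw [h12] at hQ1
  linarith

theorem total : ∃ C : ℝ, ∀ N : ℕ, 2 ≤ N →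
    ∑ p ∈ (Icc 1 N).filter (fun p => p.Prime ∧ p % 3 = 1), 2 / (p : ℝ) ≤
      Real.log (Real.log N) + C := by
  obtain ⟨C, hC0, hC⟩ := M3.mertens2_three
  refine ⟨2 * (C / Real.log 2) - Real.log (Real.log 2), fun N hN => ?_⟩
  have h1 := (abs_le.1 (hC 2 N le_rfl hN)).2
  have h2 : (Icc 1 N).filter (fun p => p.Prime ∧ p % 3 = 1) =
      (Ioc 2 N).filter (fun p => p.Prime ∧ p % 3 = 1) := by
    ext p
    simp only [mem_filter, mem_Icc, mem_Ioc]
    constructor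
    · rintro ⟨⟨h3, h4⟩, h5, h6⟩
      refine ⟨⟨?_, h4⟩, h5, h6⟩
      have := h5.two_le
      rcases this.eq_or_lt with rfl | h
      · omega
      · exact h
    · rintro ⟨⟨h3, h4⟩, h5, h6⟩
      exact ⟨⟨by omega, h4⟩, h5, h6⟩
  rw [h2]
  have h3 : ∑ p ∈ (Ioc 2 N).filter (fun p => p.Prime ∧ p % 3 = 1), 2 / (p : ℝ) =
      2 * ∑ p ∈ (Ioc 2 N).filter (fun p => p.Prime ∧ p % 3 = 1), 1 / (p : ℝ) := by
    rw [mul_sum]
    exact sum_congr rfl fun p _ => by ring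
  rw [h3]
  push_cast at h1
  linarith

/-- the function `(1 + l + l^2/2) e^{-l}` decreases -/
theorem g_le {l₀ l : ℝ} (h0 : 0 ≤ l₀) (h : l₀ ≤ l) :
    (1 + l + l ^ 2 / 2) * Real.exp (-l) ≤ (1 + l₀ + l₀ ^ 2 / 2) * Real.exp (-l₀) := by
  set d := l - l₀ with hd
  have hd0 : 0 ≤ d := sub_nonneg.2 h
  have h1 := Real.quadratic_le_exp_of_nonneg hd0
  have h2 : 1 + l + l ^ 2 / 2 ≤ (1 + l₀ + l₀ ^ 2 / 2) * Real.exp d := by
    have h3 : 1 + l + l ^ 2 / 2 ≤ (1 + l₀ + l₀ ^ 2 / 2) * (1 + d + d ^ 2 / 2) := by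
      have : l = l₀ + d := by rw [hd]; ring
      rw [this]
      have e1 : 0 ≤ l₀ * d := by positivity
      have e2 : 0 ≤ l₀ ^ 2 * d := by positivity
      have e3 : 0 ≤ l₀ * d ^ 2 := by positivity
      have e4 : 0 ≤ l₀ ^ 2 * d ^ 2 := by positivity
      nlinarith
    exact h3.trans (mul_le_mul_of_nonneg_left h1 (by positivity))
  calc (1 + l + l ^ 2 / 2) * Real.exp (-l) ≤
      ((1 + l₀ + l₀ ^ 2 / 2) * Real.exp d) * Real.exp (-l) :=
        mul_le_mul_of_nonneg_right h2 (Real.exp_pos _).le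
    _ = (1 + l₀ + l₀ ^ 2 / 2) * Real.exp (-l₀) := by
        rw [mul_assoc, ← Real.exp_add, hd]
        congr 2
        ring

theorem g_lt {l₀ : ℝ} (h0 : 0 < l₀) : (1 + l₀ + l₀ ^ 2 / 2) * Real.exp (-l₀) < 1 := by
  have h1 := Real.sum_le_exp_of_nonneg h0.le 4
  simp only [sum_range_succ, sum_range_zero, Nat.factorial] at h1
  have h2 : 1 + l₀ + l₀ ^ 2 / 2 < Real.exp l₀ := by
    have : 0 < l₀ ^ 3 := by positivity
    norm_num at h1
    linarith
  rw [Real.exp_neg, ← div_eq_mul_inv, div_lt_one (Real.exp_pos _)]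
  exact h2

theorem tri_of_not_good {Q : ℝ} (hQ : 1 ≤ Q) {J f : ℕ} (h : ¬ Good (BL Q) J f.primeFactors) :
    Tri Q (1 / 2 * u J) f := by
  unfold Good at h
  push Not at h
  obtain ⟨j, hj, hc⟩ := h
  obtain ⟨a, b, c, ha, hb, hc, hab, hbc⟩ := three_lt hc
  rw [mem_inter, Nat.mem_primeFactors, mem_BL (by linarith)] at ha hb hc
  have hQ0 : 0 < Q := by linarith
  refine ⟨a, b, c, ha.1.1, hb.1.1, hc.1.1, hab, hbc, ha.1.2.1, hb.1.2.1, hc.1.2.1, ?_, ?_⟩
  · refine hc.2.2.1.trans (Real.rpow_le_rpow_of_exponent_le hQ ?_)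
    have := u_le j
    linarith
  · have h1 : Q ^ u j * Q ^ u j ≤ (a : ℝ) * b :=
      mul_le_mul ha.2.1.le hb.2.1.le (by positivity) (by positivity)
    have h2 : (c : ℝ) * Q ^ (1 / 2 * u J) ≤ Q ^ (3 / 2 * u j) * Q ^ (1 / 2 * u J) :=
      mul_le_mul_of_nonneg_right hc.2.2.1 (by positivity)
    have h3 : Q ^ (3 / 2 * u j) * Q ^ (1 / 2 * u J) ≤ Q ^ u j * Q ^ u j := by
      rw [← Real.rpow_add hQ0, ← Real.rpow_add hQ0]
      apply Real.rpow_le_rpow_of_exponent_le hQ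
      have := u_anti hj.le
      linarith
    exact h2.trans (h3.trans h1)

open Classical in
/-- **Block CNT1.** -/
theorem stmt_CNT1 : Stmt_CNT1 := by
  intro η hη
  obtain ⟨C, hC⟩ := total
  set l₀ : ℝ := 1 / 2 * Real.log (3 / 2) with hl₀
  have hl₀pos : 0 < l₀ := by
    have := Real.log_pos (show (1 : ℝ) < 3 / 2 by norm_num)
    positivity
  set ρ : ℝ := (1 + l₀ + l₀ ^ 2 / 2) * Real.exp (-l₀) with hρ
  have hρ0 : 0 < ρ := by positivity
  have hρ1 : ρ < 1 := g_lt hl₀pos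
  obtain ⟨J, hJ⟩ := exists_pow_lt_of_lt_one (show 0 < η / (4 * Real.exp C) by positivity) hρ1
  have hev : ∀ᶠ Q : ℝ in atTop, ∀ j ∈ range J, l₀ ≤ ∑ p ∈ BL Q j, 2 / (p : ℝ) :=
    (Filter.eventually_all_finset (range J)).2 fun j _ => BL_lower j
  obtain ⟨Q₀, hQ₀⟩ := eventually_atTop.1 hev
  refine ⟨1 / 2 * u J, by have := u_pos J; positivity, max Q₀ 3, fun Q hQ => ?_⟩
  have hQ1 := hQ₀ Q ((le_max_left _ _).trans hQ)
  have hQ3 : 3 ≤ Q := (le_max_right _ _).trans hQ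
  set N := ⌊Q⌋₊ with hN
  have hNQ : (N : ℝ) ≤ Q := Nat.floor_le (by linarith)
  have hN3 : 3 ≤ N := Nat.le_floor (by exact_mod_cast hQ3)
  have hGcl : ∀ m p : ℕ, p.Prime → GB (BL Q) J (m * p) → GB (BL Q) J m := by
    intro m p hp h
    rcases Nat.eq_zero_or_pos m with rfl | hm
    · simpa using h
    refine ⟨fun q hq hqm => h.1 q hq (hqm.mul_right p), fun j hj => ?_⟩
    refine (card_le_card ?_).trans (h.2 j hj)
    apply inter_subset_inter_right
    exact Nat.primeFactors_mono (Nat.dvd_mul_right m p) (Nat.mul_ne_zero hm.ne' hp.ne_zero)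
  have h1 := cheb (GB (BL Q) J) hGcl N
  have h2 := to_sets (BL Q) J N
  have h3 := main_ineq (fun p => 2 / (p : ℝ)) (fun p => by positivity) (BL Q) J
    ((Icc 1 N).filter (fun p => p.Prime ∧ p % 3 = 1)) (fun j _ => by
      intro p hp
      rw [mem_BL (by linarith)] at hp
      rw [mem_filter, mem_Icc]
      refine ⟨⟨hp.2.2.1.one_lt.le, Nat.le_floor (hp.2.1.trans ?_)⟩, hp.2.2⟩
      calc Q ^ (3 / 2 * u j) ≤ Q ^ (1 : ℝ) := by
            apply Real.rpow_le_rpow_of_exponent_le (by linarith)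
            have := u_le j
            linarith
        _ = Q := Real.rpow_one Q) (fun i _ j _ hij => by
      rw [Finset.disjoint_left]
      intro p hp hp'
      rw [mem_BL (by linarith)] at hp hp'
      rcases lt_or_gt_of_ne hij with h | h
      · have := (hp.1.trans_le hp'.2.1)
        have h4 : Q ^ (3 / 2 * u j) ≤ Q ^ u i :=
          Real.rpow_le_rpow_of_exponent_le (by linarith) (u_lt h)
        linarith
      · have := (hp'.1.trans_le hp.2.1)
        have h4 : Q ^ (3 / 2 * u i) ≤ Q ^ u j :=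
          Real.rpow_le_rpow_of_exponent_le (by linarith) (u_lt h)
        linarith)
  have h4 : ∏ j ∈ range J,
        ((1 + (∑ p ∈ BL Q j, 2 / (p : ℝ)) + (∑ p ∈ BL Q j, 2 / (p : ℝ)) ^ 2 / 2) *
          Real.exp (-∑ p ∈ BL Q j, 2 / (p : ℝ))) ≤ ρ ^ J := by
    calc _ ≤ ∏ j ∈ range J, ρ := by
          apply Finset.prod_le_prod
          · intro j _
            have : 0 ≤ ∑ p ∈ BL Q j, 2 / (p : ℝ) := sum_nonneg fun p _ => by positivity
            positivity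
          · intro j hj
            exact g_le hl₀pos.le (hQ1 j hj)
      _ = ρ ^ J := by rw [prod_const, card_range]
  have hlN : 0 < Real.log N := Real.log_pos (by exact_mod_cast (by omega : 1 < N))
  have h5 : Real.exp (∑ p ∈ (Icc 1 N).filter (fun p => p.Prime ∧ p % 3 = 1), 2 / (p : ℝ)) ≤
      Real.log N * Real.exp C := by
    calc _ ≤ Real.exp (Real.log (Real.log N) + C) := Real.exp_le_exp.2 (hC N (by omega))
      _ = _ := by rw [Real.exp_add, Real.exp_log hlN]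
  have h6 : ∑ f ∈ (Icc 1 N).filter (fun f => Squarefree f ∧ GB (BL Q) J f), w f / f ≤
      (Real.log N * Real.exp C) * ρ ^ J := by
    refine h2.trans (h3.trans ?_)
    apply mul_le_mul h5 h4 _ (by positivity)
    apply prod_nonneg
    intro j _
    have : 0 ≤ ∑ p ∈ BL Q j, 2 / (p : ℝ) := sum_nonneg fun p _ => by positivity
    positivity
  have h7 : Real.log N * ∑ f ∈ (Icc 1 N).filter (fun f => Squarefree f ∧ GB (BL Q) J f), w f ≤
      Real.log N * (η * N) := by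
    refine h1.trans ?_
    have hJ' : 4 * Real.exp C * ρ ^ J ≤ η := by
      rw [lt_div_iff₀ (by positivity)] at hJ
      linarith
    calc _ ≤ 4 * N * ((Real.log N * Real.exp C) * ρ ^ J) :=
          mul_le_mul_of_nonneg_left h6 (by positivity)
      _ = Real.log N * ((4 * Real.exp C * ρ ^ J) * N) := by ring
      _ ≤ _ := by
          apply mul_le_mul_of_nonneg_left _ hlN.le
          exact mul_le_mul_of_nonneg_right hJ' (Nat.cast_nonneg N)
  have h8 := le_of_mul_le_mul_left h7 hlN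
  calc _ ≤ ∑ f ∈ (Icc 1 N).filter (fun f => Squarefree f ∧ GB (BL Q) J f), w f := by
        apply sum_le_sum_of_subset_of_nonneg
        · intro f hf
          rw [mem_filter] at hf ⊢
          refine ⟨hf.1, hf.2.1.1, hf.2.1.2, ?_⟩
          by_contra hcon
          exact hf.2.2 (tri_of_not_good (by linarith) hcon)
        · intro f _ _
          exact w_nonneg f
    _ ≤ η * N := h8
    _ ≤ η * Q := mul_le_mul_of_nonneg_left hNQ hη.le

end Pool.Agent.Work.SF.CN1
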