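import Pool.Agent.Work.SF081200.Interface
import Pool.Agent.Work.MP_081200_nt.Div

/-!
# Block CNT2 (helper96): the family has positive weighted density
-/

set_option autoImplicit false

namespace Pool.Agent.Work.SF.CNT2_

open Finset

/-- the character modulo three -/
def X : ArithmeticFunction ℤ :=
  ⟨fun n => if n % 3 = 1 then 1 else if n % 3 = 2 then -1 else 0, by norm_num⟩

lemma X_apply (n : ℕ) : X n = if n % 3 = 1 then 1 else if n % 3 = 2 then -1 else 0 := rfl

lemma X_mul (m n : ℕ) : X (m * n) = X m * X n := by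
  simp only [X_apply]
  rw [Nat.mul_mod]
  have h1 : m % 3 < 3 := Nat.mod_lt _ (by norm_num)
  have h2 : n % 3 < 3 := Nat.mod_lt _ (by norm_num)
  generalize m % 3 = a at *
  generalize n % 3 = b at *
  interval_cases a <;> interval_cases b <;> simp

lemma X_one : X 1 = 1 := rfl

lemma X_pow (m k : ℕ) : X (m ^ k) = X m ^ k := by
  induction k with
  | zero => simp [X_one]
  | succ k ih => rw [pow_succ, X_mul, ih, pow_succ]

lemma X_mult : X.IsMultiplicative := ⟨X_one, fun {m n} _ => X_mul m n⟩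

/-- the number of ideals of norm `n` -/
def r (n : ℕ) : ℤ := ∑ d ∈ n.divisors, X d

lemma r_eq (n : ℕ) : r n = (X * (ArithmeticFunction.zeta : ArithmeticFunction ℤ)) n := by
  rw [ArithmeticFunction.coe_mul_zeta_apply]
  rfl

lemma r_mul {m n : ℕ} (h : m.Coprime n) : r (m * n) = r m * r n := by
  rw [r_eq, r_eq, r_eq]
  exact (X_mult.mul (ArithmeticFunction.isMultiplicative_zeta.natCast)).map_mul_of_coprime h

lemma r_prime_pow {p : ℕ} (hp : p.Prime) (k : ℕ) : r (p ^ k) = ∑ j ∈ range (k + 1), X p ^ j := by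
  unfold r
  rw [Nat.sum_divisors_prime_pow hp]
  exact sum_congr rfl fun j _ => X_pow p j

lemma r_nonneg (n : ℕ) : 0 ≤ r n := by
  induction n using Nat.recOnPosPrimePosCoprime with
  | prime_pow p k hp hk =>
    rw [r_prime_pow hp, X_apply]
    split_ifs
    · simp; positivity
    · rw [neg_one_geom_sum]
      split_ifs <;> norm_num
    · apply sum_nonneg
      intro j _
      positivity
  | zero => simp [r]
  | one => simp [r, X_one]
  | coprime a b ha hb hab iha ihb =>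
    rw [r_mul hab]
    exact mul_nonneg iha ihb

lemma r_zero {n q : ℕ} (hn : n ≠ 0) (hq : q.Prime) (hq3 : q % 3 = 2)
    (hodd : Odd (n.factorization q)) : r n = 0 := by
  have h1 : q ^ n.factorization q * (n / q ^ n.factorization q) = n :=
    Nat.ordProj_mul_ordCompl_eq_self n q
  have hc : (q ^ n.factorization q).Coprime (n / q ^ n.factorization q) :=
    Nat.Coprime.pow_left _ (Nat.coprime_ordCompl hq hn)
  rw [← h1, r_mul hc, r_prime_pow hq, X_apply, if_neg (by omega), if_pos hq3, neg_one_geom_sum,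
    if_pos, zero_mul]
  exact hodd.add_one

lemma r_le (n : ℕ) : r n ≤ n.divisors.card := by
  unfold r
  rw [card_eq_sum_ones]
  push_cast
  apply sum_le_sum
  intro d _
  rw [X_apply]
  split_ifs <;> norm_num

lemma mod_one {d : ℕ} (hd : d ≠ 0) (h : ∀ p : ℕ, p.Prime → p ∣ d → p % 3 = 1) : d % 3 = 1 := by
  induction d using Nat.recOnMul with
  | zero => exact absurd rfl hd
  | one => rfl
  | prime p hp => exact h p hp dvd_rfl
  | mul a b iha ihb =>
    have ha : a ≠ 0 := left_ne_zero_of_mul hd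
    have hb : b ≠ 0 := right_ne_zero_of_mul hd
    have h1 := iha ha fun p hp hpa => h p hp (hpa.mul_right b)
    have h2 := ihb hb fun p hp hpb => h p hp (hpb.mul_left a)
    rw [Nat.mul_mod, h1, h2]

lemma card_fam {f : ℕ} (hf : Squarefree f) : f.divisors.card = 2 ^ f.primeFactors.card := by
  have h0 : f ≠ 0 := hf.ne_zero
  rw [Nat.card_divisors h0, ← prod_const]
  apply prod_congr rfl
  intro p hp
  have hp' := Nat.prime_of_mem_primeFactors hp
  have h1 := (Nat.squarefree_iff_factorization_le_one h0).1 hf p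
  have h2 := hp'.factorization_pos_of_dvd h0 (Nat.dvd_of_mem_primeFactors hp)
  omega

lemma r_fam {f : ℕ} (hf : Fam f) : r f = 2 ^ f.primeFactors.card := by
  have h0 : f ≠ 0 := hf.1.ne_zero
  have h1 : r f = f.divisors.card := by
    unfold r
    rw [card_eq_sum_ones]
    push_cast
    apply sum_congr rfl
    intro d hd
    have hdf := Nat.dvd_of_mem_divisors hd
    rw [X_apply, if_pos]
    exact mod_one (ne_zero_of_dvd_ne_zero h0 hdf) fun p hp hpd => hf.2 p hp (hpd.trans hdf)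
  rw [h1, card_fam hf.1]
  push_cast
  rfl

/-! ## The sum of `r` -/

lemma sum_r (N : ℕ) : ∑ n ∈ Ioc 0 N, r n = ∑ d ∈ Ioc 0 N, X d * ((N / d : ℕ) : ℤ) := by
  have h1 : ∀ n ∈ Ioc 0 N, r n = ∑ d ∈ Ioc 0 N, if d ∣ n then X d else 0 := by
    intro n hn
    rw [mem_Ioc] at hn
    unfold r
    rw [← sum_filter]
    apply sum_congr _ fun _ _ => rfl
    ext d
    rw [Nat.mem_divisors, mem_filter, mem_Ioc]
    constructor
    · rintro ⟨h1, h2⟩
      exact ⟨⟨Nat.pos_of_dvd_of_pos h1 hn.1, (Nat.le_of_dvd hn.1 h1).trans hn.2⟩, h1⟩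
    · rintro ⟨_, h2⟩
      exact ⟨h2, by omega⟩
  rw [sum_congr rfl h1, sum_comm]
  apply sum_congr rfl
  intro d _
  rw [← sum_filter, sum_const, Nat.Ioc_filter_dvd_card_eq_div, nsmul_eq_mul, mul_comm]

/-- partial sums in blocks of three -/
lemma S_succ (N M : ℕ) : ∑ d ∈ range (3 * (M + 1) + 1), X d * ((N / d : ℕ) : ℤ) =
    ∑ d ∈ range (3 * M + 1), X d * ((N / d : ℕ) : ℤ) +
      ((N / (3 * M + 1) : ℕ) : ℤ) - ((N / (3 * M + 2) : ℕ) : ℤ) := by
  have e : 3 * (M + 1) + 1 = 3 * M + 1 + 1 + 1 + 1 := by ring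
  rw [e, sum_range_succ, sum_range_succ, sum_range_succ]
  have h1 : X (3 * M + 1) = 1 := by rw [X_apply, if_pos (by omega)]
  have h2 : X (3 * M + 1 + 1) = -1 := by rw [X_apply, if_neg (by omega), if_pos (by omega)]
  have h3 : X (3 * M + 1 + 1 + 1) = 0 := by rw [X_apply, if_neg (by omega), if_neg (by omega)]
  rw [h1, h2, h3]
  ring

lemma S_upper (N M : ℕ) : ∑ d ∈ range (3 * M + 1), X d * ((N / d : ℕ) : ℤ) ≤
    (N : ℤ) - ((N / (3 * M + 1) : ℕ) : ℤ) := by
  induction M with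
  | zero => simp [X_apply]
  | succ M ih =>
    rw [S_succ]
    have h1 : N / (3 * (M + 1) + 1) ≤ N / (3 * M + 2) := Nat.div_le_div_left (by omega) (by omega)
    have h2 : ((N / (3 * (M + 1) + 1) : ℕ) : ℤ) ≤ ((N / (3 * M + 2) : ℕ) : ℤ) := by exact_mod_cast h1
    linarith

lemma S_lower (N M : ℕ) : (N : ℤ) - ((N / 2 : ℕ) : ℤ) ≤
    ∑ d ∈ range (3 * (M + 1) + 1), X d * ((N / d : ℕ) : ℤ) := by
  induction M with
  | zero =>
    rw [S_succ]
    simp [X_apply]
  | succ M ih =>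
    rw [S_succ]
    have h1 : N / (3 * (M + 1) + 2) ≤ N / (3 * (M + 1) + 1) :=
      Nat.div_le_div_left (by omega) (by omega)
    have h2 : ((N / (3 * (M + 1) + 2) : ℕ) : ℤ) ≤ ((N / (3 * (M + 1) + 1) : ℕ) : ℤ) := by
      exact_mod_cast h1
    linarith

lemma sum_r_eq (N : ℕ) : ∑ n ∈ Ioc 0 N, r n =
    ∑ d ∈ range (3 * (N + 1) + 1), X d * ((N / d : ℕ) : ℤ) := by
  rw [sum_r]
  apply sum_subset
  · intro d hd
    rw [mem_Ioc] at hd
    rw [mem_range]
    omega
  · intro d _ hd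
    rw [mem_Ioc] at hd
    rcases Nat.eq_zero_or_pos d with h | h
    · subst h; simp
    · rw [Nat.div_eq_of_lt (by omega)]
      simp

lemma sum_r_le (N : ℕ) : ∑ n ∈ Ioc 0 N, r n ≤ N := by
  rw [sum_r_eq]
  have := S_upper N (N + 1)
  have h2 : (0 : ℤ) ≤ ((N / (3 * (N + 1) + 1) : ℕ) : ℤ) := by positivity
  linarith

lemma le_sum_r (N : ℕ) : (N : ℤ) ≤ 2 * ∑ n ∈ Ioc 0 N, r n := by
  rw [sum_r_eq]
  have h1 := S_lower N N
  have h2 : 2 * ((N / 2 : ℕ) : ℤ) ≤ N := by
    have : 2 * (N / 2) ≤ N := Nat.mul_div_le N 2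
    exact_mod_cast this
  linarith

/-! ## Comparison -/

open Classical in
/-- the weighted count -/
noncomputable def H (N : ℕ) : ℝ := ∑ f ∈ (Ioc 0 N).filter Fam, (2 : ℝ) ^ f.primeFactors.card

lemma H_nonneg (N : ℕ) : 0 ≤ H N := sum_nonneg fun _ _ => by positivity

lemma H_mono {M N : ℕ} (h : M ≤ N) : H M ≤ H N := by
  classical
  unfold H
  apply sum_le_sum_of_subset_of_nonneg
  · exact filter_subset_filter _ (Ioc_subset_Ioc_right h)
  · intro _ _ _; positivity

lemma H_le (N : ℕ) : H N ≤ N := by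
  classical
  have h1 : (∑ f ∈ (Ioc 0 N).filter Fam, r f : ℤ) ≤ N := by
    refine le_trans ?_ (sum_r_le N)
    exact sum_le_sum_of_subset_of_nonneg (filter_subset _ _) fun n _ _ => r_nonneg n
  have h2 : (∑ f ∈ (Ioc 0 N).filter Fam, r f : ℤ) =
      ∑ f ∈ (Ioc 0 N).filter Fam, (2 : ℤ) ^ f.primeFactors.card :=
    sum_congr rfl fun f hf => r_fam (mem_filter.1 hf).2
  rw [h2] at h1
  unfold H
  exact_mod_cast h1

lemma decomp {n : ℕ} (hn : n ≠ 0) (hr : r n ≠ 0) : ∃ t e f : ℕ, 1 ≤ t ∧ e ≤ 1 ∧ Fam f ∧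
    n = t ^ 2 * (3 ^ e * f) := by
  obtain ⟨s, t, hst, hs⟩ := Nat.sq_mul_squarefree n
  have ht : t ≠ 0 := by rintro rfl; simp at hst; exact hn hst.symm
  have hs0 : s ≠ 0 := hs.ne_zero
  have hpr : ∀ q : ℕ, q.Prime → q ∣ s → q % 3 = 1 ∨ q = 3 := by
    intro q hq hqs
    by_contra hcon
    push Not at hcon
    have h2 : q % 3 = 2 := by
      rcases Nat.lt_or_ge (q % 3) 1 with h | h
      · have h3 : 3 ∣ q := Nat.dvd_of_mod_eq_zero (by omega)
        exact absurd ((Nat.prime_dvd_prime_iff_eq Nat.prime_three hq).1 h3).symm hcon.2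
      · have := Nat.mod_lt q (show 0 < 3 by norm_num)
        omega
    apply hr
    apply r_zero hn hq h2
    rw [← hst, Nat.factorization_mul (pow_ne_zero _ ht) hs0, Nat.factorization_pow]
    have h3 := (Nat.squarefree_iff_factorization_le_one hs0).1 hs q
    have h4 := hq.factorization_pos_of_dvd hs0 hqs
    have h5 : s.factorization q = 1 := by omega
    simp only [Finsupp.coe_add, Finsupp.coe_smul, Pi.add_apply, Pi.smul_apply, smul_eq_mul, h5]
    exact ⟨t.factorization q, rfl⟩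
  by_cases h3 : 3 ∣ s
  · obtain ⟨f, rfl⟩ := h3
    refine ⟨t, 1, f, Nat.pos_of_ne_zero ht, le_refl _, ⟨hs.of_mul_right, fun p hp hpf => ?_⟩, ?_⟩
    · rcases hpr p hp (hpf.mul_left 3) with h | h
      · exact h
      · exfalso
        subst h
        have : 3 * 3 ∣ 3 * f := Nat.mul_dvd_mul_left 3 hpf
        have := hs 3 this
        rw [Nat.isUnit_iff] at this
        omega
    · rw [← hst, pow_one]
  · refine ⟨t, 0, s, Nat.pos_of_ne_zero ht, by norm_num, ⟨hs, fun p hp hpf => ?_⟩, ?_⟩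
    · rcases hpr p hp hpf with h | h
      · exact h
      · subst h; exact absurd hpf h3
    · rw [← hst, pow_zero, one_mul]

lemma card_div_mul (a b : ℕ) : (a * b).divisors.card ≤ a.divisors.card * b.divisors.card := by
  classical
  rw [Nat.divisors_mul]
  exact card_mul_le

lemma r_le_dec {t e f : ℕ} (he : e ≤ 1) (hf : Fam f) :
    (r (t ^ 2 * (3 ^ e * f)) : ℝ) ≤ 2 * (t ^ 2).divisors.card * 2 ^ f.primeFactors.card := by
  have h1 : (r (t ^ 2 * (3 ^ e * f)) : ℝ) ≤ (t ^ 2 * (3 ^ e * f)).divisors.card := by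
    exact_mod_cast r_le _
  refine h1.trans ?_
  have h2 : (3 ^ e).divisors.card ≤ 2 := by
    rw [Nat.divisors_prime_pow Nat.prime_three, card_map, card_range]
    omega
  have h3 : (t ^ 2 * (3 ^ e * f)).divisors.card ≤
      (t ^ 2).divisors.card * (2 * 2 ^ f.primeFactors.card) := by
    refine (card_div_mul _ _).trans (Nat.mul_le_mul_left _ ?_)
    refine (card_div_mul _ _).trans ?_
    rw [card_fam hf.1]
    exact Nat.mul_le_mul_right _ h2
  calc ((t ^ 2 * (3 ^ e * f)).divisors.card : ℝ) ≤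
      (((t ^ 2).divisors.card * (2 * 2 ^ f.primeFactors.card) : ℕ) : ℝ) := by exact_mod_cast h3
    _ = _ := by push_cast; ring

lemma sum_r_bd (N : ℕ) : ((∑ n ∈ Ioc 0 N, r n : ℤ) : ℝ) ≤
    ∑ t ∈ Ioc 0 N, 4 * ((t ^ 2).divisors.card : ℝ) * H (N / t ^ 2) := by
  classical
  have hch : ∀ n : ℕ, ∃ z : ℕ × ℕ × ℕ, n ≠ 0 → r n ≠ 0 → 1 ≤ z.1 ∧ z.2.1 ≤ 1 ∧ Fam z.2.2 ∧
      n = z.1 ^ 2 * (3 ^ z.2.1 * z.2.2) := by
    intro n
    by_cases h : n ≠ 0 ∧ r n ≠ 0
    · obtain ⟨t, e, f, h1, h2, h3, h4⟩ := decomp h.1 h.2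
      exact ⟨(t, e, f), fun _ _ => ⟨h1, h2, h3, h4⟩⟩
    · exact ⟨(0, 0, 0), fun h1 h2 => absurd ⟨h1, h2⟩ h⟩
  choose Z hZ using hch
  set A := (Ioc 0 N).filter (fun n => r n ≠ 0) with hA
  set T := (Ioc 0 N) ×ˢ ((range 2) ×ˢ ((Ioc 0 N).filter Fam)) with hT
  have hA' : ∀ n ∈ A, 1 ≤ (Z n).1 ∧ (Z n).2.1 ≤ 1 ∧ Fam (Z n).2.2 ∧
      n = (Z n).1 ^ 2 * (3 ^ (Z n).2.1 * (Z n).2.2) ∧ n ≤ N ∧ 0 < n := by
    intro n hn
    rw [hA, mem_filter, mem_Ioc] at hn
    obtain ⟨h1, h2, h3, h4⟩ := hZ n (by omega) hn.2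
    exact ⟨h1, h2, h3, h4, hn.1.2, hn.1.1⟩
  calc ((∑ n ∈ Ioc 0 N, r n : ℤ) : ℝ) = ∑ n ∈ A, (r n : ℝ) := by
        rw [hA, sum_filter]
        push_cast
        apply sum_congr rfl
        intro n _
        split_ifs with h
        · rfl
        · rw [not_not.1 h]; simp
    _ ≤ ∑ n ∈ A, (2 * (((Z n).1 ^ 2).divisors.card : ℝ) * 2 ^ (Z n).2.2.primeFactors.card) := by
        apply sum_le_sum
        intro n hn
        obtain ⟨h1, h2, h3, h4, _⟩ := hA' n hn
        have := r_le_dec (t := (Z n).1) h2 h3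
        rwa [← h4] at this
    _ = ∑ z ∈ A.image Z, (2 * ((z.1 ^ 2).divisors.card : ℝ) * 2 ^ z.2.2.primeFactors.card) := by
        rw [sum_image]
        intro n hn m hm h
        have h1 := (hA' n hn).2.2.2.1
        have h2 := (hA' m hm).2.2.2.1
        rw [h1, h2, h]
    _ ≤ ∑ z ∈ T.filter (fun z => z.2.2 ≤ N / z.1 ^ 2),
          (2 * ((z.1 ^ 2).divisors.card : ℝ) * 2 ^ z.2.2.primeFactors.card) := by
        apply sum_le_sum_of_subset_of_nonneg
        · intro z hz
          obtain ⟨n, hn, rfl⟩ := mem_image.1 hz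
          obtain ⟨h1, h2, h3, h4, h5, h6⟩ := hA' n hn
          have hf0 : 0 < (Z n).2.2 := Nat.pos_of_ne_zero h3.1.ne_zero
          have ht2 : 0 < (Z n).1 ^ 2 := by positivity
          have h7 : (Z n).1 ^ 2 * (Z n).2.2 ≤ N := by
            calc (Z n).1 ^ 2 * (Z n).2.2 ≤ (Z n).1 ^ 2 * (3 ^ (Z n).2.1 * (Z n).2.2) := by
                  apply Nat.mul_le_mul_left
                  exact Nat.le_mul_of_pos_left _ (by positivity)
              _ = n := h4.symm
              _ ≤ N := h5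
          have h8 : (Z n).1 ≤ N := by
            calc (Z n).1 ≤ (Z n).1 ^ 2 := Nat.le_self_pow (by norm_num) _
              _ ≤ (Z n).1 ^ 2 * (Z n).2.2 := Nat.le_mul_of_pos_right _ hf0
              _ ≤ N := h7
          have h9 : (Z n).2.2 ≤ N := by
            calc (Z n).2.2 ≤ (Z n).1 ^ 2 * (Z n).2.2 := Nat.le_mul_of_pos_left _ ht2
              _ ≤ N := h7
          rw [mem_filter, hT, mem_product, mem_product, mem_filter, mem_Ioc, mem_Ioc, mem_range]
          refine ⟨⟨⟨h1, h8⟩, by omega, ⟨hf0, h9⟩, h3⟩, ?_⟩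
          rw [Nat.le_div_iff_mul_le ht2, mul_comm]
          exact h7
        · intro z _ _; positivity
    _ = ∑ t ∈ Ioc 0 N, 4 * ((t ^ 2).divisors.card : ℝ) * H (N / t ^ 2) := by
        rw [sum_filter, hT, sum_product]
        apply sum_congr rfl
        intro t _
        rw [sum_product]
        simp only
        rw [sum_const, card_range, H]
        have h1 : (Ioc 0 (N / t ^ 2)).filter Fam =
            ((Ioc 0 N).filter Fam).filter (fun f => f ≤ N / t ^ 2) := by
          ext f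
          simp only [mem_filter, mem_Ioc]
          have := Nat.div_le_self N (t ^ 2)
          constructor
          · rintro ⟨⟨h1, h2⟩, h3⟩
            exact ⟨⟨⟨h1, by omega⟩, h3⟩, h2⟩
          · rintro ⟨⟨⟨h1, _⟩, h3⟩, h2⟩
            exact ⟨⟨h1, h2⟩, h3⟩
        have h2 : ∑ f ∈ ((Ioc 0 N).filter Fam).filter (fun f => f ≤ N / t ^ 2),
            (2 : ℝ) ^ f.primeFactors.card = ∑ f ∈ (Ioc 0 N).filter Fam,
            if f ≤ N / t ^ 2 then (2 : ℝ) ^ f.primeFactors.card else 0 := sum_filter _ _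
        rw [h1, h2, nsmul_eq_mul, mul_sum, mul_sum]
        apply sum_congr rfl
        intro f _
        split_ifs
        · push_cast; ring
        · simp

/-- the weighted count is at least a constant times `N` -/
lemma H_ge : ∃ A : ℝ, 1 ≤ A ∧ ∀ N : ℕ, (N : ℝ) ≤ A * H N := by
  obtain ⟨C, hC1, hC⟩ := Pool.Agent.Work.MP_081200_nt.div_bound (1 / 4) (by norm_num)
  have hsum : Summable (fun t : ℕ => 1 / (t : ℝ) ^ (3 / 2 : ℝ)) :=
    Real.summable_one_div_nat_rpow.2 (by norm_num)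
  obtain ⟨s, hs⟩ := summable_iff_vanishing_norm.1 hsum (1 / (16 * C)) (by positivity)
  set B : ℝ := ∑ t ∈ s, 4 * ((t ^ 2).divisors.card : ℝ) with hB
  have hB0 : 0 ≤ B := sum_nonneg fun _ _ => by positivity
  refine ⟨4 * (B + 1), by linarith, fun N => ?_⟩
  have h1 : (N : ℝ) ≤ 2 * ((∑ n ∈ Ioc 0 N, r n : ℤ) : ℝ) := by exact_mod_cast le_sum_r N
  have h2 := sum_r_bd N
  have h3 : ∑ t ∈ Ioc 0 N, 4 * ((t ^ 2).divisors.card : ℝ) * H (N / t ^ 2) ≤
      B * H N + N / 4 := by
    classical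
    rw [← sum_filter_add_sum_filter_not (Ioc 0 N) (fun t => t ∈ s)]
    apply add_le_add
    · calc ∑ t ∈ (Ioc 0 N).filter (fun t => t ∈ s), 4 * ((t ^ 2).divisors.card : ℝ) * H (N / t ^ 2)
          ≤ ∑ t ∈ (Ioc 0 N).filter (fun t => t ∈ s), 4 * ((t ^ 2).divisors.card : ℝ) * H N := by
            apply sum_le_sum
            intro t _
            exact mul_le_mul_of_nonneg_left (H_mono (Nat.div_le_self _ _)) (by positivity)
        _ ≤ ∑ t ∈ s, 4 * ((t ^ 2).divisors.card : ℝ) * H N := by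
            apply sum_le_sum_of_subset_of_nonneg
            · intro t ht
              exact (mem_filter.1 ht).2
            · intro t _ _
              have := H_nonneg N
              positivity
        _ = B * H N := by rw [hB, sum_mul]
    · have h4 : ∀ t ∈ (Ioc 0 N).filter (fun t => ¬ t ∈ s),
          4 * ((t ^ 2).divisors.card : ℝ) * H (N / t ^ 2) ≤
            4 * C * N * (1 / (t : ℝ) ^ (3 / 2 : ℝ)) := by
        intro t ht
        rw [mem_filter, mem_Ioc] at ht
        have ht0 : (0 : ℝ) < t := by exact_mod_cast ht.1.1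
        have h5 : ((t ^ 2).divisors.card : ℝ) ≤ C * (t : ℝ) ^ (1 / 2 : ℝ) := by
          have := hC (t ^ 2) (pow_ne_zero _ (by omega))
          refine this.trans (le_of_eq ?_)
          push_cast
          rw [← Real.rpow_natCast, ← Real.rpow_mul ht0.le]
          norm_num
        have h6 : H (N / t ^ 2) ≤ N / (t : ℝ) ^ 2 := by
          refine (H_le _).trans ?_
          have := @Nat.cast_div_le ℝ _ _ _ N (t ^ 2)
          simpa using this
        calc 4 * ((t ^ 2).divisors.card : ℝ) * H (N / t ^ 2)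
            ≤ 4 * (C * (t : ℝ) ^ (1 / 2 : ℝ)) * (N / (t : ℝ) ^ 2) := by
              apply mul_le_mul _ h6 (H_nonneg _) (by positivity)
              linarith
          _ = 4 * C * N * (1 / (t : ℝ) ^ (3 / 2 : ℝ)) := by
              have h7 : (t : ℝ) ^ 2 = (t : ℝ) ^ (1 / 2 : ℝ) * (t : ℝ) ^ (3 / 2 : ℝ) := by
                rw [← Real.rpow_add ht0]
                norm_num
              have h8 : (0 : ℝ) < (t : ℝ) ^ (1 / 2 : ℝ) := by positivity
              have h9 : (0 : ℝ) < (t : ℝ) ^ (3 / 2 : ℝ) := by positivity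
              rw [h7]
              field_simp
      refine (sum_le_sum h4).trans ?_
      rw [← mul_sum]
      have h5 := hs ((Ioc 0 N).filter (fun t => ¬ t ∈ s)) (by
        rw [disjoint_left]
        intro t ht
        exact (mem_filter.1 ht).2)
      have h6 := (le_abs_self _).trans (Real.norm_eq_abs _ ▸ h5.le)
      calc 4 * C * N * ∑ t ∈ (Ioc 0 N).filter (fun t => ¬ t ∈ s), 1 / (t : ℝ) ^ (3 / 2 : ℝ)
          ≤ 4 * C * N * (1 / (16 * C)) := mul_le_mul_of_nonneg_left h6 (by positivity)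
        _ = N / 4 := by
          have : C ≠ 0 := by linarith
          field_simp
          ring
  have h4 := H_nonneg N
  nlinarith

theorem stmt_CNT2 : Stmt_CNT2 := by
  classical
  obtain ⟨A, hA1, hA⟩ := H_ge
  refine ⟨1 / (8 * A), by positivity, fun Q hQ => ?_⟩
  set N := ⌊Q⌋₊ with hN
  have hN7 : 7 ≤ N := Nat.le_floor (by exact_mod_cast hQ)
  have hQN : Q ≤ 2 * N := by
    have h1 := Nat.lt_floor_add_one Q
    have h2 : (7 : ℝ) ≤ N := by exact_mod_cast hN7
    rw [← hN] at h1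
    linarith
  set S : ℝ := ∑ f ∈ (Icc 2 N).filter Fam, (2 : ℝ) ^ f.primeFactors.card with hS
  have hF1 : Fam 1 := ⟨squarefree_one, fun p hp h => by
    have := Nat.dvd_one.1 h
    subst this
    exact absurd hp Nat.not_prime_one⟩
  have hF7 : Fam 7 := by
    refine ⟨(by norm_num : Nat.Prime 7).squarefree, fun p hp h => ?_⟩
    have := (Nat.prime_dvd_prime_iff_eq hp (by norm_num)).1 h
    subst this
    rfl
  have e1 : H N = 1 + S := by
    unfold H
    have : (Ioc 0 N).filter Fam = insert 1 ((Icc 2 N).filter Fam) := by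
      ext f
      simp only [mem_filter, mem_Ioc, mem_insert, mem_Icc]
      constructor
      · rintro ⟨⟨h1, h2⟩, h3⟩
        rcases Nat.lt_or_ge f 2 with h | h
        · left; omega
        · right; exact ⟨⟨h, h2⟩, h3⟩
      · rintro (h | ⟨⟨h1, h2⟩, h3⟩)
        · subst h; exact ⟨⟨by norm_num, by omega⟩, hF1⟩
        · exact ⟨⟨by omega, h2⟩, h3⟩
    rw [this, sum_insert (by simp), Nat.primeFactors_one, card_empty, pow_zero]
  have e2 : 2 ≤ S := by
    have h7 : 7 ∈ (Icc 2 N).filter Fam := by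
      rw [mem_filter, mem_Icc]
      exact ⟨⟨by norm_num, hN7⟩, hF7⟩
    refine le_trans ?_ (single_le_sum (f := fun f : ℕ => (2 : ℝ) ^ f.primeFactors.card)
      (fun _ _ => by positivity) h7)
    rw [(by norm_num : Nat.Prime 7).primeFactors, card_singleton, pow_one]
  have e3 := hA N
  rw [e1] at e3
  have e4 : Q ≤ 8 * A * S := by nlinarith
  rw [div_mul_eq_mul_div, one_mul, div_le_iff₀ (by positivity)]
  linarith

end Pool.Agent.Work.SF.CNT2_

namespace Pool.Agent.Work.SF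

theorem stmt_CNT2 : Stmt_CNT2 := CNT2_.stmt_CNT2

end Pool.Agent.Work.SF
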