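import Pool.Agent.Work.SF081200.Interface3
import Pool.Agent.Work.SF081200.CNT1
import Pool.Agent.Work.SF081200.CNT2

/-!
# MP_081200_nt, block CNT3: the smooth members of the family have positive weighted density
-/

set_option autoImplicit false

open Finset Filter Topology

namespace Pool.Agent.Work.SF.CN3

open CN1

/-- primes `1` modulo `3` in `(Q ^ a, Q ^ b]` -/
noncomputable def PB (Q a b : ℝ) : Finset ℕ :=
  (Ioc ⌊Q ^ a⌋₊ ⌊Q ^ b⌋₊).filter (fun p => p.Prime ∧ p % 3 = 1)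

theorem mem_PB {Q : ℝ} (hQ : 0 ≤ Q) {a b : ℝ} {p : ℕ} : p ∈ PB Q a b ↔
    Q ^ a < p ∧ (p : ℝ) ≤ Q ^ b ∧ p.Prime ∧ p % 3 = 1 := by
  unfold PB
  rw [mem_filter, mem_Ioc, Nat.floor_lt (by positivity), Nat.le_floor_iff (by positivity)]
  tauto

theorem PB_lower (a b : ℝ) (ha : 0 < a) (hab : a < b) : ∀ᶠ Q : ℝ in atTop,
    1 / 2 * Real.log (b / a) ≤ ∑ p ∈ PB Q a b, 2 / (p : ℝ) := by
  obtain ⟨C, hC0, hC⟩ := M3.mertens2_three
  have hb : 0 < b := ha.trans hab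
  have h1 := tendsto_log_floor ha
  have h2 := tendsto_log_floor hb
  have h3 : Tendsto (fun Q : ℝ => Real.log (Real.log (⌊Q ^ b⌋₊ : ℝ) / Real.log Q) -
      Real.log (Real.log (⌊Q ^ a⌋₊ : ℝ) / Real.log Q)) atTop
      (𝓝 (Real.log b - Real.log a)) := by
    apply Tendsto.sub
    · exact (Real.continuousAt_log (by positivity)).tendsto.comp h2
    · exact (Real.continuousAt_log (by positivity)).tendsto.comp h1
  have h4 : Tendsto (fun Q : ℝ => Real.log (⌊Q ^ a⌋₊ : ℝ)) atTop atTop := by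
    refine Real.tendsto_log_atTop.comp (tendsto_natCast_atTop_atTop.comp
      (tendsto_nat_floor_atTop.comp (tendsto_rpow_atTop ha)))
  have h5 : Tendsto (fun Q : ℝ => 2 * C / Real.log (⌊Q ^ a⌋₊ : ℝ)) atTop (𝓝 0) :=
    tendsto_const_nhds.div_atTop h4
  have h6 := h3.sub h5
  have h7 : Real.log b - Real.log a - 0 = Real.log (b / a) := by
    rw [Real.log_div hb.ne' ha.ne']; ring
  rw [h7] at h6
  have h8 : 1 / 2 * Real.log (b / a) < Real.log (b / a) := by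
    have := Real.log_pos (show (1 : ℝ) < b / a by rwa [one_lt_div ha])
    linarith
  have hfl : Tendsto (fun Q : ℝ => ⌊Q ^ a⌋₊) atTop atTop :=
    tendsto_nat_floor_atTop.comp (tendsto_rpow_atTop ha)
  filter_upwards [h6.eventually (lt_mem_nhds h8), hfl.eventually_ge_atTop 2,
    eventually_gt_atTop 1] with Q hQ1 hQ2 hQ3
  have h9 : ⌊Q ^ a⌋₊ ≤ ⌊Q ^ b⌋₊ := by
    apply Nat.floor_le_floor
    apply Real.rpow_le_rpow_of_exponent_le hQ3.le
    linarith
  have h10 := (abs_le.1 (hC _ _ hQ2 h9)).1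
  have hlQ : 0 < Real.log Q := Real.log_pos hQ3
  have hlu : 0 < Real.log (⌊Q ^ a⌋₊ : ℝ) := Real.log_pos (by exact_mod_cast (by omega))
  have hlv : 0 < Real.log (⌊Q ^ b⌋₊ : ℝ) := Real.log_pos (by exact_mod_cast (by omega))
  rw [Real.log_div hlv.ne' hlQ.ne', Real.log_div hlu.ne' hlQ.ne'] at hQ1
  have h11 : ∑ p ∈ PB Q a b, 2 / (p : ℝ) = 2 * ∑ p ∈ PB Q a b, 1 / (p : ℝ) := by
    rw [mul_sum]
    exact sum_congr rfl fun p _ => by ring
  rw [h11]
  unfold PB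
  have h12 : 2 * C / Real.log (⌊Q ^ a⌋₊ : ℝ) = 2 * (C / Real.log (⌊Q ^ a⌋₊ : ℝ)) := by ring
  rw [h12] at hQ1
  linarith

/-- primes `1` modulo `3` in `(x / K, x]` -/
theorem last : ∃ K : ℝ, 1 ≤ K ∧ ∀ x : ℝ, K ≤ x →
    x / K ≤ Real.log x *
      (((Ioc ⌊x / K⌋₊ ⌊x⌋₊).filter (fun p => p.Prime ∧ p % 3 = 1)).card : ℝ) := by
  obtain ⟨C, hC0, hC⟩ := M3.mertens1_three
  set K : ℝ := 2 * Real.exp (4 * C + 2) with hK
  have hK1 : 1 ≤ K := by
    have := Real.one_le_exp (show (0 : ℝ) ≤ 4 * C + 2 by positivity)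
    rw [hK]; linarith
  refine ⟨K, hK1, fun x hx => ?_⟩
  have hK0 : 0 < K := by linarith
  have hx0 : 0 < x := by linarith
  have hx1 : 1 ≤ x := hK1.trans hx
  have hm1 : 1 ≤ ⌊x / K⌋₊ := by
    apply Nat.le_floor
    rw [Nat.cast_one, le_div_iff₀ hK0]
    linarith
  have hmn : ⌊x / K⌋₊ ≤ ⌊x⌋₊ := by
    apply Nat.floor_le_floor
    exact div_le_self hx0.le hK1
  have h1 := (abs_le.1 (hC ⌊x⌋₊ (hm1.trans hmn))).1
  have h2 := (abs_le.1 (hC ⌊x / K⌋₊ hm1)).2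
  have hsplit : ∑ p ∈ (Icc 1 ⌊x⌋₊).filter (fun p => p.Prime ∧ p % 3 = 1), Real.log p / p =
      ∑ p ∈ (Icc 1 ⌊x / K⌋₊).filter (fun p => p.Prime ∧ p % 3 = 1), Real.log p / p +
      ∑ p ∈ (Ioc ⌊x / K⌋₊ ⌊x⌋₊).filter (fun p => p.Prime ∧ p % 3 = 1), Real.log p / p := by
    rw [← sum_union]
    · apply sum_congr _ fun _ _ => rfl
      ext p
      simp only [mem_union, mem_filter, mem_Icc, mem_Ioc]
      constructor
      · rintro ⟨⟨a, b⟩, c⟩
        rcases Nat.lt_or_ge ⌊x / K⌋₊ p with h | h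
        · exact Or.inr ⟨⟨h, b⟩, c⟩
        · exact Or.inl ⟨⟨a, h⟩, c⟩
      · rintro (⟨⟨a, b⟩, c⟩ | ⟨⟨a, b⟩, c⟩)
        · exact ⟨⟨a, b.trans hmn⟩, c⟩
        · exact ⟨⟨by omega, b⟩, c⟩
    · rw [Finset.disjoint_left]
      intro p hp hp'
      simp only [mem_filter, mem_Icc, mem_Ioc] at hp hp'
      omega
  have hn2 : x / 2 ≤ ⌊x⌋₊ := by
    have h3 := Nat.lt_floor_add_one x
    have h4 : (1 : ℝ) ≤ ⌊x⌋₊ := by exact_mod_cast hm1.trans hmn
    linarith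
  have h3 : Real.log (x / 2) ≤ Real.log ⌊x⌋₊ := Real.log_le_log (by positivity) hn2
  have h4 : Real.log ⌊x / K⌋₊ ≤ Real.log (x / K) :=
    Real.log_le_log (by exact_mod_cast hm1) (Nat.floor_le (by positivity))
  have h5 : Real.log (x / 2) - Real.log (x / K) = 4 * C + 2 := by
    rw [Real.log_div hx0.ne' (by norm_num), Real.log_div hx0.ne' hK0.ne', hK,
      Real.log_mul (by norm_num) (Real.exp_pos _).ne', Real.log_exp]
    ring
  have h6 : (1 : ℝ) ≤ ∑ p ∈ (Ioc ⌊x / K⌋₊ ⌊x⌋₊).filter (fun p => p.Prime ∧ p % 3 = 1),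
      Real.log p / p := by linarith
  have h7 : ∑ p ∈ (Ioc ⌊x / K⌋₊ ⌊x⌋₊).filter (fun p => p.Prime ∧ p % 3 = 1), Real.log p / p ≤
      ∑ p ∈ (Ioc ⌊x / K⌋₊ ⌊x⌋₊).filter (fun p => p.Prime ∧ p % 3 = 1), Real.log x / (x / K) := by
    apply sum_le_sum
    intro p hp
    rw [mem_filter, mem_Ioc] at hp
    have hp1 : x / K < p := (Nat.floor_lt (by positivity)).1 hp.1.1
    have hp2 : (p : ℝ) ≤ x := (Nat.le_floor_iff hx0.le).1 hp.1.2
    have hp3 : (0 : ℝ) < p := lt_trans (by positivity) hp1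
    have hlx : 0 ≤ Real.log x := Real.log_nonneg hx1
    gcongr
  rw [sum_const, nsmul_eq_mul] at h7
  have h8 : 1 ≤ (((Ioc ⌊x / K⌋₊ ⌊x⌋₊).filter (fun p => p.Prime ∧ p % 3 = 1)).card : ℝ) *
      (Real.log x / (x / K)) := h6.trans h7
  have hxK : 0 < x / K := by positivity
  rw [← mul_div_assoc, le_div_iff₀ hxK, one_mul] at h8
  linarith

theorem harm (N : ℕ) : ∑ k ∈ Ioc 0 N, (1 : ℝ) / (k + 1) + 1 = ((harmonic (N + 1) : ℚ) : ℝ) := by
  induction N with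
  | zero => simp [harmonic]
  | succ N ih =>
    rw [sum_Ioc_succ_top (by omega), harmonic_succ]
    push_cast
    rw [← ih]
    ring

open Classical in
/-- `sum w(m) / m` -/
theorem logsum : ∃ A : ℝ, 1 ≤ A ∧ ∀ y : ℝ, 1 ≤ y → Real.log y - 1 ≤
    A * ∑ m ∈ (Ioc 0 ⌊y⌋₊).filter Fam, w m / m := by
  obtain ⟨A, hA1, hA⟩ := CNT2_.H_ge
  refine ⟨A, hA1, fun y hy => ?_⟩
  have key : ∀ N : ℕ, ∑ m ∈ (Ioc 0 N).filter Fam, w m / m =
      CNT2_.H N / (N + 1) + ∑ k ∈ Ioc 0 N, CNT2_.H k / (k * (k + 1)) := by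
    intro N
    induction N with
    | zero => simp [CNT2_.H]
    | succ N ih =>
      have e1 : ∑ m ∈ (Ioc 0 (N + 1)).filter Fam, w m / m =
          ∑ m ∈ (Ioc 0 N).filter Fam, w m / m + (CNT2_.H (N + 1) - CNT2_.H N) / (N + 1) := by
        unfold CNT2_.H
        rw [sum_filter, sum_filter, sum_filter, sum_filter, sum_Ioc_succ_top (by omega),
          sum_Ioc_succ_top (by omega)]
        unfold w
        split_ifs <;> push_cast <;> ring
      rw [e1, ih, sum_Ioc_succ_top (by omega)]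
      push_cast
      have h1 : (N : ℝ) + 1 ≠ 0 := by positivity
      have h2 : (N : ℝ) + 1 + 1 ≠ 0 := by positivity
      field_simp
      ring
  set N := ⌊y⌋₊ with hN
  have hlog : Real.log y ≤ Real.log (((N + 1 : ℕ) + 1 : ℕ) : ℝ) := by
    apply Real.log_le_log (by linarith)
    have := Nat.lt_floor_add_one y
    push_cast
    rw [← hN] at this
    linarith
  have hh := log_add_one_le_harmonic (N + 1)
  rw [← harm] at hh
  rw [key N, mul_add, mul_sum]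
  have h3 : ∑ k ∈ Ioc 0 N, (1 : ℝ) / (k + 1) ≤ ∑ k ∈ Ioc 0 N, A * (CNT2_.H k / (k * (k + 1))) := by
    apply sum_le_sum
    intro k hk
    rw [mem_Ioc] at hk
    have hk0 : (0 : ℝ) < k := by exact_mod_cast hk.1
    have h4 := hA k
    rw [← mul_div_assoc, div_le_div_iff₀ (by positivity) (by positivity), one_mul]
    nlinarith
  have h5 : 0 ≤ A * (CNT2_.H N / (N + 1)) := by
    have := CNT2_.H_nonneg N
    positivity
  linarith

/-- unique decomposition -/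
theorem inj {M p M' p' : ℕ} {y : ℝ} (hM' : ∀ q : ℕ, q.Prime → q ∣ M' → (q : ℝ) ≤ y) (hp : p.Prime) (hp' : p'.Prime)
    (hyp : y < p) (hyp' : y < p') (h : M * p = M' * p') : M = M' ∧ p = p' := by
  have h1 : p ∣ M' * p' := ⟨M, by rw [← h]; ring⟩
  have h2 : p = p' := by
    rcases (Nat.Prime.dvd_mul hp).1 h1 with h3 | h3
    · have := hM' p hp h3
      linarith
    · exact (Nat.prime_dvd_prime_iff_eq hp hp').1 h3
  subst h2
  exact ⟨Nat.eq_of_mul_eq_mul_right hp.pos h, rfl⟩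

theorem fam_mul {M p : ℕ} {y : ℝ} (hM : Fam M) (hMy : ∀ q : ℕ, q.Prime → q ∣ M → (q : ℝ) ≤ y)
    (hp : p.Prime) (hp3 : p % 3 = 1) (hyp : y < p) : Fam (M * p) := by
  have hpM : ¬ p ∣ M := fun h => by
    have := hMy p hp h
    linarith
  have hc : M.Coprime p := ((Nat.Prime.coprime_iff_not_dvd hp).2 hpM).symm
  refine ⟨(Nat.squarefree_mul hc).2 ⟨hM.1, hp.squarefree⟩, fun q hq hqd => ?_⟩
  rcases (Nat.Prime.dvd_mul hq).1 hqd with h3 | h3
  · exact hM.2 q hq h3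
  · rw [(Nat.prime_dvd_prime_iff_eq hq hp).1 h3]
    exact hp3

/-- one more prime -/
theorem step (A P : Finset ℕ) (y : ℝ)
    (hA : ∀ M ∈ A, Fam M ∧ ∀ p : ℕ, p.Prime → p ∣ M → (p : ℝ) ≤ y)
    (hP : ∀ p ∈ P, p.Prime ∧ p % 3 = 1 ∧ y < p) :
    ∑ M ∈ (A ×ˢ P).image (fun x => x.1 * x.2), w M / M =
      (∑ M ∈ A, w M / M) * ∑ p ∈ P, 2 / (p : ℝ) := by
  rw [sum_image, sum_product, sum_mul_sum]
  · apply sum_congr rfl
    intro M hM
    apply sum_congr rfl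
    intro p hp
    obtain ⟨h1, h2, h3⟩ := hP p hp
    obtain ⟨h4, h5⟩ := hA M hM
    simp only
    rw [w_mul h1 (fam_mul h4 h5 h1 h2 h3).1]
    push_cast
    rw [div_mul_div_comm]
    ring
  · rintro ⟨M, p⟩ h1 ⟨M', p'⟩ h2 h3
    rw [Finset.mem_coe, mem_product] at h1 h2
    simp only at h1 h2 h3
    obtain ⟨h4, h5⟩ := inj (hA M' h2.1).2 (hP p h1.2).1 (hP p' h2.2).1
      (hP p h1.2).2.2 (hP p' h2.2).2.2 h3
    rw [h4, h5]

open Classical in
/-- the chain -/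
theorem chain (U : ℕ → ℝ) (j : ℕ) (u v σ : ℝ) (hU : ∀ i < j, U i ≤ U (i + 1))
    (hu : ∀ i ≤ j, u ≤ U i) (hv : ∀ i ≤ j, U i ≤ v) (hσ : σ ≤ U 0) (Q : ℝ) (hQ : 1 ≤ Q)
    (l : ℝ) (hl0 : 0 ≤ l) (hl : ∀ i < j, l ≤ ∑ p ∈ PB Q (U i) (U (i + 1)), 2 / (p : ℝ)) :
    ∀ i ≤ j, ∃ T : Finset ℕ, (∀ M ∈ T, Fam M ∧
      (∀ p : ℕ, p.Prime → p ∣ M → (p : ℝ) ≤ Q ^ U i) ∧ Q ^ ((i : ℝ) * u) ≤ M ∧
      (M : ℝ) ≤ Q ^ (σ + i * v)) ∧
      (∑ m ∈ (Ioc 0 ⌊Q ^ σ⌋₊).filter Fam, w m / m) * l ^ i ≤ ∑ M ∈ T, w M / M := by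
  have hQ0 : 0 < Q := by linarith
  have hmono : ∀ a b : ℝ, a ≤ b → Q ^ a ≤ Q ^ b := fun a b h =>
    Real.rpow_le_rpow_of_exponent_le hQ h
  intro i
  induction i with
  | zero =>
    intro _
    refine ⟨(Ioc 0 ⌊Q ^ σ⌋₊).filter Fam, ?_, by simp⟩
    intro M hM
    rw [mem_filter, mem_Ioc, Nat.le_floor_iff (by positivity)] at hM
    refine ⟨hM.2, ?_, ?_, ?_⟩
    · intro p hp hpM
      have h1 : (p : ℝ) ≤ M := by exact_mod_cast Nat.le_of_dvd hM.1.1 hpM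
      exact h1.trans (hM.1.2.trans (hmono _ _ hσ))
    · have : (1 : ℝ) ≤ M := by exact_mod_cast hM.1.1
      simpa using this
    · simpa using hM.1.2
  | succ i ih =>
    intro hi
    obtain ⟨T, hT, hS⟩ := ih (by omega)
    have hPm : ∀ p ∈ PB Q (U i) (U (i + 1)), p.Prime ∧ p % 3 = 1 ∧ Q ^ U i < p := by
      intro p hp
      rw [mem_PB hQ0.le] at hp
      exact ⟨hp.2.2.1, hp.2.2.2, hp.1⟩
    refine ⟨(T ×ˢ PB Q (U i) (U (i + 1))).image (fun x => x.1 * x.2), ?_, ?_⟩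
    · intro M' hM'
      rw [mem_image] at hM'
      obtain ⟨⟨M, p⟩, hMp, rfl⟩ := hM'
      rw [mem_product] at hMp
      simp only at hMp ⊢
      obtain ⟨h1, h2, h3, h4⟩ := hT M hMp.1
      have hp := (mem_PB hQ0.le).1 hMp.2
      refine ⟨fam_mul h1 h2 hp.2.2.1 hp.2.2.2 hp.1, ?_, ?_, ?_⟩
      · intro r hr hrd
        rcases (Nat.Prime.dvd_mul hr).1 hrd with h5 | h5
        · exact (h2 r hr h5).trans (hmono _ _ (hU i (by omega)))
        · rw [(Nat.prime_dvd_prime_iff_eq hr hp.2.2.1).1 h5]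
          exact hp.2.1
      · push_cast
        have e1 : ((i : ℝ) + 1) * u = i * u + u := by ring
        rw [e1, Real.rpow_add hQ0]
        have h5 : Q ^ u ≤ p := (hmono _ _ (hu i (by omega))).trans hp.1.le
        gcongr
      · push_cast
        have e1 : σ + ((i : ℝ) + 1) * v = (σ + i * v) + v := by ring
        rw [e1, Real.rpow_add hQ0]
        have h5 : (p : ℝ) ≤ Q ^ v := hp.2.1.trans (hmono _ _ (hv (i + 1) hi))
        gcongr
    · rw [step T _ (Q ^ U i) (fun M hM => ⟨(hT M hM).1, (hT M hM).2.1⟩) hPm, pow_succ, ← mul_assoc]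
      have h6 := hl i (by omega)
      have h7 : 0 ≤ (∑ m ∈ (Ioc 0 ⌊Q ^ σ⌋₊).filter Fam, w m / m) * l ^ i := by
        apply mul_nonneg _ (by positivity)
        exact sum_nonneg fun m _ => div_nonneg (w_nonneg m) (Nat.cast_nonneg m)
      exact mul_le_mul hS h6 hl0 (h7.trans hS)

/-- the case `s ≤ 1 / 4` -/
theorem small (s : ℝ) (hs : 0 < s) (hs4 : s ≤ 1 / 4) : ∃ c : ℝ, 0 < c ∧ ∀ᶠ Q : ℝ in atTop,
    open Classical in c * Q ≤ ∑ f ∈ (Icc 2 ⌊Q⌋₊).filter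
      (fun f => Fam f ∧ ∀ p : ℕ, p.Prime → p ∣ f → (p : ℝ) ≤ Q ^ s),
        (2 : ℝ) ^ f.primeFactors.card := by
  classical
  obtain ⟨A, hA1, hA⟩ := logsum
  obtain ⟨K, hK1, hK⟩ := last
  have hA0 : 0 < A := by linarith
  have hK0 : 0 < K := by linarith
  set j : ℕ := ⌈2 / s⌉₊ with hj
  have hj1 : 2 / s ≤ j := Nat.le_ceil _
  have hj2 : (j : ℝ) < 2 / s + 1 := Nat.ceil_lt_add_one (by positivity)
  have hj0 : (0 : ℝ) < j := lt_of_lt_of_le (by positivity) hj1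
  have hjs1 : 2 ≤ j * s := by rwa [div_le_iff₀ hs] at hj1
  have hjs2 : j * s ≤ 2 + s := by
    have : (j : ℝ) * s ≤ (2 / s + 1) * s := by gcongr
    refine this.trans (le_of_eq ?_)
    field_simp
  set u : ℝ := (1 - s) / j with hu
  have hu0 : 0 < u := by
    rw [hu]
    apply div_pos _ hj0
    linarith
  have hju : (j : ℝ) * u = 1 - s := by
    rw [hu]
    field_simp
  set U : ℕ → ℝ := fun i => u * (1 + s / 8 * i / j) with hU
  have hU0 : ∀ i : ℕ, 0 < U i := fun i => by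
    simp only [hU]
    positivity
  have hUu : ∀ i : ℕ, u ≤ U i := fun i => by
    simp only [hU]
    have : 0 ≤ s / 8 * i / j := by positivity
    nlinarith
  have hUmono : ∀ i k : ℕ, i ≤ k → U i ≤ U k := fun i k hik => by
    simp only [hU]
    have : (i : ℝ) ≤ k := by exact_mod_cast hik
    gcongr
  have hUlt : ∀ i : ℕ, U i < U (i + 1) := fun i => by
    simp only [hU]
    push_cast
    have : s / 8 * (i : ℝ) / j < s / 8 * ((i : ℝ) + 1) / j := by
      apply div_lt_div_of_pos_right _ hj0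
      nlinarith
    nlinarith
  set l : ℝ := 1 / 2 * Real.log (1 + s / (16 * j)) with hl
  have hl0 : 0 < l := by
    rw [hl]
    have : 0 < Real.log (1 + s / (16 * j)) := Real.log_pos (by
      have : 0 < s / (16 * j) := by positivity
      linarith)
    positivity
  have hratio : ∀ i < j, l ≤ 1 / 2 * Real.log (U (i + 1) / U i) := by
    intro i hi
    rw [hl]
    apply mul_le_mul_of_nonneg_left _ (by norm_num)
    apply Real.log_le_log (by positivity)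
    rw [le_div_iff₀ (hU0 i)]
    simp only [hU]
    push_cast
    have hij : (i : ℝ) ≤ j := by exact_mod_cast hi.le
    have h1 : s / 8 * i / j ≤ 1 := by
      rw [div_le_one hj0]
      nlinarith
    have h2 : s / 8 * ((i : ℝ) + 1) / j = s / 8 * i / j + s / 8 / j := by ring
    rw [h2]
    have h3 : (1 + s / (16 * j)) * (1 + s / 8 * i / j) ≤ 1 + (s / 8 * i / j + s / 8 / j) := by
      have h4 : s / (16 * j) = (s / 8 / j) / 2 := by ring
      rw [h4]
      have h5 : 0 ≤ s / 8 / j := by positivity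
      nlinarith
    calc (1 + s / (16 * j)) * (u * (1 + s / 8 * i / j)) =
        u * ((1 + s / (16 * j)) * (1 + s / 8 * i / j)) := by ring
      _ ≤ u * (1 + (s / 8 * i / j + s / 8 / j)) := by gcongr
  have hσ : s / 8 ≤ U 0 := by
    refine le_trans ?_ (hUu 0)
    rw [hu, le_div_iff₀ hj0]
    nlinarith
  have hUj : U j = u * (1 + s / 8) := by
    simp only [hU]
    congr 2
    field_simp
  have hUj2 : U j ≤ s / 2 := by
    rw [hUj]
    have h1 : j * (u * (1 + s / 8)) ≤ j * (s / 2) := by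
      rw [← mul_assoc, hju]
      nlinarith
    exact le_of_mul_le_mul_left h1 hj0
  have hjv : (j : ℝ) * U j ≤ 1 - s + s / 8 := by
    rw [hUj, ← mul_assoc, hju]
    nlinarith
  have ev1 : ∀ᶠ Q : ℝ in atTop, ∀ i ∈ range j,
      1 / 2 * Real.log (U (i + 1) / U i) ≤ ∑ p ∈ PB Q (U i) (U (i + 1)), 2 / (p : ℝ) := by
    rw [Filter.eventually_all_finset]
    intro i _
    exact PB_lower _ _ (hU0 i) (hUlt i)
  have ev2 : ∀ᶠ Q : ℝ in atTop, K ≤ Q ^ (s / 4) :=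
    (tendsto_rpow_atTop (by positivity)).eventually_ge_atTop K
  have ev3 : ∀ᶠ Q : ℝ in atTop, 16 / s ≤ Real.log Q :=
    Real.tendsto_log_atTop.eventually_ge_atTop _
  refine ⟨2 / K * (s / (16 * A)) * l ^ j, by positivity, ?_⟩
  filter_upwards [ev1, ev2, ev3, eventually_gt_atTop 1] with Q hQ1 hQ2 hQ3 hQ4
  have hQ0 : 0 < Q := by linarith
  have hmono : ∀ a b : ℝ, a ≤ b → Q ^ a ≤ Q ^ b := fun a b h =>
    Real.rpow_le_rpow_of_exponent_le hQ4.le h
  have hlQ : 0 < Real.log Q := Real.log_pos hQ4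
  obtain ⟨T, hT, hS⟩ := chain U j u (U j) (s / 8) (fun i _ => (hUlt i).le) (fun i _ => hUu i)
    (fun i hi => hUmono i j hi) hσ Q hQ4.le l hl0.le
    (fun i hi => (hratio i hi).trans (hQ1 i (mem_range.2 hi))) j le_rfl
  -- the last prime
  set P : ℕ → Finset ℕ := fun M =>
    (Ioc ⌊Q / M / K⌋₊ ⌊Q / M⌋₊).filter (fun p => p.Prime ∧ p % 3 = 1) with hP
  have hM0 : ∀ M ∈ T, (0 : ℝ) < M := fun M hM =>
    lt_of_lt_of_le (by positivity) (hT M hM).2.2.1
  have hx1 : ∀ M ∈ T, Q / M ≤ Q ^ s := by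
    intro M hM
    rw [div_le_iff₀ (hM0 M hM)]
    calc Q = Q ^ s * Q ^ ((j : ℝ) * u) := by
          rw [← Real.rpow_add hQ0, hju]
          nth_rewrite 1 [← Real.rpow_one Q]
          congr 1
          ring
      _ ≤ Q ^ s * M := by
          gcongr
          exact (hT M hM).2.2.1
  have hx2 : ∀ M ∈ T, Q ^ (3 * s / 4) ≤ Q / M := by
    intro M hM
    rw [le_div_iff₀ (hM0 M hM)]
    calc Q ^ (3 * s / 4) * M ≤ Q ^ (3 * s / 4) * Q ^ (s / 8 + j * U j) := by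
          gcongr
          exact (hT M hM).2.2.2
      _ = Q ^ (3 * s / 4 + (s / 8 + j * U j)) := by rw [← Real.rpow_add hQ0]
      _ ≤ Q ^ (1 : ℝ) := by
          apply hmono
          linarith
      _ = Q := Real.rpow_one Q
  have hxK : ∀ M ∈ T, K ≤ Q / M := by
    intro M hM
    refine hQ2.trans ((hmono _ _ ?_).trans (hx2 M hM))
    linarith
  have hPm : ∀ M ∈ T, ∀ p ∈ P M, p.Prime ∧ p % 3 = 1 ∧ Q ^ U j < p ∧ (p : ℝ) ≤ Q / M := by
    intro M hM p hp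
    simp only [hP, mem_filter, mem_Ioc] at hp
    have hQM : 0 < Q / M := div_pos hQ0 (hM0 M hM)
    have h1 : Q / M / K < p := (Nat.floor_lt (by positivity)).1 hp.1.1
    have h2 : (p : ℝ) ≤ Q / M := (Nat.le_floor_iff hQM.le).1 hp.1.2
    refine ⟨hp.2.1, hp.2.2, lt_of_le_of_lt ?_ h1, h2⟩
    rw [le_div_iff₀ hK0]
    calc Q ^ U j * K ≤ Q ^ (s / 2) * Q ^ (s / 4) :=
          mul_le_mul (hmono _ _ hUj2) hQ2 hK0.le (by positivity)
      _ = Q ^ (3 * s / 4) := by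
          rw [← Real.rpow_add hQ0]
          congr 1
          ring
      _ ≤ Q / M := hx2 M hM
  set F := (Icc 2 ⌊Q⌋₊).filter
      (fun f => Fam f ∧ ∀ p : ℕ, p.Prime → p ∣ f → (p : ℝ) ≤ Q ^ s) with hF
  have h1 : ∑ M ∈ T, ∑ p ∈ P M, w (M * p) ≤ ∑ f ∈ F, w f := by
    rw [sum_sigma']
    have h2 : ∑ x ∈ T.sigma P, w (x.1 * x.2) = ∑ f ∈ (T.sigma P).image (fun x => x.1 * x.2), w f := by
      rw [sum_image]
      rintro ⟨M, p⟩ h3 ⟨M', p'⟩ h4 h5
      rw [Finset.mem_coe, mem_sigma] at h3 h4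
      simp only at h3 h4 h5
      obtain ⟨a1, a2, a3, a4⟩ := hPm M h3.1 p h3.2
      obtain ⟨b1, b2, b3, b4⟩ := hPm M' h4.1 p' h4.2
      obtain ⟨c1, c2⟩ := inj (hT M' h4.1).2.1 a1 b1 a3 b3 h5
      subst c1
      subst c2
      rfl
    rw [h2]
    apply sum_le_sum_of_subset_of_nonneg
    · intro f hf
      rw [mem_image] at hf
      obtain ⟨⟨M, p⟩, h3, rfl⟩ := hf
      rw [mem_sigma] at h3
      simp only at h3 ⊢
      obtain ⟨a1, a2, a3, a4⟩ := hPm M h3.1 p h3.2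
      obtain ⟨b1, b2, b3, b4⟩ := hT M h3.1
      rw [hF, mem_filter, mem_Icc, Nat.le_floor_iff hQ0.le]
      refine ⟨⟨?_, ?_⟩, fam_mul b1 b2 a1 a2 a3, ?_⟩
      · have h5 : 0 < M := by exact_mod_cast hM0 M h3.1
        have := a1.two_le
        nlinarith
      · push_cast
        rw [le_div_iff₀ (hM0 M h3.1)] at a4
        linarith
      · intro r hr hrd
        rcases (Nat.Prime.dvd_mul hr).1 hrd with h5 | h5
        · exact (b2 r hr h5).trans (hmono _ _ (hUj2.trans (by linarith)))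
        · rw [(Nat.prime_dvd_prime_iff_eq hr a1).1 h5]
          exact a4.trans (hx1 M h3.1)
    · intro f _ _
      exact w_nonneg f
  have h2 : ∀ M ∈ T, 2 * Q / K * (w M / M) ≤ Real.log Q * ∑ p ∈ P M, w (M * p) := by
    intro M hM
    obtain ⟨b1, b2, b3, b4⟩ := hT M hM
    have h3 : ∑ p ∈ P M, w (M * p) = ((P M).card : ℝ) * (2 * w M) := by
      rw [← nsmul_eq_mul, ← sum_const]
      apply sum_congr rfl
      intro p hp
      obtain ⟨a1, a2, a3, a4⟩ := hPm M hM p hp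
      exact w_mul a1 (fam_mul b1 b2 a1 a2 a3).1
    have h4 := hK (Q / M) (hxK M hM)
    have h5 : Real.log (Q / M) ≤ Real.log Q := by
      apply Real.log_le_log (div_pos hQ0 (hM0 M hM))
      apply div_le_self hQ0.le
      have : 0 < M := by exact_mod_cast hM0 M hM
      exact_mod_cast this
    have h6 : Q / M / K ≤ Real.log Q * ((P M).card : ℝ) := by
      refine h4.trans ?_
      gcongr
    have hw := w_nonneg M
    rw [h3]
    calc 2 * Q / K * (w M / M) = Q / M / K * (2 * w M) := by ring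
      _ ≤ Real.log Q * ((P M).card : ℝ) * (2 * w M) := by gcongr
      _ = _ := by ring
  have h3 : 2 * Q / K * ((s / (16 * A)) * Real.log Q * l ^ j) ≤ Real.log Q * ∑ f ∈ F, w f := by
    have h4 : (s / (16 * A)) * Real.log Q ≤ ∑ m ∈ (Ioc 0 ⌊Q ^ (s / 8)⌋₊).filter Fam, w m / m := by
      have h5 := hA (Q ^ (s / 8)) (Real.one_le_rpow hQ4.le (by positivity))
      rw [Real.log_rpow hQ0] at h5
      have h6 : s / 16 * Real.log Q ≤ s / 8 * Real.log Q - 1 := by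
        rw [div_le_iff₀ hs] at hQ3
        linarith
      have h7 : (s / (16 * A)) * Real.log Q = (s / 16 * Real.log Q) / A := by
        field_simp
      rw [h7, div_le_iff₀ hA0]
      linarith
    calc 2 * Q / K * ((s / (16 * A)) * Real.log Q * l ^ j)
        ≤ 2 * Q / K * ((∑ m ∈ (Ioc 0 ⌊Q ^ (s / 8)⌋₊).filter Fam, w m / m) * l ^ j) := by gcongr
      _ ≤ 2 * Q / K * ∑ M ∈ T, w M / M := by gcongr
      _ = ∑ M ∈ T, 2 * Q / K * (w M / M) := by rw [mul_sum]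
      _ ≤ ∑ M ∈ T, Real.log Q * ∑ p ∈ P M, w (M * p) := sum_le_sum h2
      _ = Real.log Q * ∑ M ∈ T, ∑ p ∈ P M, w (M * p) := by rw [mul_sum]
      _ ≤ Real.log Q * ∑ f ∈ F, w f := by gcongr
  have h4 : 2 * Q / K * ((s / (16 * A)) * Real.log Q * l ^ j) =
      Real.log Q * (2 / K * (s / (16 * A)) * l ^ j * Q) := by ring
  rw [h4] at h3
  exact le_of_mul_le_mul_left h3 hlQ

theorem stmt_CNT3 : Stmt_CNT3 := by
  classical
  intro s hs
  obtain ⟨c, hc, hev⟩ := small (min s (1 / 4)) (by positivity) (min_le_right _ _)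
  obtain ⟨Q₀, hQ₀⟩ := eventually_atTop.1 hev
  refine ⟨c, hc, max Q₀ 1, fun Q hQ => ?_⟩
  have hQ1 : 1 ≤ Q := (le_max_right _ _).trans hQ
  refine (hQ₀ Q ((le_max_left _ _).trans hQ)).trans ?_
  apply sum_le_sum_of_subset_of_nonneg
  · intro f hf
    rw [mem_filter] at hf ⊢
    refine ⟨hf.1, hf.2.1, fun p hp hpd => (hf.2.2 p hp hpd).trans ?_⟩
    exact Real.rpow_le_rpow_of_exponent_le hQ1 (min_le_left _ _)
  · intro f _ _
    positivity

end Pool.Agent.Work.SF.CN3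

namespace Pool.Agent.Work.SF

theorem stmt_CNT3 : Stmt_CNT3 := CN3.stmt_CNT3

end Pool.Agent.Work.SF
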