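import Pool.Agent.Work.SF081200.Interface
import Pool.Agent.Work.LV.MCrt

/-!
# Block CC (helper96): counting primitive cubic characters
-/

set_option autoImplicit false

namespace Pool.Agent.Work.SF.CC_

open Finset Pool.Agent.Work.LV.M

/-! ## Upper bound -/

/-- number of locally primitive characters of order dividing three -/
noncomputable def PL (f : ℕ) : ℕ :=
  Nat.card {ψ : DirichletCharacter ℂ f // LocPrim ψ ∧ ψ ^ 3 = 1}

lemma chi_eq_of {a b : ℕ} (hab : a.Coprime b) (χ χ' : DirichletCharacter ℂ (a * b))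
    (h1 : chiL hab χ = chiL hab χ') (h2 : chiR hab χ = chiR hab χ') : χ = χ' := by
  ext x
  have e := chiL_mul_chiR hab χ ((ZMod.chineseRemainder hab) (x : ZMod (a * b))).1
    ((ZMod.chineseRemainder hab) (x : ZMod (a * b))).2
  have e' := chiL_mul_chiR hab χ' ((ZMod.chineseRemainder hab) (x : ZMod (a * b))).1
    ((ZMod.chineseRemainder hab) (x : ZMod (a * b))).2
  rw [h1, h2] at e
  have e3 := e.symm.trans e'
  have e4 : (ZMod.chineseRemainder hab).symm
      (((ZMod.chineseRemainder hab) (x : ZMod (a * b))).1,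
        ((ZMod.chineseRemainder hab) (x : ZMod (a * b))).2) = (x : ZMod (a * b)) :=
    (ZMod.chineseRemainder hab).symm_apply_apply _
  rw [e4] at e3
  exact e3

lemma PL_mul {a b : ℕ} (ha : a ≠ 0) (hb : b ≠ 0) (hab : a.Coprime b) :
    PL (a * b) ≤ PL a * PL b := by
  have : NeZero a := ⟨ha⟩
  have : NeZero b := ⟨hb⟩
  unfold PL
  rw [← Nat.card_prod]
  refine Nat.card_le_card_of_injective
    (fun ψ => (⟨chiL hab ψ.1, locPrim_chiL hab ψ.1 ψ.2.1, chiL_pow hab ψ.1 ψ.2.2⟩,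
      ⟨chiR hab ψ.1, locPrim_chiR hab ψ.1 ψ.2.1, chiR_pow hab ψ.1 ψ.2.2⟩)) ?_
  intro ψ ψ' h
  simp only [Prod.mk.injEq, Subtype.mk.injEq] at h
  exact Subtype.ext (chi_eq_of hab _ _ h.1 h.2)

lemma cube_eq {q : ℕ} {ψ : DirichletCharacter ℂ q} (h : ψ ^ 3 = 1) (u : (ZMod q)ˣ) :
    ψ (u : ZMod q) ^ 3 = 1 := by
  have := congrArg (fun f : DirichletCharacter ℂ q => f (u : ZMod q)) h
  simpa [MulChar.pow_apply_coe] using this

/-- at most two nontrivial cubic characters on a cyclic group -/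
lemma cyc_le {q : ℕ} [NeZero q] (hc : IsCyclic (ZMod q)ˣ) :
    Nat.card {ψ : DirichletCharacter ℂ q // ψ ≠ 1 ∧ ψ ^ 3 = 1} ≤ 2 := by
  classical
  obtain ⟨g, hg⟩ := hc.exists_generator
  have hfin : Finite {z : ℂ // z ∈ (Polynomial.nthRootsFinset 3 (1 : ℂ)).erase 1} := inferInstance
  have hval : ∀ ψ : DirichletCharacter ℂ q, ψ ≠ 1 → ψ ^ 3 = 1 →
      ψ (g : ZMod q) ∈ (Polynomial.nthRootsFinset 3 (1 : ℂ)).erase 1 := by
    intro ψ h1 h3
    rw [mem_erase, Polynomial.mem_nthRootsFinset (by norm_num)]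
    refine ⟨fun h => h1 ?_, cube_eq h3 g⟩
    ext u
    obtain ⟨n, hn⟩ := Subgroup.mem_zpowers_iff.1 (hg u)
    rw [MulChar.one_apply_coe, ← hn]
    have h4 : ψ.toUnitHom g = 1 := by
      ext
      simpa using h
    have h5 : ψ.toUnitHom (g ^ n) = 1 := by rw [map_zpow, h4, one_zpow]
    have h6 : ((ψ.toUnitHom (g ^ n) : ℂˣ) : ℂ) = 1 := by rw [h5]; rfl
    rwa [MulChar.coe_toUnitHom] at h6
  have h2 : ((Polynomial.nthRootsFinset 3 (1 : ℂ)).erase 1).card ≤ 2 := by
    have h1 : (1 : ℂ) ∈ Polynomial.nthRootsFinset 3 (1 : ℂ) := by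
      rw [Polynomial.mem_nthRootsFinset (by norm_num)]; norm_num
    rw [card_erase_of_mem h1]
    have h3 : (Polynomial.nthRootsFinset 3 (1 : ℂ)).card ≤ 3 := by
      unfold Polynomial.nthRootsFinset
      exact (Multiset.toFinset_card_le _).trans (Polynomial.card_nthRoots 3 1)
    omega
  calc Nat.card {ψ : DirichletCharacter ℂ q // ψ ≠ 1 ∧ ψ ^ 3 = 1}
      ≤ Nat.card {z : ℂ // z ∈ (Polynomial.nthRootsFinset 3 (1 : ℂ)).erase 1} := by
        refine Nat.card_le_card_of_injective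
          (fun ψ => ⟨ψ.1 (g : ZMod q), hval ψ.1 ψ.2.1 ψ.2.2⟩) ?_
        intro ψ ψ' h
        simp only [Subtype.mk.injEq] at h
        apply Subtype.ext
        ext u
        obtain ⟨n, hn⟩ := Subgroup.mem_zpowers_iff.1 (hg u)
        have h4 : ψ.1.toUnitHom g = ψ'.1.toUnitHom g := by
          ext
          simpa using h
        have h5 : ψ.1.toUnitHom (g ^ n) = ψ'.1.toUnitHom (g ^ n) := by
          rw [map_zpow, map_zpow, h4]
        rw [hn] at h5
        have := congrArg Units.val h5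
        simpa using this
    _ = ((Polynomial.nthRootsFinset 3 (1 : ℂ)).erase 1).card := Nat.card_eq_card_toFinset _ |>.trans (by simp)
    _ ≤ 2 := h2

lemma locPrim_ne_one {q : ℕ} {ψ : DirichletCharacter ℂ q} (hq : q ≠ 1) (h : LocPrim ψ) :
    ψ ≠ 1 := by
  rintro rfl
  obtain ⟨p, hp, hpq⟩ := Nat.exists_prime_and_dvd hq
  obtain ⟨u, _, hu⟩ := h p hp hpq
  exact hu (MulChar.one_apply_coe u)

lemma PL_prime_pow {p k : ℕ} (hp : p.Prime) (hk : 0 < k) : PL (p ^ k) ≤ 2 := by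
  have : NeZero (p ^ k) := ⟨pow_ne_zero _ hp.ne_zero⟩
  have hne : p ^ k ≠ 1 := by
    have := Nat.one_lt_pow hk.ne' hp.one_lt
    omega
  have key : ∀ _ : IsCyclic (ZMod (p ^ k))ˣ, PL (p ^ k) ≤ 2 := by
    intro hc
    refine le_trans ?_ (cyc_le hc)
    unfold PL
    refine Nat.card_le_card_of_injective
      (fun ψ => ⟨ψ.1, locPrim_ne_one hne ψ.2.1, ψ.2.2⟩) ?_
    intro ψ ψ' h
    simp only [Subtype.mk.injEq] at h
    exact Subtype.ext h
  rcases Nat.lt_or_ge k 2 with h | h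
  · have hk1 : k = 1 := by omega
    subst hk1
    apply key
    rw [pow_one]
    have : Fact p.Prime := ⟨hp⟩
    infer_instance
  · by_cases hp3 : p = 3
    · subst hp3
      exact key (ZMod.isCyclic_units_of_prime_pow 3 Nat.prime_three (by norm_num) k)
    · have : IsEmpty {ψ : DirichletCharacter ℂ (p ^ k) // LocPrim ψ ∧ ψ ^ 3 = 1} :=
        ⟨fun ψ => not_locPrim_of_ne_three hp hp3 h ψ.1 ψ.2.2 ψ.2.1⟩
      unfold PL
      rw [Nat.card_of_isEmpty]
      norm_num

lemma PL_le (f : ℕ) (hf : f ≠ 0) : PL f ≤ 2 ^ f.primeFactors.card := by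
  induction f using Nat.recOnPosPrimePosCoprime with
  | prime_pow p n hp hn =>
    rw [Nat.primeFactors_prime_pow hn.ne' hp, card_singleton, pow_one]
    exact PL_prime_pow hp hn
  | zero => exact absurd rfl hf
  | one =>
    unfold PL
    have : Nat.card {ψ : DirichletCharacter ℂ 1 // LocPrim ψ ∧ ψ ^ 3 = 1} ≤ Nat.card Unit := by
      refine Nat.card_le_card_of_injective (fun _ => ()) ?_
      intro ψ ψ' _
      exact Subtype.ext (Subsingleton.elim _ _)
    simpa using this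
  | coprime a b ha hb hab iha ihb =>
    have ha0 : a ≠ 0 := by omega
    have hb0 : b ≠ 0 := by omega
    rw [hab.primeFactors_mul, card_union_of_disjoint hab.disjoint_primeFactors, pow_add]
    exact (PL_mul ha0 hb0 hab).trans (Nat.mul_le_mul (iha ha0) (ihb hb0))

theorem NPC_le (f : ℕ) (hf : 1 ≤ f) : NPC f ≤ 2 ^ f.primeFactors.card := by
  have : NeZero f := ⟨by omega⟩
  refine le_trans ?_ (PL_le f (by omega))
  unfold NPC PL
  refine Nat.card_le_card_of_injective
    (fun ψ => ⟨ψ.1, locPrim_of_isPrimitive ψ.1 ψ.2.1, ψ.2.2.1⟩) ?_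
  intro ψ ψ' h
  simp only [Subtype.mk.injEq] at h
  exact Subtype.ext h

/-! ## The conductors -/

lemma dec {f : ℕ} (hf : f ≠ 0) (χ : DirichletCharacter ℂ f) (hloc : LocPrim χ)
    (hcub : χ ^ 3 = 1) {p : ℕ} (hp : p.Prime) :
    ∃ ψ : DirichletCharacter ℂ (p ^ f.factorization p), LocPrim ψ ∧ ψ ^ 3 = 1 := by
  have key : ∀ (q : ℕ) (_ : NeZero q) (v m : ℕ) (_ : q = p ^ v * m)
      (_ : (p ^ v).Coprime m) (χ : DirichletCharacter ℂ q), LocPrim χ → χ ^ 3 = 1 →
      ∃ ψ : DirichletCharacter ℂ (p ^ v), LocPrim ψ ∧ ψ ^ 3 = 1 := by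
    intro q hq v m hqm hc χ hloc hcub
    subst hqm
    have h1 : NeZero (p ^ v) := ⟨pow_ne_zero _ hp.ne_zero⟩
    have h2 : NeZero m := ⟨fun h => NeZero.ne (p ^ v * m) (by rw [h, mul_zero])⟩
    exact ⟨chiL hc χ, locPrim_chiL hc χ hloc, chiL_pow hc χ hcub⟩
  refine key f ⟨hf⟩ (f.factorization p) (f / p ^ f.factorization p)
    (Nat.ordProj_mul_ordCompl_eq_self f p).symm ?_ χ hloc hcub
  exact Nat.Coprime.pow_left _ (Nat.coprime_ordCompl hp hf)

lemma no_loc {p : ℕ} (hp : p.Prime) (h : p % 3 ≠ 1) (ψ : DirichletCharacter ℂ (p ^ 1))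
    (h3 : ψ ^ 3 = 1) : ¬ LocPrim ψ := by
  have key : ∀ q : ℕ, q = p → ∀ ψ : DirichletCharacter ℂ q, ψ ^ 3 = 1 → ¬ LocPrim ψ := by
    rintro q rfl ψ h3 hl
    have : Fact q.Prime := ⟨hp⟩
    obtain ⟨u, _, hu⟩ := hl q hp dvd_rfl
    apply hu
    have h4 : ψ (u : ZMod q) ^ (q - 1) = 1 := by
      rw [← map_pow, ← Units.val_pow_eq_pow_val, ZMod.units_pow_card_sub_one_eq_one]
      simp
    have h5 := cube_eq h3 u
    have hc : Nat.Coprime (q - 1) 3 := by
      rw [Nat.coprime_comm, Nat.Prime.coprime_iff_not_dvd Nat.prime_three]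
      intro hd
      have := hp.two_le
      omega
    have h8 : orderOf (ψ (u : ZMod q)) ∣ 1 := by
      rw [← hc]
      exact Nat.dvd_gcd (orderOf_dvd_of_pow_eq_one h4) (orderOf_dvd_of_pow_eq_one h5)
    exact orderOf_eq_one_iff.1 (Nat.dvd_one.1 h8)
  exact key (p ^ 1) (pow_one p) ψ h3

theorem NPC_supp (f : ℕ) (hf : 1 ≤ f) (h : NPC f ≠ 0) :
    2 ≤ f ∧ (Fam f ∨ ∃ f' : ℕ, Fam f' ∧ f = 9 * f') := by
  have hne : NeZero f := ⟨by omega⟩
  have hf0 : f ≠ 0 := by omega
  have hex : Nonempty {ψ : DirichletCharacter ℂ f // ψ.IsPrimitive ∧ ψ ^ 3 = 1 ∧ ψ ≠ 1} := by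
    by_contra hcon
    rw [not_nonempty_iff] at hcon
    exact h (by unfold NPC; exact Nat.card_of_isEmpty)
  obtain ⟨χ, hprim, hcub, hne1⟩ := hex
  have hloc := locPrim_of_isPrimitive χ hprim
  have h2 : 2 ≤ f := by
    by_contra hcon
    have : f = 1 := by omega
    subst this
    exact hne1 (DirichletCharacter.level_one χ)
  have v1 : ∀ p : ℕ, p.Prime → p ≠ 3 → f.factorization p ≤ 1 := by
    intro p hp hp3
    by_contra hcon
    push Not at hcon
    obtain ⟨ψ, h1, h2⟩ := dec hf0 χ hloc hcub hp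
    exact not_locPrim_of_ne_three hp hp3 hcon ψ h2 h1
  have v3 : f.factorization 3 ≤ 2 := by
    by_contra hcon
    push Not at hcon
    obtain ⟨ψ, h1, h2⟩ := dec hf0 χ hloc hcub Nat.prime_three
    exact not_locPrim_three hcon ψ h2 h1
  have v1' : ∀ p : ℕ, p.Prime → p % 3 ≠ 1 → f.factorization p ≠ 1 := by
    intro p hp hp3 he
    have h1 := dec hf0 χ hloc hcub hp
    rw [he] at h1
    obtain ⟨ψ, h1, h2⟩ := h1
    exact no_loc hp hp3 ψ h2 h1
  have hp1 : ∀ p : ℕ, p.Prime → p ∣ f → p ≠ 3 → p % 3 = 1 := by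
    intro p hp hpf hp3
    by_contra hcon
    have h1 := v1 p hp hp3
    have h2 := v1' p hp hcon
    have h3 := hp.factorization_pos_of_dvd hf0 hpf
    omega
  have v3' := v1' 3 Nat.prime_three (by norm_num)
  refine ⟨h2, ?_⟩
  rcases Nat.eq_zero_or_pos (f.factorization 3) with h0 | h0
  · left
    refine ⟨(Nat.squarefree_iff_factorization_le_one hf0).2 fun p => ?_, fun p hp hpf => ?_⟩
    · by_cases hp : p.Prime
      · by_cases hp3 : p = 3
        · rw [hp3, h0]; norm_num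
        · exact v1 p hp hp3
      · rw [Nat.factorization_eq_zero_of_not_prime f hp]; norm_num
    · apply hp1 p hp hpf
      rintro rfl
      have := hp.factorization_pos_of_dvd hf0 hpf
      omega
  · right
    have h9 : 9 ∣ f := by
      have : 3 ^ f.factorization 3 ∣ f := Nat.ordProj_dvd f 3
      have h3 : f.factorization 3 = 2 := by omega
      rw [h3] at this
      exact this
    obtain ⟨f', rfl⟩ := h9
    have hf' : f' ≠ 0 := by rintro rfl; simp at hf0
    have hfac : ∀ p, (9 * f').factorization p = (9 : ℕ).factorization p + f'.factorization p := by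
      intro p
      rw [Nat.factorization_mul (by norm_num) hf']
      rfl
    have h93 : (9 : ℕ).factorization 3 = 2 := by
      have : (9 : ℕ) = 3 ^ 2 := by norm_num
      rw [this, Nat.Prime.factorization_pow Nat.prime_three]
      simp
    have h30 : f'.factorization 3 = 0 := by
      have := hfac 3
      omega
    refine ⟨f', ⟨(Nat.squarefree_iff_factorization_le_one hf').2 fun p => ?_,
      fun p hp hpf => ?_⟩, rfl⟩
    · by_cases hp : p.Prime
      · by_cases hp3 : p = 3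
        · rw [hp3, h30]; norm_num
        · have h4 := v1 p hp hp3
          have h5 := hfac p
          omega
      · rw [Nat.factorization_eq_zero_of_not_prime f' hp]; norm_num
    · apply hp1 p hp (hpf.mul_left 9)
      rintro rfl
      have := hp.factorization_pos_of_dvd hf' hpf
      omega

/-! ## Lower bound -/

/-- number of primitive characters of order dividing three -/
noncomputable def PC (f : ℕ) : ℕ :=
  Nat.card {ψ : DirichletCharacter ℂ f // ψ.IsPrimitive ∧ ψ ^ 3 = 1}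

open DirichletCharacter in
lemma ft_mul {n d : ℕ} {χ χ' : DirichletCharacter ℂ n} (h : χ.FactorsThrough d)
    (h' : χ'.FactorsThrough d) : (χ * χ').FactorsThrough d := by
  obtain ⟨hd, ψ, rfl⟩ := h
  obtain ⟨_, ψ', rfl⟩ := h'
  exact ⟨hd, ψ * ψ', by rw [map_mul]⟩

open DirichletCharacter in
lemma ft_inv {n d : ℕ} {χ : DirichletCharacter ℂ n} (h : χ.FactorsThrough d) :
    (χ⁻¹).FactorsThrough d := by
  obtain ⟨hd, ψ, rfl⟩ := h
  exact ⟨hd, ψ⁻¹, by rw [map_inv]⟩

open DirichletCharacter in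
lemma dvd_of {n a b : ℕ} [NeZero n] (hab : a.Coprime b) (hb : b ∣ n)
    (χ₁ χ₂ : DirichletCharacter ℂ n) (h1 : χ₁.conductor = a) (h2 : χ₂.FactorsThrough b) :
    a ∣ (χ₁ * χ₂).conductor := by
  set c := (χ₁ * χ₂).conductor with hc
  have hcn : c ∣ n := conductor_dvd_level _
  have hl : c.lcm b ∣ n := Nat.lcm_dvd hcn hb
  have e1 : (χ₁ * χ₂).FactorsThrough (c.lcm b) :=
    (factorsThrough_conductor _).mono _ (Nat.dvd_lcm_left _ _) hl
  have e2 : χ₂.FactorsThrough (c.lcm b) := h2.mono _ (Nat.dvd_lcm_right _ _) hl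
  have e3 : χ₁.FactorsThrough (c.lcm b) := by
    have := ft_mul e1 (ft_inv e2)
    rwa [mul_assoc, mul_inv_cancel, mul_one] at this
  have e4 : χ₁.conductor ∣ c.lcm b :=
    conductor_dvd_of_mem_conductorSet χ₁ ((mem_conductorSet_iff χ₁).2 e3)
  rw [h1] at e4
  exact hab.dvd_of_dvd_mul_right (e4.trans (Nat.lcm_dvd_mul c b))

open DirichletCharacter in
lemma PC_mul {a b : ℕ} (ha : a ≠ 0) (hb : b ≠ 0) (hab : a.Coprime b) :
    PC a * PC b ≤ PC (a * b) := by
  have : NeZero a := ⟨ha⟩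
  have : NeZero b := ⟨hb⟩
  have : NeZero (a * b) := ⟨mul_ne_zero ha hb⟩
  unfold PC
  rw [← Nat.card_prod]
  refine Nat.card_le_card_of_injective
    (fun z => ⟨changeLevel (Nat.dvd_mul_right a b) z.1.1 * changeLevel (Nat.dvd_mul_left b a) z.2.1,
      ?_, ?_⟩) ?_
  · have h1 : (changeLevel (Nat.dvd_mul_right a b) z.1.1).conductor = a := by
      rw [conductor_changeLevel]
      exact z.1.2.1
    have h2 : (changeLevel (Nat.dvd_mul_left b a) z.2.1).conductor = b := by
      rw [conductor_changeLevel]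
      exact z.2.2.1
    have e1 := dvd_of hab (Nat.dvd_mul_left b a) _ (changeLevel (Nat.dvd_mul_left b a) z.2.1) h1
      (changeLevel_factorsThrough _ _)
    have e2 := dvd_of hab.symm (Nat.dvd_mul_right a b) _
      (changeLevel (Nat.dvd_mul_right a b) z.1.1) h2 (changeLevel_factorsThrough _ _)
    rw [mul_comm (changeLevel (Nat.dvd_mul_left b a) z.2.1)] at e2
    rw [isPrimitive_def]
    exact Nat.dvd_antisymm (conductor_dvd_level _) (hab.mul_dvd_of_dvd_of_dvd e1 e2)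
  · rw [mul_pow, ← map_pow, ← map_pow, z.1.2.2, z.2.2.2, map_one, map_one, mul_one]
  · rintro ⟨⟨ψ, hψ⟩, ⟨φ, hφ⟩⟩ ⟨⟨ψ', hψ'⟩, ⟨φ', hφ'⟩⟩ h
    simp only [Subtype.mk.injEq] at h
    have e1 : changeLevel (Nat.dvd_mul_right a b) (ψ * ψ'⁻¹) =
        changeLevel (Nat.dvd_mul_left b a) (φ' * φ⁻¹) := by
      rw [map_mul, map_mul, map_inv, map_inv]
      rw [mul_inv_eq_iff_eq_mul, mul_assoc, mul_comm (changeLevel _ φ)⁻¹, ← mul_assoc,
        eq_mul_inv_iff_mul_eq, h]
      exact mul_comm (changeLevel (Nat.dvd_mul_right a b) ψ') (changeLevel (Nat.dvd_mul_left b a) φ')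
    have e2 := factorsThrough_gcd _ _ e1
    rw [hab] at e2
    have e3 : ψ = ψ' := mul_inv_eq_one.1 ((factorsThrough_one_iff _).1 e2)
    subst e3
    have e4 : φ = φ' := changeLevel_injective _ (mul_left_cancel h)
    subst e4
    rfl

open DirichletCharacter in
lemma PC_prime {p : ℕ} (hp : p.Prime) (h : p % 3 = 1) : 2 ≤ PC p := by
  have : Fact p.Prime := ⟨hp⟩
  have h3 : 3 ∣ Fintype.card (ZMod p) - 1 := by
    rw [ZMod.card]
    omega
  obtain ⟨χ, hχ⟩ := MulChar.exists_mulChar_orderOf (ZMod p) h3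
    (Complex.isPrimitiveRoot_exp 3 (by norm_num))
  have hprim : ∀ ψ : DirichletCharacter ℂ p, ψ ≠ 1 → ψ.IsPrimitive := by
    intro ψ hψ
    rw [isPrimitive_def]
    rcases (Nat.dvd_prime hp).1 (conductor_dvd_level ψ) with h1 | h1
    · exact absurd (eq_one_iff_conductor_eq_one.2 h1) hψ
    · exact h1
  have hχ3 : χ ^ 3 = 1 := by rw [← hχ]; exact pow_orderOf_eq_one χ
  have hχ1 : χ ≠ 1 := by
    rintro rfl
    rw [orderOf_one] at hχ
    norm_num at hχ
  have hχ2 : χ ^ 2 ≠ 1 := by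
    intro h2
    apply hχ1
    calc χ = χ ^ 3 * (χ ^ 2)⁻¹ := by group
      _ = 1 := by rw [hχ3, h2]; simp
  have hne : χ ^ 2 ≠ χ := by
    intro h2
    apply hχ1
    calc χ = χ ^ 2 * χ⁻¹ := by group
      _ = 1 := by rw [h2]; simp
  have hc : Nat.card (Fin 2) ≤ PC p := by
    unfold PC
    refine Nat.card_le_card_of_injective
      (![⟨χ, hprim χ hχ1, hχ3⟩, ⟨χ ^ 2, hprim _ hχ2, by rw [← pow_mul, mul_comm, pow_mul, hχ3, one_pow]⟩]) ?_
    intro i j hij
    fin_cases i <;> fin_cases j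
    · rfl
    · simp at hij
      exact absurd hij.symm hne
    · simp at hij
      exact absurd hij hne
    · rfl
  simpa using hc

lemma PC_ge (f : ℕ) (hf : Fam f) : 2 ^ f.primeFactors.card ≤ PC f := by
  induction f using Nat.recOnPosPrimePosCoprime with
  | prime_pow p n hp hn =>
    have hn1 : n = 1 := by
      by_contra hne
      have h2 : p * p ∣ p ^ n := by
        rw [← pow_two]
        exact pow_dvd_pow p (by omega)
      exact hp.one_lt.ne' (Nat.isUnit_iff.1 (hf.1 p h2))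
    subst hn1
    rw [pow_one] at hf ⊢
    rw [hp.primeFactors, card_singleton, pow_one]
    exact PC_prime hp (hf.2 p hp dvd_rfl)
  | zero => exact absurd hf.1 not_squarefree_zero
  | one =>
    have : Nonempty {ψ : DirichletCharacter ℂ 1 // ψ.IsPrimitive ∧ ψ ^ 3 = 1} :=
      ⟨⟨1, DirichletCharacter.isPrimitive_one_level_one, one_pow 3⟩⟩
    have h1 : 0 < Nat.card {ψ : DirichletCharacter ℂ 1 // ψ.IsPrimitive ∧ ψ ^ 3 = 1} :=
      Nat.card_pos
    rw [Nat.primeFactors_one, card_empty, pow_zero]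
    exact h1
  | coprime a b ha hb hab iha ihb =>
    have ha0 : a ≠ 0 := by omega
    have hb0 : b ≠ 0 := by omega
    have hFa : Fam a := ⟨hf.1.of_mul_left, fun p hp h => hf.2 p hp (h.mul_right b)⟩
    have hFb : Fam b := ⟨hf.1.of_mul_right, fun p hp h => hf.2 p hp (h.mul_left a)⟩
    rw [hab.primeFactors_mul, card_union_of_disjoint hab.disjoint_primeFactors, pow_add]
    exact (Nat.mul_le_mul (iha hFa) (ihb hFb)).trans (PC_mul ha0 hb0 hab)

theorem NPC_ge (f : ℕ) (hf : 2 ≤ f) (hF : Fam f) : 2 ^ f.primeFactors.card ≤ NPC f := by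
  have : NeZero f := ⟨by omega⟩
  refine (PC_ge f hF).trans ?_
  unfold NPC PC
  refine Nat.card_le_card_of_injective (fun ψ => ⟨ψ.1, ψ.2.1, ψ.2.2, ?_⟩) ?_
  · intro h1
    have h2 := ψ.2.1
    rw [DirichletCharacter.isPrimitive_def, h1, DirichletCharacter.conductor_one] at h2
    omega
  · intro ψ ψ' h
    simp only [Subtype.mk.injEq] at h
    exact Subtype.ext h

theorem stmt_CC : Stmt_CC := ⟨NPC_le, NPC_supp, NPC_ge⟩

end Pool.Agent.Work.SF.CC_

namespace Pool.Agent.Work.SF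

theorem stmt_CC : Stmt_CC := CC_.stmt_CC

end Pool.Agent.Work.SF
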