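import Pool.Agent.Work.SF081200.FinA
import Pool.Agent.Work.SF081200.CNT1
import Pool.Agent.Work.SF081200.CNT2
import Pool.Agent.Work.SF081200.CC

/-!
# MP_081200_nt: the bound for almost all cubic characters
-/

set_option autoImplicit false

namespace Pool.Agent.Work.SF

open Finset Pool.Agent.Work.LV Pool.Agent.Work.SC

/-- The primitive non-principal cubic characters of conductor at most `Q`. -/
def CubicChars (Q : ℝ) : Set ((f : ℕ) × DirichletCharacter ℂ f) :=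
  {x | 1 ≤ x.1 ∧ (x.1 : ℝ) ≤ Q ∧ x.2.IsPrimitive ∧ x.2 ^ 3 = 1 ∧ x.2 ≠ 1}

/-- Those of them which induce, modulo some `q ≤ Q`, a character violating the bound
`|S(M, N)| ≤ c Q ^ ((1 - δ) / n)` for some `M` and some `1 ≤ N ≤ Q ^ (1 / n)`. -/
def Exceptional (n : ℕ) (δ c Q : ℝ) : Set ((f : ℕ) × DirichletCharacter ℂ f) :=
  {x | x ∈ CubicChars Q ∧ ∃ (q : ℕ) (h : x.1 ∣ q), 1 ≤ q ∧ (q : ℝ) ≤ Q ∧
    ∃ (M : ℤ) (N : ℕ), 1 ≤ N ∧ (N : ℝ) ≤ Q ^ (1 / (n : ℝ)) ∧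
      c * Q ^ ((1 - δ) / n) <
        ‖∑ a ∈ Finset.Ioc M (M + N), DirichletCharacter.changeLevel h x.2 (a : ZMod q)‖}

/-- Counting pairs. -/
theorem ncard_fib (s : Finset ℕ) (hs : ∀ f ∈ s, f ≠ 0) :
    {x : (f : ℕ) × DirichletCharacter ℂ f | x.1 ∈ s ∧ x.2.IsPrimitive ∧ x.2 ^ 3 = 1 ∧
        x.2 ≠ 1}.Finite ∧
    {x : (f : ℕ) × DirichletCharacter ℂ f | x.1 ∈ s ∧ x.2.IsPrimitive ∧ x.2 ^ 3 = 1 ∧
        x.2 ≠ 1}.ncard = ∑ f ∈ s, NPC f := by
  classical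
  let e : {x : (f : ℕ) × DirichletCharacter ℂ f // x.1 ∈ s ∧ x.2.IsPrimitive ∧ x.2 ^ 3 = 1 ∧
        x.2 ≠ 1} ≃ (Σ f : s, {ψ : DirichletCharacter ℂ f.1 // ψ.IsPrimitive ∧ ψ ^ 3 = 1 ∧ ψ ≠ 1}) :=
    { toFun := fun x => ⟨⟨x.1.1, x.2.1⟩, ⟨x.1.2, x.2.2⟩⟩
      invFun := fun y => ⟨⟨y.1.1, y.2.1⟩, ⟨y.1.2, y.2.2⟩⟩
      left_inv := fun x => rfl
      right_inv := fun y => rfl }
  have hfin : ∀ f : s, Finite {ψ : DirichletCharacter ℂ f.1 // ψ.IsPrimitive ∧ ψ ^ 3 = 1 ∧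
      ψ ≠ 1} := by
    intro f
    have : NeZero f.1 := ⟨hs f.1 f.2⟩
    infer_instance
  constructor
  · exact Set.finite_coe_iff.1 (Finite.of_equiv _ e.symm)
  · have h1 : {x : (f : ℕ) × DirichletCharacter ℂ f | x.1 ∈ s ∧ x.2.IsPrimitive ∧ x.2 ^ 3 = 1 ∧
        x.2 ≠ 1}.ncard = Nat.card (Σ f : s, {ψ : DirichletCharacter ℂ f.1 // ψ.IsPrimitive ∧
          ψ ^ 3 = 1 ∧ ψ ≠ 1}) := by
      rw [← Nat.card_congr e]
      rfl
    rw [h1, Nat.card_sigma]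
    exact Finset.sum_coe_sort s NPC

theorem cubicChars_eq (Q : ℝ) (hQ : 0 ≤ Q) : CubicChars Q =
    {x : (f : ℕ) × DirichletCharacter ℂ f | x.1 ∈ Icc 1 ⌊Q⌋₊ ∧ x.2.IsPrimitive ∧ x.2 ^ 3 = 1 ∧
        x.2 ≠ 1} := by
  ext x
  simp only [CubicChars, Set.mem_ofPred_eq, mem_Icc, Nat.le_floor_iff hQ, and_assoc]

theorem cubicChars_finite (Q : ℝ) (hQ : 0 ≤ Q) : (CubicChars Q).Finite := by
  rw [cubicChars_eq Q hQ]
  exact (ncard_fib _ (fun f hf => by rw [mem_Icc] at hf; omega)).1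

theorem cubicChars_ncard (Q : ℝ) (hQ : 0 ≤ Q) :
    (CubicChars Q).ncard = ∑ f ∈ Icc 1 ⌊Q⌋₊, NPC f := by
  rw [cubicChars_eq Q hQ]
  exact (ncard_fib _ (fun f hf => by rw [mem_Icc] at hf; omega)).2

/-- An exceptional character has a conductor for which the bound fails. -/
theorem exceptional_ncard (n : ℕ) (δ c Q : ℝ) (hQ : 0 ≤ Q) (G : ℕ → Prop)
    (hG : ∀ (q : ℕ) [NeZero q], (q : ℝ) ≤ Q → ∀ χ : DirichletCharacter ℂ q, χ ^ 3 = 1 → χ ≠ 1 →
      G χ.conductor → ∀ (M : ℤ) (N : ℕ), (N : ℝ) ≤ Q ^ (1 / (n : ℝ)) →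
        ‖shortSum χ M N‖ ≤ c * Q ^ ((1 - δ) / n)) :
    open Classical in (Exceptional n δ c Q).ncard ≤
      ∑ f ∈ (Icc 1 ⌊Q⌋₊).filter (fun f => ¬ G f), NPC f := by
  classical
  have h0 := ncard_fib ((Icc 1 ⌊Q⌋₊).filter (fun f => ¬ G f))
    (fun f hf => by rw [mem_filter, mem_Icc] at hf; omega)
  rw [← h0.2]
  refine Set.ncard_le_ncard ?_ h0.1
  rintro ⟨f, ψ⟩ ⟨⟨h1, h2, h3, h4, h5⟩, q, hfq, hq1, hqQ, M, N, hN1, hN, hS⟩
  simp only at h1 h2 h3 h4 h5 hfq hS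
  refine ⟨?_, h3, h4, h5⟩
  rw [mem_filter, mem_Icc, Nat.le_floor_iff hQ]
  refine ⟨⟨h1, h2⟩, ?_⟩
  intro hg
  have : NeZero q := ⟨by omega⟩
  have hc : (DirichletCharacter.changeLevel hfq ψ).conductor = f := by
    rw [DirichletCharacter.conductor_changeLevel]
    exact h3
  have h6 := hG q hqQ (DirichletCharacter.changeLevel hfq ψ) (by rw [← map_pow, h4, map_one])
    (by
      intro h
      exact h5 ((DirichletCharacter.changeLevel_eq_one_iff hfq).1 h)) (by rw [hc]; exact hg) M N hN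
  unfold shortSum at h6
  linarith

/-- For small `Q` there are no exceptions. -/
theorem exceptional_small (n : ℕ) (hn : 1 ≤ n) (δ c Q Q₁ : ℝ) (hδ1 : δ ≤ 1) (hQ1 : 1 ≤ Q)
    (hQ : Q ≤ Q₁) (hc : Q₁ ≤ c) : Exceptional n δ c Q = ∅ := by
  have hn1 : (1 : ℝ) ≤ n := by exact_mod_cast hn
  have hn0 : (0 : ℝ) < n := by linarith
  rw [Set.eq_empty_iff_forall_notMem]
  rintro ⟨f, ψ⟩ ⟨_, q, hfq, hq1, hqQ, M, N, hN1, hN, hS⟩
  simp only at hfq hS
  have h1 := norm_shortSum_le (DirichletCharacter.changeLevel hfq ψ) M N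
  have h2 : (N : ℝ) ≤ Q := by
    refine hN.trans ?_
    calc Q ^ (1 / (n : ℝ)) ≤ Q ^ (1 : ℝ) := by
          apply Real.rpow_le_rpow_of_exponent_le hQ1
          rw [div_le_one hn0]
          exact hn1
      _ = Q := Real.rpow_one Q
  have hW1 : 1 ≤ Q ^ ((1 - δ) / n) :=
    Real.one_le_rpow hQ1 (div_nonneg (by linarith) hn0.le)
  have h3 : c ≤ c * Q ^ ((1 - δ) / n) := by nlinarith
  unfold shortSum at h1
  linarith

/-- The conductors to which Theorem A applies with `n = 4`. -/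
def Good (Q κ : ℝ) (F : ℕ) : Prop :=
  (Fam F ∧ Tri Q κ F) ∨ ∃ f : ℕ, F = 9 * f ∧ Fam f ∧ Tri Q κ f

theorem good_split {Q κ : ℝ} {F : ℕ} (hF0 : F ≠ 0) (hG : Good Q κ F) : ∃ a b c g : ℕ, a.Prime ∧ b.Prime ∧
    c.Prime ∧ a < b ∧ b < c ∧ F = g * (a * b * c) ∧ g.Coprime (a * b * c) ∧
    (c : ℝ) ≤ Q ^ (3 / 16 : ℝ) ∧ (c : ℝ) * Q ^ κ ≤ (a : ℝ) * b := by
  have key : ∀ f : ℕ, f ≠ 0 → Fam f → Tri Q κ f → ∃ a b c g : ℕ, a.Prime ∧ b.Prime ∧
      c.Prime ∧ a < b ∧ b < c ∧ f = g * (a * b * c) ∧ g.Coprime (a * b * c) ∧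
      (9 : ℕ).Coprime (a * b * c) ∧
      (c : ℝ) ≤ Q ^ (3 / 16 : ℝ) ∧ (c : ℝ) * Q ^ κ ≤ (a : ℝ) * b := by
    rintro f hf0 ⟨hsq, hmod⟩ ⟨a, b, c, ha, hb, hc, hab, hbc, ha', hb', hc', h1, h2⟩
    have hcab : a.Coprime b := (Nat.coprime_primes ha hb).2 hab.ne
    have hcac : a.Coprime c := (Nat.coprime_primes ha hc).2 (by omega)
    have hcbc : b.Coprime c := (Nat.coprime_primes hb hc).2 hbc.ne
    have hcabc : (a * b).Coprime c := Nat.Coprime.mul_left hcac hcbc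
    have hd : a * b * c ∣ f := hcabc.mul_dvd_of_dvd_of_dvd (hcab.mul_dvd_of_dvd_of_dvd ha' hb') hc'
    obtain ⟨g, hg⟩ := hd
    have h9 : ∀ p : ℕ, p.Prime → p ∣ f → (9 : ℕ).Coprime p := by
      intro p hp hpf
      have h3 : p % 3 = 1 := hmod p hp hpf
      have h4 : (3 : ℕ).Coprime p := by
        rw [Nat.coprime_primes Nat.prime_three hp]
        rintro rfl
        omega
      have : (3 ^ 2 : ℕ).Coprime p := h4.pow_left 2
      simpa using this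
    refine ⟨a, b, c, g, ha, hb, hc, hab, hbc, by rw [hg]; ring, ?_, ?_, h1, h2⟩
    · rw [hg] at hsq
      exact (Nat.coprime_of_squarefree_mul hsq).symm
    · exact ((h9 a ha ha').mul_right (h9 b hb hb')).mul_right (h9 c hc hc')
  rcases hG with ⟨h1, h2⟩ | ⟨f, rfl, h1, h2⟩
  · obtain ⟨a, b, c, g, ha, hb, hc, hab, hbc, h3, h4, -, h5, h6⟩ := key F hF0 h1 h2
    exact ⟨a, b, c, g, ha, hb, hc, hab, hbc, h3, h4, h5, h6⟩
  · obtain ⟨a, b, c, g, ha, hb, hc, hab, hbc, h3, h4, h5, h6, h7⟩ := key f (by omega) h1 h2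
    refine ⟨a, b, c, 9 * g, ha, hb, hc, hab, hbc, by rw [h3]; ring, ?_, h6, h7⟩
    exact Nat.Coprime.mul_left h5 h4

theorem good_bound (κ : ℝ) (hκ : 0 < κ) : ∃ δ : ℝ, 0 < δ ∧ δ ≤ 1 ∧ ∃ c : ℝ, 0 ≤ c ∧
    ∀ Q : ℝ, 1 ≤ Q → ∀ (q : ℕ) [NeZero q], (q : ℝ) ≤ Q → ∀ χ : DirichletCharacter ℂ q,
      χ ^ 3 = 1 → χ ≠ 1 → Good Q κ χ.conductor → ∀ (M : ℤ) (N : ℕ),
        (N : ℝ) ≤ Q ^ (1 / ((4 : ℕ) : ℝ)) → ‖shortSum χ M N‖ ≤ c * Q ^ ((1 - δ) / (4 : ℕ)) := by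
  obtain ⟨δ, hδ, hδ1, c, hc, hA⟩ := thmA 4 (by norm_num) (min κ (1 / 16)) (by positivity)
  refine ⟨δ, hδ, hδ1, c, hc, ?_⟩
  intro Q hQ q _ hqQ χ h3 hne hG M N hN
  have hQ0 : 0 < Q := by linarith
  have hF0 : χ.conductor ≠ 0 := χ.conductor_ne_zero
  obtain ⟨a, b, c', g, ha, hb, hc', hab, hbc, hF, hcop, h1, h2⟩ := good_split hF0 hG
  have hg0 : 0 < g := by
    rcases Nat.eq_zero_or_pos g with h | h
    · rw [hF, h, zero_mul] at hF0; exact absurd rfl hF0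
    · exact h
  have hdiv : χ.conductor / g = a * b * c' := by
    rw [hF]
    exact Nat.mul_div_cancel_left _ hg0
  have hmono : ∀ a b : ℝ, a ≤ b → Q ^ a ≤ Q ^ b := fun a b h =>
    Real.rpow_le_rpow_of_exponent_le hQ h
  have hm1 : min κ (1 / 16) ≤ κ := min_le_left _ _
  have hm2 : min κ (1 / 16) ≤ 1 / 16 := min_le_right _ _
  have ha0 : (0 : ℝ) < a := by exact_mod_cast ha.pos
  have hb0 : (0 : ℝ) < b := by exact_mod_cast hb.pos
  have hc0 : (1 : ℝ) ≤ c' := by exact_mod_cast hc'.one_lt.le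
  refine hA Q hQ q hqQ χ h3 hne g ⟨_, hF⟩ (by rw [hdiv]; exact hcop) c' hc0 ?_ ?_ ?_ M N hN
  · refine h1.trans (hmono _ _ ?_)
    push_cast
    linarith
  · intro p hp hpd
    rw [hdiv] at hpd
    have : p = a ∨ p = b ∨ p = c' := by
      rcases (Nat.Prime.dvd_mul hp).1 hpd with h | h
      · rcases (Nat.Prime.dvd_mul hp).1 h with h | h
        · exact Or.inl ((Nat.prime_dvd_prime_iff_eq hp ha).1 h)
        · exact Or.inr (Or.inl ((Nat.prime_dvd_prime_iff_eq hp hb).1 h))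
      · exact Or.inr (Or.inr ((Nat.prime_dvd_prime_iff_eq hp hc').1 h))
    have h4 : p ≤ c' := by rcases this with h | h | h <;> omega
    exact_mod_cast h4
  · have h5 : (χ.conductor : ℝ) ≤ Q := by
      refine le_trans ?_ hqQ
      exact_mod_cast Nat.le_of_dvd (Nat.pos_of_ne_zero (NeZero.ne q)) χ.conductor_dvd_level
    have h6 : (χ.conductor : ℝ) = g * (a * b * c') := by
      rw [hF]; push_cast; ring
    have hQκ : 0 < Q ^ κ := by positivity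
    have h7 : (c' : ℝ) ^ 2 * g * Q ^ κ ≤ Q := by
      calc (c' : ℝ) ^ 2 * g * Q ^ κ = (c' * g) * (c' * Q ^ κ) := by ring
        _ ≤ (c' * g) * (a * b) := by gcongr
        _ = g * (a * b * c') := by ring
        _ = χ.conductor := h6.symm
        _ ≤ Q := h5
    calc (c' : ℝ) ^ 2 * g = (c' : ℝ) ^ 2 * g * Q ^ κ * Q ^ (-κ) := by
          rw [mul_assoc _ (Q ^ κ), ← Real.rpow_add hQ0]
          simp
      _ ≤ Q * Q ^ (-κ) := by gcongr
      _ = Q ^ (1 - κ) := by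
          nth_rewrite 1 [← Real.rpow_one Q]
          rw [← Real.rpow_add hQ0]
          congr 1
      _ ≤ Q ^ (4 / ((4 : ℕ) : ℝ) - min κ (1 / 16)) := by
          apply hmono
          push_cast
          linarith

/-- The conductors to which Theorem A does not apply are rare. -/
theorem bad_count (κ η Q : ℝ) (hQ : 0 ≤ Q)
    (h : open Classical in ∑ f ∈ (Icc 1 ⌊Q⌋₊).filter (fun f => Fam f ∧ ¬ Tri Q κ f),
      (2 : ℝ) ^ f.primeFactors.card ≤ η * Q) :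
    open Classical in ((∑ f ∈ (Icc 1 ⌊Q⌋₊).filter (fun f => ¬ Good Q κ f), NPC f : ℕ) : ℝ) ≤
      3 * η * Q := by
  classical
  obtain ⟨hC1, hC2, -⟩ := stmt_CC
  set T : Finset ℕ := ((Icc 1 ⌊Q⌋₊).filter (fun f => Fam f ∧ ¬ Tri Q κ f)).image
    (fun f' => 9 * f') with hT
  have hpt : ∀ f ∈ (Icc 1 ⌊Q⌋₊).filter (fun f => ¬ Good Q κ f), (NPC f : ℝ) ≤
      (if Fam f ∧ ¬ Tri Q κ f then (2 : ℝ) ^ f.primeFactors.card else 0) +
      (if f ∈ T then (2 : ℝ) ^ f.primeFactors.card else 0) := by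
    intro f hf
    rw [mem_filter, mem_Icc] at hf
    obtain ⟨⟨hf1, hfQ⟩, hnG⟩ := hf
    by_cases h0 : NPC f = 0
    · rw [h0]
      push_cast
      positivity
    have h1 : (NPC f : ℝ) ≤ (2 : ℝ) ^ f.primeFactors.card := by exact_mod_cast hC1 f hf1
    obtain ⟨-, h2 | ⟨f', h3, h4⟩⟩ := hC2 f hf1 h0
    · have h5 : Fam f ∧ ¬ Tri Q κ f := ⟨h2, fun h => hnG (Or.inl ⟨h2, h⟩)⟩
      rw [if_pos h5]
      have : (0 : ℝ) ≤ (if f ∈ T then (2 : ℝ) ^ f.primeFactors.card else 0) := by positivity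
      linarith
    · have h5 : f ∈ T := by
        rw [hT, mem_image]
        refine ⟨f', ?_, h4.symm⟩
        rw [mem_filter, mem_Icc]
        refine ⟨⟨by omega, by omega⟩, h3, fun h => hnG (Or.inr ⟨f', h4, h3, h⟩)⟩
      rw [if_pos h5]
      have : (0 : ℝ) ≤ (if Fam f ∧ ¬ Tri Q κ f then (2 : ℝ) ^ f.primeFactors.card else 0) := by
        positivity
      linarith
  push_cast
  refine (sum_le_sum hpt).trans ?_
  rw [sum_add_distrib]
  have hA : ∑ f ∈ (Icc 1 ⌊Q⌋₊).filter (fun f => ¬ Good Q κ f),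
      (if Fam f ∧ ¬ Tri Q κ f then (2 : ℝ) ^ f.primeFactors.card else 0) ≤ η * Q := by
    refine le_trans ?_ h
    rw [← sum_filter]
    apply sum_le_sum_of_subset_of_nonneg
    · intro f hf
      rw [mem_filter, mem_filter] at hf
      rw [mem_filter]
      exact ⟨hf.1.1, hf.2⟩
    · intro f _ _
      positivity
  have hB : ∑ f ∈ (Icc 1 ⌊Q⌋₊).filter (fun f => ¬ Good Q κ f),
      (if f ∈ T then (2 : ℝ) ^ f.primeFactors.card else 0) ≤ 2 * (η * Q) := by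
    rw [← sum_filter]
    calc _ ≤ ∑ f ∈ T, (2 : ℝ) ^ f.primeFactors.card := by
          apply sum_le_sum_of_subset_of_nonneg
          · intro f hf
            rw [mem_filter] at hf
            exact hf.2
          · intro f _ _
            positivity
      _ = ∑ f' ∈ (Icc 1 ⌊Q⌋₊).filter (fun f => Fam f ∧ ¬ Tri Q κ f),
          (2 : ℝ) ^ (9 * f').primeFactors.card := by
          rw [hT, sum_image]
          intro x _ y _ hxy
          simp only at hxy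
          omega
      _ ≤ ∑ f' ∈ (Icc 1 ⌊Q⌋₊).filter (fun f => Fam f ∧ ¬ Tri Q κ f),
          2 * (2 : ℝ) ^ f'.primeFactors.card := by
          apply sum_le_sum
          intro f' hf'
          rw [mem_filter, mem_Icc] at hf'
          have h1 : (9 * f').primeFactors.card ≤ f'.primeFactors.card + 1 := by
            have h2 : (9 * f').primeFactors = {3} ∪ f'.primeFactors := by
              rw [Nat.primeFactors_mul (by norm_num) (by omega)]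
              congr 1
              have : (9 : ℕ) = 3 ^ 2 := by norm_num
              rw [this, Nat.primeFactors_prime_pow (by norm_num) Nat.prime_three]
            rw [h2]
            refine (card_union_le _ _).trans ?_
            simp [add_comm]
          calc (2 : ℝ) ^ (9 * f').primeFactors.card ≤ (2 : ℝ) ^ (f'.primeFactors.card + 1) :=
                pow_le_pow_right₀ (by norm_num) h1
            _ = 2 * (2 : ℝ) ^ f'.primeFactors.card := by rw [pow_succ]; ring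
      _ ≤ 2 * (η * Q) := by
          rw [← mul_sum]
          gcongr
  linarith

/-- Theorem C. -/
theorem thmC (η : ℝ) (hη : 0 < η) : ∃ δ : ℝ, 0 < δ ∧ ∃ c : ℝ, ∀ Q : ℝ, 1 ≤ Q →
    ((Exceptional 4 δ c Q).ncard : ℝ) ≤ η * ((CubicChars Q).ncard : ℝ) := by
  classical
  obtain ⟨c₀, hc₀, h2⟩ := stmt_CNT2
  obtain ⟨κ, hκ, Q₀, h1⟩ := CN1.stmt_CNT1 (η * c₀ / 3) (by positivity)
  obtain ⟨δ, hδ, hδ1, c, hc, hA⟩ := good_bound κ hκ
  refine ⟨δ, hδ, c + max Q₀ 7, ?_⟩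
  intro Q hQ
  have hQ0 : 0 ≤ Q := by linarith
  have hm7 : (7 : ℝ) ≤ max Q₀ 7 := le_max_right _ _
  rcases le_or_gt Q (max Q₀ 7) with hsm | hbig
  · rw [exceptional_small 4 (by norm_num) δ (c + max Q₀ 7) Q (max Q₀ 7) hδ1 hQ hsm (by linarith)]
    rw [Set.ncard_empty]
    push_cast
    positivity
  have hQ₀ : Q₀ ≤ Q := (le_max_left _ _).trans hbig.le
  have h7 : 7 ≤ Q := hm7.trans hbig.le
  have e1 := exceptional_ncard 4 δ (c + max Q₀ 7) Q hQ0 (Good Q κ) (by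
    intro q _ hqQ χ h3 hne hG M N hN
    refine (hA Q hQ q hqQ χ h3 hne hG M N hN).trans ?_
    have : 0 ≤ Q ^ ((1 - δ) / ((4 : ℕ) : ℝ)) := by positivity
    nlinarith)
  have e2 := bad_count κ (η * c₀ / 3) Q hQ0 (h1 Q hQ₀)
  have e3 : ((Exceptional 4 δ (c + max Q₀ 7) Q).ncard : ℝ) ≤ 3 * (η * c₀ / 3) * Q :=
    le_trans (by exact_mod_cast e1) e2
  have e4 : c₀ * Q ≤ ((CubicChars Q).ncard : ℝ) := by
    rw [cubicChars_ncard Q hQ0]
    refine (h2 Q h7).trans ?_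
    push_cast
    refine (sum_le_sum (f := fun f => (2 : ℝ) ^ f.primeFactors.card) (g := fun f => (NPC f : ℝ))
      ?_).trans ?_
    · intro f hf
      rw [mem_filter, mem_Icc] at hf
      exact_mod_cast stmt_CC.2.2 f hf.1.1 hf.2
    · apply sum_le_sum_of_subset_of_nonneg
      · intro f hf
        rw [mem_filter, mem_Icc] at hf
        rw [mem_Icc]
        omega
      · intro f _ _
        positivity
  calc ((Exceptional 4 δ (c + max Q₀ 7) Q).ncard : ℝ) ≤ 3 * (η * c₀ / 3) * Q := e3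
    _ = η * (c₀ * Q) := by ring
    _ ≤ η * ((CubicChars Q).ncard : ℝ) := by gcongr

end Pool.Agent.Work.SF
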