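import Pool.Agent.Work.SF081200.All3

/-!
# MP_081200_nt: conductors with a factorisation, all positions
-/

set_option autoImplicit false

namespace Pool.Agent.Work.SF

open Finset Pool.Agent.Work.LV Pool.Agent.Work.SC

/-- Theorem A. -/
theorem thmA (n : ℕ) (hn : 1 ≤ n) (ε : ℝ) (hε : 0 < ε) :
    ∃ δ : ℝ, 0 < δ ∧ δ ≤ 1 ∧ ∃ c : ℝ, 0 ≤ c ∧ ∀ Q : ℝ, 1 ≤ Q → ∀ (q : ℕ) [NeZero q], (q : ℝ) ≤ Q →
      ∀ χ : DirichletCharacter ℂ q, χ ^ 3 = 1 → χ ≠ 1 →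
      ∀ g : ℕ, g ∣ χ.conductor → g.Coprime (χ.conductor / g) →
      ∀ R : ℝ, 1 ≤ R → R ≤ Q ^ (1 / (n : ℝ) - ε) →
      (∀ p : ℕ, p.Prime → p ∣ χ.conductor / g → (p : ℝ) ≤ R) →
      R ^ 2 * g ≤ Q ^ (4 / (n : ℝ) - ε) → ∀ (M : ℤ) (N : ℕ), (N : ℝ) ≤ Q ^ (1 / (n : ℝ)) →
          ‖shortSum χ M N‖ ≤ c * Q ^ ((1 - δ) / n) := by
  classical
  have hn1 : (1 : ℝ) ≤ n := by exact_mod_cast hn
  have hn0 : (0 : ℝ) < n := by linarith
  obtain ⟨δ, hδ, hδ1, c₀, hc₀, hC⟩ := thmC3 n hn (ε / 4) (by positivity)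
  obtain ⟨Q₀, hQ₀1, hQ₀⟩ := ev (c₀ + 1) (ε / 4) (by positivity)
  refine ⟨δ, hδ, hδ1, c₀ + Q₀, by positivity, ?_⟩
  intro Q hQ1 q _ hqQ χ hcub hne1 g hgf hgc R hR1 hRQ hpR hRg M N hN
  have hQpos : 0 < Q := by linarith
  have hf0 : χ.conductor ≠ 0 := χ.conductor_ne_zero
  have hg0 : g ≠ 0 := by rintro rfl; exact hf0 (zero_dvd_iff.1 hgf)
  have hg1 : (1 : ℝ) ≤ g := by exact_mod_cast Nat.one_le_iff_ne_zero.2 hg0
  have hmono : ∀ a b : ℝ, a ≤ b → Q ^ a ≤ Q ^ b := fun a b h =>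
    Real.rpow_le_rpow_of_exponent_le hQ1 h
  have hR0 : 0 < R := by linarith
  by_contra hcon
  push Not at hcon
  have hW1 : 1 ≤ Q ^ ((1 - δ) / n) :=
    Real.one_le_rpow hQ1 (div_nonneg (by linarith) hn0.le)
  -- `Q` is large
  have hQbig : Q₀ ≤ Q := by
    by_contra hsm
    push Not at hsm
    have h1 := norm_shortSum_le χ M N
    have h2 : (N : ℝ) ≤ Q₀ := by
      refine hN.trans ?_
      calc Q ^ (1 / (n : ℝ)) ≤ Q ^ (1 : ℝ) := by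
            apply hmono
            rw [div_le_one hn0]
            exact hn1
        _ ≤ Q₀ := by rw [Real.rpow_one]; exact hsm.le
    have h5 : Q₀ ≤ (c₀ + Q₀) * Q ^ ((1 - δ) / n) := by nlinarith
    linarith
  have h1 := hC Q hQ1 q hqQ χ hcub hne1 g hgf hgc R hR1 (hRQ.trans (hmono _ _ (by linarith))) hpR {M}
    (by
      intro A hA A' hA' hne
      rw [mem_singleton] at hA hA'
      exact absurd (hA.trans hA'.symm) hne) (by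
      intro A hA
      rw [mem_singleton] at hA
      subst hA
      refine ⟨N, hN, lt_of_le_of_lt ?_ hcon⟩
      nlinarith)
  rw [card_singleton] at h1
  have h2 : R * (g : ℝ) ^ (1 / 2 : ℝ) ≤ Q ^ (2 / n - ε / 2) := by
    have e1 : R * (g : ℝ) ^ (1 / 2 : ℝ) = (R ^ 2 * g) ^ (1 / 2 : ℝ) := by
      rw [Real.mul_rpow (by positivity) (by positivity), ← Real.rpow_natCast R 2,
        ← Real.rpow_mul hR0.le]
      norm_num
    rw [e1]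
    calc (R ^ 2 * g) ^ (1 / 2 : ℝ) ≤ (Q ^ (4 / (n : ℝ) - ε)) ^ (1 / 2 : ℝ) := by gcongr
      _ = Q ^ (2 / n - ε / 2) := by
          rw [← Real.rpow_mul hQpos.le]
          congr 1
          ring
  have h3 : (1 : ℝ) ≤ c₀ * Q ^ (-(ε / 4)) := by
    calc (1 : ℝ) = ((1 : ℕ) : ℝ) := by norm_num
      _ ≤ c₀ * (R * (g : ℝ) ^ (1 / 2 : ℝ) * Q ^ (-(2 / (n : ℝ)) + ε / 4)) := h1
      _ ≤ c₀ * (Q ^ (2 / n - ε / 2) * Q ^ (-(2 / (n : ℝ)) + ε / 4)) := by gcongr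
      _ = c₀ * Q ^ (-(ε / 4)) := by
          rw [← Real.rpow_add hQpos]
          congr 2
          ring
  have h4 := hQ₀ Q hQbig
  have h5 : Q ^ (-(ε / 4)) * Q ^ (ε / 4) = 1 := by
    rw [← Real.rpow_add hQpos]
    simp
  have h6 : 0 < Q ^ (ε / 4) := by positivity
  have h7 : Q ^ (ε / 4) ≤ c₀ := by
    calc Q ^ (ε / 4) = 1 * Q ^ (ε / 4) := (one_mul _).symm
      _ ≤ c₀ * Q ^ (-(ε / 4)) * Q ^ (ε / 4) := mul_le_mul_of_nonneg_right h3 h6.le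
      _ = c₀ := by rw [mul_assoc, h5, mul_one]
  linarith

end Pool.Agent.Work.SF
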