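import Pool.Agent.Work.SF081200.Prim4
import Pool.Agent.Work.LV.A5

/-!
# MP_081200_nt: Burgess's method with smooth factors, all cubic characters
-/

set_option autoImplicit false

namespace Pool.Agent.Work.SF

open Finset ArithmeticFunction Pool.Agent.Work.LV
open scoped ArithmeticFunction.Moebius
open Pool.Agent.Work.MP_081200_nt (char_eq_sum div_bound)

theorem thmC3 (n : ℕ) (hn : 1 ≤ n) (ε : ℝ) (hε : 0 < ε) :
    ∃ δ : ℝ, 0 < δ ∧ δ ≤ 1 ∧ ∃ c : ℝ, 0 ≤ c ∧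
      ∀ Q : ℝ, 1 ≤ Q → ∀ (q : ℕ) [NeZero q], (q : ℝ) ≤ Q →
      ∀ χ : DirichletCharacter ℂ q, χ ^ 3 = 1 → χ ≠ 1 →
      ∀ g : ℕ, g ∣ χ.conductor → g.Coprime (χ.conductor / g) →
      ∀ R : ℝ, 1 ≤ R → R ≤ Q ^ (1 / (n : ℝ) - ε) →
      (∀ p : ℕ, p.Prime → p ∣ χ.conductor / g → (p : ℝ) ≤ R) →
        ∀ 𝓜 : Finset ℤ, Sep g (Q ^ (1 / (n : ℝ))) 𝓜 →
          (∀ M ∈ 𝓜, ∃ N : ℕ, (N : ℝ) ≤ Q ^ (1 / (n : ℝ)) ∧
            c * Q ^ ((1 - δ) / n) < ‖shortSum χ M N‖) →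
            (𝓜.card : ℝ) ≤ c * (R * (g : ℝ) ^ (1 / 2 : ℝ) * Q ^ (-(2 / (n : ℝ)) + ε)) := by
  classical
  obtain ⟨δ, hδ0, hδ2, hδε, c, hc, hB⟩ := primB3 n hn (ε / 4) (by positivity)
  have hn0 : (1 : ℝ) ≤ n := by exact_mod_cast hn
  have hn1 : (0 : ℝ) < n := by linarith
  obtain ⟨Cτ, hCτ, hτ⟩ := div_bound (δ / (2 * n)) (by positivity)
  refine ⟨δ / 2, by positivity, by linarith, 5 * Cτ + 6 * Cτ * c + 16 * (4 ^ n + 1), by positivity, ?_⟩
  intro Q hQ1 q _ hqQ χ hcub hne1 g hgf hgc R hR1 hRQ hpR 𝓜 hsep hV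
  have hQpos : 0 < Q := by linarith
  obtain ⟨W, hW⟩ : ∃ W : ℝ, W = Q ^ ((1 - δ) / n) := ⟨_, rfl⟩
  obtain ⟨L, hL⟩ : ∃ L : ℝ, L = Q ^ (1 / (n : ℝ)) := ⟨_, rfl⟩
  obtain ⟨D, hD⟩ : ∃ D : ℝ, D = Q ^ (δ / n) := ⟨_, rfl⟩
  have hW1 : 1 ≤ W := by
    rw [hW]
    exact Real.one_le_rpow hQ1 (div_nonneg (by linarith) (by linarith))
  have hL1 : 1 ≤ L := by
    rw [hL]
    exact Real.one_le_rpow hQ1 (by positivity)
  have hD1 : 1 ≤ D := by
    rw [hD]
    exact Real.one_le_rpow hQ1 (by positivity)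
  have hWD : W * D = L := by
    rw [hW, hD, hL, ← Real.rpow_add hQpos]
    congr 1
    ring
  rw [← hL] at hsep
  simp only [← hL] at hV
  have hf0 : χ.conductor ≠ 0 := χ.conductor_ne_zero
  have : NeZero χ.conductor := ⟨hf0⟩
  have hfq : χ.conductor ≤ q :=
    Nat.le_of_dvd (Nat.pos_of_ne_zero (NeZero.ne q)) χ.conductor_dvd_level
  have hfQ : (χ.conductor : ℝ) ≤ Q := le_trans (by exact_mod_cast hfq) hqQ
  have hg0 : g ≠ 0 := by rintro rfl; exact hf0 (zero_dvd_iff.1 hgf)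
  have : NeZero g := ⟨hg0⟩
  have hgf' : g ≤ χ.conductor := Nat.le_of_dvd (Nat.pos_of_ne_zero hf0) hgf
  have hgQ : (g : ℝ) ≤ Q := le_trans (by exact_mod_cast hgf') hfQ
  have hR0 : 0 < R := by linarith
  have hRQ' : R ≤ Q ^ (1 / (n : ℝ) - ε / 4) :=
    hRQ.trans (Real.rpow_le_rpow_of_exponent_le hQ1 (by linarith))
  have hf1 : (1 : ℝ) ≤ g := by exact_mod_cast Nat.one_le_iff_ne_zero.2 hg0
  have hf2 : 1 ≤ (g : ℝ) ^ (1 / 2 : ℝ) := Real.one_le_rpow hf1 (by norm_num)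
  have hbig0 : 0 ≤ R * (g : ℝ) ^ (1 / 2 : ℝ) * Q ^ (-(2 / (n : ℝ)) + ε) := by positivity
  -- small Q
  by_cases hsm : Q < 4 ^ n
  · have h1 := Sep.card_le (by linarith) hsep
    have h2 : (g : ℝ) / L ≤ 4 ^ n := by
      calc (g : ℝ) / L ≤ g := div_le_self (by positivity) hL1
        _ ≤ 4 ^ n := hgQ.trans hsm.le
    have h3 : (1 / 16 : ℝ) ≤ Q ^ (-(2 / (n : ℝ)) + ε) := by
      calc (1 / 16 : ℝ) = ((4 : ℝ) ^ n) ^ (-(2 / (n : ℝ))) := by
            rw [← Real.rpow_natCast, ← Real.rpow_mul (by norm_num)]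
            have : (n : ℝ) * (-(2 / (n : ℝ))) = -2 := by field_simp
            rw [this, Real.rpow_neg (by norm_num)]
            norm_num
        _ ≤ Q ^ (-(2 / (n : ℝ))) := by
            apply Real.rpow_le_rpow_of_nonpos hQpos hsm.le
            have : 0 < 2 / (n : ℝ) := by positivity
            linarith
        _ ≤ Q ^ (-(2 / (n : ℝ)) + ε) :=
            Real.rpow_le_rpow_of_exponent_le hQ1 (by linarith)
    calc (𝓜.card : ℝ) ≤ (5 * Cτ + 6 * Cτ * c + 16 * (4 ^ n + 1)) * (1 * 1 * (1 / 16)) := by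
          have : 0 ≤ 5 * Cτ + 6 * Cτ * c := by positivity
          linarith
      _ ≤ _ := by gcongr
  push Not at hsm
  have hL4 : 4 ≤ L := by
    rw [hL]
    calc (4 : ℝ) = ((4 : ℝ) ^ n) ^ (1 / (n : ℝ)) := by
          rw [← Real.rpow_natCast, ← Real.rpow_mul (by norm_num)]
          rw [mul_one_div_cancel hn1.ne', Real.rpow_one]
      _ ≤ Q ^ (1 / (n : ℝ)) := Real.rpow_le_rpow (by positivity) hsm (by positivity)
  have hDL : 2 * D ≤ L := by
    -- D^2 ≤ L, so D ≤ sqrt L ≤ L / 2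
    have h1 : D * D ≤ L := by
      rw [hD, hL, ← Real.rpow_add hQpos]
      apply Real.rpow_le_rpow_of_exponent_le hQ1
      rw [← add_div]
      apply div_le_div_of_nonneg_right _ hn1.le
      linarith
    nlinarith
  -- divisors
  obtain ⟨τ, hτdef⟩ : ∃ τ : ℝ, τ = (q.divisors.card : ℝ) := ⟨_, rfl⟩
  have hτ1 : τ ≤ Cτ * Q ^ (δ / (2 * n)) := by
    rw [hτdef]
    refine (hτ q (NeZero.ne q)).trans ?_
    gcongr
  have hτ0 : 0 ≤ τ := by rw [hτdef]; positivity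
  -- the classes
  have hprim := χ.primitiveCharacter_isPrimitive
  have hcub' : χ.primitiveCharacter ^ 3 = 1 := by
    apply DirichletCharacter.changeLevel_injective χ.conductor_dvd_level
    rw [map_pow, DirichletCharacter.changeLevel_primitiveCharacter, hcub, map_one]
  have hne1' : χ.primitiveCharacter ≠ 1 := by
    intro h
    apply hne1
    have := DirichletCharacter.changeLevel_primitiveCharacter χ
    rw [h, map_one] at this
    exact this.symm
  have hcls : ∀ d ∈ q.divisors.filter (fun d : ℕ => (d : ℝ) ≤ D),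
      ((𝓜.filter fun M => ∃ N' : ℕ, (N' : ℝ) ≤ L ∧
        3 * W ≤ ‖shortSum χ.primitiveCharacter (M / (d : ℤ)) N'‖).card : ℝ) ≤
        6 * D * (c * (R * (g : ℝ) ^ (1 / 2 : ℝ) * Q ^ (-(2 / (n : ℝ)) + ε / 4))) := by
    intro d hd
    rw [mem_filter] at hd
    have hd0 : 0 < d := Nat.pos_of_mem_divisors hd.1
    have hd0' : (0 : ℝ) < d := by exact_mod_cast hd0
    have hd1' : (1 : ℝ) ≤ d := by exact_mod_cast hd0
    set F := 𝓜.filter fun M => ∃ N' : ℕ, (N' : ℝ) ≤ L ∧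
        3 * W ≤ ‖shortSum χ.primitiveCharacter (M / (d : ℤ)) N'‖ with hF
    have hs1 : Sep g L F := hsep.mono le_rfl (Finset.filter_subset _ _)
    obtain ⟨hs2, hcard⟩ := hs1.div d hd0 (by linarith [hd.2])
    obtain ⟨G, hGsub, hGsep, hGcard⟩ := Sep.thin (L := L) (by positivity) hs2 (by linarith)
    have h1 := hB Q hQ1 χ.conductor hfQ χ.primitiveCharacter hprim hcub' hne1' g hgf hgc R hR1
      hRQ' hpR G (by rw [← hL]; exact hGsep) (by
        intro A hA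
        have := hGsub hA
        rw [mem_image] at this
        obtain ⟨M, hM, rfl⟩ := this
        rw [← hL, ← hW]
        exact (mem_filter.mp hM).2)
    rw [hcard] at hGcard
    have h2 : 2 * L / (L / (2 * d)) + 2 ≤ 6 * D := by
      have e : 2 * L / (L / (2 * d)) = 4 * d := by
        field_simp
        norm_num
      rw [e]
      linarith [hd.2]
    calc (F.card : ℝ) ≤ G.card * (2 * L / (L / (2 * d)) + 2) := hGcard
      _ ≤ (c * (R * (g : ℝ) ^ (1 / 2 : ℝ) * Q ^ (-(2 / (n : ℝ)) + ε / 4))) * (6 * D) := by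
          apply mul_le_mul h1 h2 (by positivity) (by positivity)
      _ = _ := by ring
  have hsub : 𝓜 ⊆ (q.divisors.filter (fun d : ℕ => (d : ℝ) ≤ D)).biUnion fun d =>
      𝓜.filter fun M => ∃ N' : ℕ, (N' : ℝ) ≤ L ∧
        3 * W ≤ ‖shortSum χ.primitiveCharacter (M / (d : ℤ)) N'‖ := by
    intro M hM
    obtain ⟨N, hN, hS⟩ := hV M hM
    by_contra hcon
    rw [mem_biUnion] at hcon
    push Not at hcon
    have hbd : ∀ d ∈ q.divisors, ‖shortSum χ.primitiveCharacter (M / (d : ℤ)) (Nd d M N)‖ ≤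
        3 * W + 2 * W := by
      intro d hd
      have hd0 : 0 < d := Nat.pos_of_mem_divisors hd
      have hd0' : (0 : ℝ) < d := by exact_mod_cast hd0
      by_cases hdD : (d : ℝ) ≤ D
      · have h1 := hcon d (mem_filter.mpr ⟨hd, hdD⟩)
        rw [mem_filter] at h1
        push Not at h1
        have h2 := h1 hM (Nd d M N) (le_trans (by exact_mod_cast Nd_le d hd0 M N) hN)
        linarith
      · push Not at hdD
        have h1 := norm_shortSum_le χ.primitiveCharacter (M / (d : ℤ)) (Nd d M N)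
        have h2 := Nd_le_div d hd0 M N
        have h3 : (N : ℝ) / d ≤ W := by
          rw [div_le_iff₀ hd0']
          calc (N : ℝ) ≤ L := hN
            _ = W * D := hWD.symm
            _ ≤ W * d := by gcongr
        linarith
    have h1 := (norm_le_sum χ M N).trans (Finset.sum_le_sum hbd)
    rw [Finset.sum_const, nsmul_eq_mul, ← hτdef] at h1
    have h2 : (5 * Cτ + 6 * Cτ * c + 16 * (4 ^ n + 1)) * Q ^ ((1 - δ / 2) / n) ≤ τ * (3 * W + 2 * W) :=
      (hS.trans_le h1).le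
    have h3 : τ * (3 * W + 2 * W) ≤ 5 * Cτ * Q ^ ((1 - δ / 2) / n) := by
      calc τ * (3 * W + 2 * W) ≤ Cτ * Q ^ (δ / (2 * n)) * (3 * W + 2 * W) := by gcongr
        _ = 5 * Cτ * (Q ^ (δ / (2 * n)) * W) := by ring
        _ = _ := by
            rw [hW, ← Real.rpow_add hQpos]
            congr 2
            field_simp
            ring
    have h4 : 0 < (6 * Cτ * c + 16 * (4 ^ n + 1)) * Q ^ ((1 - δ / 2) / n) := by positivity
    have h5 : (5 * Cτ + 6 * Cτ * c + 16 * (4 ^ n + 1)) * Q ^ ((1 - δ / 2) / n) =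
      5 * Cτ * Q ^ ((1 - δ / 2) / n) + (6 * Cτ * c + 16 * (4 ^ n + 1)) * Q ^ ((1 - δ / 2) / n) := by ring
    linarith
  have hfin : (𝓜.card : ℝ) ≤ 6 * Cτ * c * (R * (g : ℝ) ^ (1 / 2 : ℝ) *
      Q ^ (-(2 / (n : ℝ)) + ε)) := by
    calc (𝓜.card : ℝ) ≤ (((q.divisors.filter (fun d : ℕ => (d : ℝ) ≤ D)).biUnion fun d =>
            𝓜.filter fun M => ∃ N' : ℕ, (N' : ℝ) ≤ L ∧
            3 * W ≤ ‖shortSum χ.primitiveCharacter (M / (d : ℤ)) N'‖).card : ℝ) := by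
          exact_mod_cast Finset.card_le_card hsub
      _ ≤ ∑ d ∈ q.divisors.filter (fun d : ℕ => (d : ℝ) ≤ D), ((𝓜.filter fun M =>
            ∃ N' : ℕ, (N' : ℝ) ≤ L ∧
            3 * W ≤ ‖shortSum χ.primitiveCharacter (M / (d : ℤ)) N'‖).card : ℝ) := by
          exact_mod_cast Finset.card_biUnion_le
      _ ≤ ∑ _d ∈ q.divisors.filter (fun d : ℕ => (d : ℝ) ≤ D),
            6 * D * (c * (R * (g : ℝ) ^ (1 / 2 : ℝ) * Q ^ (-(2 / (n : ℝ)) + ε / 4))) := Finset.sum_le_sum hcls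
      _ = ((q.divisors.filter (fun d : ℕ => (d : ℝ) ≤ D)).card : ℝ) *
            (6 * D * (c * (R * (g : ℝ) ^ (1 / 2 : ℝ) * Q ^ (-(2 / (n : ℝ)) + ε / 4)))) := by
          rw [Finset.sum_const, nsmul_eq_mul]
      _ ≤ τ * (6 * D * (c * (R * (g : ℝ) ^ (1 / 2 : ℝ) * Q ^ (-(2 / (n : ℝ)) + ε / 4)))) := by
          have : ((q.divisors.filter (fun d : ℕ => (d : ℝ) ≤ D)).card : ℝ) ≤ τ := by
            rw [hτdef]
            exact_mod_cast Finset.card_filter_le _ _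
          gcongr
      _ ≤ Cτ * Q ^ (δ / (2 * n)) * (6 * D * (c * (R * (g : ℝ) ^ (1 / 2 : ℝ) * Q ^ (-(2 / (n : ℝ)) + ε / 4)))) := by
          gcongr
      _ = 6 * Cτ * c * (R * (g : ℝ) ^ (1 / 2 : ℝ) *
            (Q ^ (δ / (2 * n)) * Q ^ (δ / n) * Q ^ (-(2 / (n : ℝ)) + ε / 4))) := by
          rw [hD]; ring
      _ ≤ 6 * Cτ * c * (R * (g : ℝ) ^ (1 / 2 : ℝ) * Q ^ (-(2 / (n : ℝ)) + ε)) := by
          rw [← Real.rpow_add hQpos, ← Real.rpow_add hQpos]
          apply mul_le_mul_of_nonneg_left _ (by positivity)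
          apply mul_le_mul_of_nonneg_left _ (by positivity)
          apply Real.rpow_le_rpow_of_exponent_le hQ1
          have e : δ / (2 * n) + δ / n = (3 / 2 * δ) / n := by field_simp; ring
          have h1 : (3 / 2 * δ) / n ≤ ε / 2 := by
            rw [div_le_iff₀ hn1]
            nlinarith
          linarith
  refine hfin.trans ?_
  apply mul_le_mul_of_nonneg_right _ hbig0
  have : (0 : ℝ) < 16 * (4 ^ n + 1) := by positivity
  have : 0 ≤ 5 * Cτ := by positivity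
  linarith


end Pool.Agent.Work.SF
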