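import Pool.Agent.Work.SF081200.Interface

/-!
# Block CNT1: the combinatorial inequality and the Chebyshev step
-/

set_option autoImplicit false

open Finset

namespace Pool.Agent.Work.SF.CN1

/-- sums over subsets with at most two elements -/
theorem small_subsets (x : ℕ → ℝ) (hx : ∀ p, 0 ≤ x p) (B : Finset ℕ) :
    ∑ T ∈ B.powerset.filter (fun T => T.card ≤ 2), ∏ p ∈ T, x p ≤
      1 + (∑ p ∈ B, x p) + (∑ p ∈ B, x p) ^ 2 / 2 := by
  classical
  have h1 : ∀ B : Finset ℕ, ∑ T ∈ B.powersetCard 1, ∏ p ∈ T, x p = ∑ p ∈ B, x p := by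
    intro B
    rw [Finset.powersetCard_one, sum_map]
    simp
  have h2 : ∀ B : Finset ℕ, ∑ T ∈ B.powersetCard 2, ∏ p ∈ T, x p ≤ (∑ p ∈ B, x p) ^ 2 / 2 := by
    intro B
    induction B using Finset.induction_on with
    | empty => 
      rw [Finset.powersetCard_eq_empty.2 (by simp)]
      simp
    | insert a B ha ih =>
      rw [Finset.powersetCard_succ_insert ha, sum_union, sum_image, sum_insert ha]
      · have h3 : ∑ T ∈ B.powersetCard 1, ∏ p ∈ insert a T, x p = x a * ∑ p ∈ B, x p := by
          rw [← h1 B, mul_sum]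
          apply sum_congr rfl
          intro T hT
          rw [mem_powersetCard] at hT
          rw [prod_insert (fun h => ha (hT.1 h))]
        rw [h3]
        nlinarith [sq_nonneg (x a)]
      · intro T hT T' hT' h
        rw [Finset.mem_coe, mem_powersetCard] at hT hT'
        have e1 : (insert a T).erase a = T := erase_insert (fun h => ha (hT.1 h))
        have e2 : (insert a T').erase a = T' := erase_insert (fun h => ha (hT'.1 h))
        rw [← e1, h, e2]
      · rw [Finset.disjoint_left]
        intro T hT hT'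
        rw [mem_powersetCard] at hT
        rw [mem_image] at hT'
        obtain ⟨T', _, rfl⟩ := hT'
        exact ha (hT.1 (mem_insert_self a T'))
  have h0 : B.powerset.filter (fun T => T.card ≤ 2) ⊆
      B.powersetCard 0 ∪ B.powersetCard 1 ∪ B.powersetCard 2 := by
    intro T hT
    rw [mem_filter, mem_powerset] at hT
    rw [mem_union, mem_union, mem_powersetCard, mem_powersetCard, mem_powersetCard]
    have := hT.2
    interval_cases hc : T.card
    · exact Or.inl (Or.inl ⟨hT.1, rfl⟩)
    · exact Or.inl (Or.inr ⟨hT.1, rfl⟩)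
    · exact Or.inr ⟨hT.1, rfl⟩
  have hnn : ∀ T : Finset ℕ, 0 ≤ ∏ p ∈ T, x p := fun T => prod_nonneg fun p _ => hx p
  calc _ ≤ ∑ T ∈ B.powersetCard 0 ∪ B.powersetCard 1 ∪ B.powersetCard 2, ∏ p ∈ T, x p :=
        sum_le_sum_of_subset_of_nonneg h0 fun T _ _ => hnn T
    _ ≤ ∑ T ∈ B.powersetCard 0 ∪ B.powersetCard 1, ∏ p ∈ T, x p +
          ∑ T ∈ B.powersetCard 2, ∏ p ∈ T, x p := by
        rw [← sum_union_inter]
        have := sum_nonneg fun T (_ : T ∈ (B.powersetCard 0 ∪ B.powersetCard 1) ∩ B.powersetCard 2) =>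
          hnn T
        linarith
    _ ≤ (∑ T ∈ B.powersetCard 0, ∏ p ∈ T, x p + ∑ T ∈ B.powersetCard 1, ∏ p ∈ T, x p) +
          ∑ T ∈ B.powersetCard 2, ∏ p ∈ T, x p := by
        apply add_le_add _ le_rfl
        rw [← sum_union_inter]
        have := sum_nonneg fun T (_ : T ∈ B.powersetCard 0 ∩ B.powersetCard 1) => hnn T
        linarith
    _ ≤ _ := by
        apply add_le_add _ (h2 B)
        rw [h1, Finset.powersetCard_zero, sum_singleton, prod_empty]

/-- at most two elements in each block -/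
def Good (B : ℕ → Finset ℕ) (J : ℕ) (S : Finset ℕ) : Prop := ∀ j < J, (S ∩ B j).card ≤ 2

open Classical in
/-- the combinatorial inequality -/
theorem main_ineq (x : ℕ → ℝ) (hx : ∀ p, 0 ≤ x p) (B : ℕ → Finset ℕ) :
    ∀ (J : ℕ) (P : Finset ℕ), (∀ j < J, B j ⊆ P) →
    (∀ i < J, ∀ j < J, i ≠ j → Disjoint (B i) (B j)) →
    ∑ S ∈ P.powerset.filter (Good B J), ∏ p ∈ S, x p ≤
      Real.exp (∑ p ∈ P, x p) * ∏ j ∈ range J,
        ((1 + (∑ p ∈ B j, x p) + (∑ p ∈ B j, x p) ^ 2 / 2) * Real.exp (-∑ p ∈ B j, x p)) := by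
  have hnn : ∀ T : Finset ℕ, 0 ≤ ∏ p ∈ T, x p := fun T => prod_nonneg fun p _ => hx p
  intro J
  induction J with
  | zero =>
    intro P _ _
    rw [prod_range_zero, mul_one]
    have h1 : P.powerset.filter (Good B 0) = P.powerset := by
      apply filter_true_of_mem
      intro S _ j hj
      omega
    rw [h1, ← Finset.prod_one_add, Real.exp_sum]
    apply prod_le_prod
    · intro p _
      linarith [hx p]
    · intro p _
      rw [add_comm]
      exact Real.add_one_le_exp (x p)
  | succ J ih =>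
    intro P hP hd
    have ih' := ih (P \ B J) (fun j hj => by
      intro p hp
      rw [mem_sdiff]
      refine ⟨hP j (by omega) hp, fun h => ?_⟩
      exact (Finset.disjoint_left.1 (hd j (by omega) J (by omega) (by omega))) hp h)
      (fun i hi j hj h => hd i (by omega) j (by omega) h)
    have hs := small_subsets x hx (B J)
    have hBP := hP J (by omega)
    have h1 : ∑ S ∈ P.powerset.filter (Good B (J + 1)), ∏ p ∈ S, x p ≤
        (∑ S ∈ (P \ B J).powerset.filter (Good B J), ∏ p ∈ S, x p) *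
        ∑ T ∈ (B J).powerset.filter (fun T => T.card ≤ 2), ∏ p ∈ T, x p := by
      rw [sum_mul_sum, ← sum_product']
      have h2 : ∀ S ∈ P.powerset.filter (Good B (J + 1)),
          ∏ p ∈ S, x p = (∏ p ∈ (S \ B J, S ∩ B J).1, x p) * ∏ p ∈ (S \ B J, S ∩ B J).2, x p := by
        intro S _
        have : S = (S \ B J) ∪ (S ∩ B J) := (sdiff_union_inter S (B J)).symm
        conv_lhs => rw [this]
        rw [prod_union (disjoint_sdiff_inter S (B J))]
      rw [sum_congr rfl h2, ← sum_image (f := fun y : Finset ℕ × Finset ℕ =>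
        (∏ p ∈ y.1, x p) * ∏ p ∈ y.2, x p) (g := fun S => (S \ B J, S ∩ B J))]
      · apply sum_le_sum_of_subset_of_nonneg
        · intro y hy
          rw [mem_image] at hy
          obtain ⟨S, hS, rfl⟩ := hy
          rw [mem_filter, mem_powerset] at hS
          rw [mem_product, mem_filter, mem_filter, mem_powerset, mem_powerset]
          refine ⟨⟨sdiff_subset_sdiff hS.1 le_rfl, fun j hj => ?_⟩, inter_subset_right,
            hS.2 J (by omega)⟩
          refine (card_le_card ?_).trans (hS.2 j (by omega))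
          exact inter_subset_inter_right sdiff_subset
        · intro y _ _
          exact mul_nonneg (hnn _) (hnn _)
      · intro S _ S' _ h
        simp only [Prod.mk.injEq] at h
        rw [← sdiff_union_inter S (B J), ← sdiff_union_inter S' (B J), h.1, h.2]
    refine h1.trans ?_
    rw [prod_range_succ]
    set E := 1 + (∑ p ∈ B J, x p) + (∑ p ∈ B J, x p) ^ 2 / 2 with hE
    have hsum : ∑ p ∈ P, x p = ∑ p ∈ P \ B J, x p + ∑ p ∈ B J, x p := (sum_sdiff hBP).symm
    have hl0 : 0 ≤ ∑ p ∈ B J, x p := sum_nonneg fun p _ => hx p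
    have hE0 : 0 ≤ E := by positivity
    set R := ∏ j ∈ range J,
        ((1 + (∑ p ∈ B j, x p) + (∑ p ∈ B j, x p) ^ 2 / 2) * Real.exp (-∑ p ∈ B j, x p)) with hR
    have hR0 : 0 ≤ R := by
      apply prod_nonneg
      intro j _
      have : 0 ≤ ∑ p ∈ B j, x p := sum_nonneg fun p _ => hx p
      positivity
    calc _ ≤ (Real.exp (∑ p ∈ P \ B J, x p) * R) * E :=
          mul_le_mul ih' hs (sum_nonneg fun T _ => hnn T) (by positivity)
      _ = _ := by
          rw [hsum, Real.exp_add, Real.exp_neg]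
          have := Real.exp_pos (∑ p ∈ B J, x p)
          field_simp

/-- three elements in increasing order -/
theorem three_lt {S : Finset ℕ} (h : 3 ≤ S.card) : ∃ a b c, a ∈ S ∧ b ∈ S ∧ c ∈ S ∧ a < b ∧ b < c := by
  classical
  have h1 : S.Nonempty := card_pos.1 (by omega)
  set a := S.min' h1 with ha
  have haS : a ∈ S := S.min'_mem h1
  have h2 : 2 ≤ (S.erase a).card := by rw [card_erase_of_mem haS]; omega
  have h3 : (S.erase a).Nonempty := card_pos.1 (by omega)
  set b := (S.erase a).min' h3 with hb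
  have hbS : b ∈ S.erase a := (S.erase a).min'_mem h3
  have h4 : 1 ≤ ((S.erase a).erase b).card := by rw [card_erase_of_mem hbS]; omega
  obtain ⟨c, hc⟩ := card_pos.1 (show 0 < ((S.erase a).erase b).card by omega)
  rw [mem_erase] at hbS hc
  refine ⟨a, b, c, haS, hbS.2, (mem_erase.1 hc.2).2, ?_, ?_⟩
  · exact lt_of_le_of_ne (S.min'_le b hbS.2) (Ne.symm hbS.1)
  · exact lt_of_le_of_ne ((S.erase a).min'_le c hc.2) (Ne.symm hc.1)

end Pool.Agent.Work.SF.CN1
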