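import Pool.Agent.Work.SF081200.CNT1A

/-!
# Block CNT1: the Chebyshev step
-/

set_option autoImplicit false

open Finset

namespace Pool.Agent.Work.SF.CN1

/-- the weight -/
noncomputable def w (f : ℕ) : ℝ := (2 : ℝ) ^ f.primeFactors.card

theorem w_nonneg (f : ℕ) : 0 ≤ w f := by unfold w; positivity

/-- removing a prime factor -/
theorem w_mul {m p : ℕ} (hp : p.Prime) (h : Squarefree (m * p)) : w (m * p) = 2 * w m := by
  have hc : Nat.Coprime m p := Nat.coprime_of_squarefree_mul h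
  unfold w
  rw [hc.primeFactors_mul, card_union_of_disjoint hc.disjoint_primeFactors, hp.primeFactors,
    card_singleton, pow_succ]
  ring

theorem log_squarefree {f : ℕ} (h : Squarefree f) :
    Real.log f = ∑ p ∈ f.primeFactors, Real.log p := by
  conv_lhs => rw [← Nat.prod_primeFactors_of_squarefree h]
  push_cast
  rw [Real.log_prod]
  intro p hp
  have := (Nat.prime_of_mem_primeFactors hp).pos
  positivity

open Classical in
/-- the Chebyshev step -/
theorem cheb (G : ℕ → Prop) (hG : ∀ m p : ℕ, p.Prime → G (m * p) → G m) (N : ℕ) :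
    Real.log N * ∑ f ∈ (Icc 1 N).filter (fun f => Squarefree f ∧ G f), w f ≤
      4 * N * ∑ f ∈ (Icc 1 N).filter (fun f => Squarefree f ∧ G f), w f / f := by
  set Gd := (Icc 1 N).filter (fun f => Squarefree f ∧ G f) with hGd
  rcases Nat.eq_zero_or_pos N with rfl | hN
  · simp
  have hN0 : (0 : ℝ) < N := by exact_mod_cast hN
  have h1 : ∀ f ∈ Gd, Real.log N * w f ≤ w f * Real.log f + w f / f * N := by
    intro f hf
    rw [hGd, mem_filter, mem_Icc] at hf
    have hf0 : (0 : ℝ) < f := by exact_mod_cast hf.1.1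
    have h2 : Real.log N = Real.log f + Real.log (N / f) := by
      rw [Real.log_div hN0.ne' hf0.ne']; ring
    have h3 : Real.log ((N : ℝ) / f) ≤ N / f := by
      have := Real.log_le_sub_one_of_pos (show 0 < (N : ℝ) / f by positivity)
      linarith
    rw [h2]
    have h4 := mul_le_mul_of_nonneg_left h3 (w_nonneg f)
    calc (Real.log f + Real.log (N / f)) * w f = w f * Real.log f + w f * Real.log (N / f) := by ring
      _ ≤ w f * Real.log f + w f * (N / f) := by linarith
      _ = _ := by ring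
  have h2 : ∑ f ∈ Gd, w f * Real.log f ≤ ∑ m ∈ Gd, ∑ p ∈ (N / m).primesLE, 2 * w m * Real.log p := by
    have h3 : ∑ f ∈ Gd, w f * Real.log f = ∑ f ∈ Gd, ∑ p ∈ f.primeFactors, w f * Real.log p := by
      apply sum_congr rfl
      intro f hf
      rw [hGd, mem_filter] at hf
      rw [log_squarefree hf.2.1, mul_sum]
    rw [h3, sum_sigma', sum_sigma']
    have h4 : ∀ x ∈ Gd.sigma (fun f => f.primeFactors),
        w x.1 * Real.log x.2 = (fun y : (_ : ℕ) × ℕ => 2 * w y.1 * Real.log y.2)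
          (⟨x.1 / x.2, x.2⟩ : (_ : ℕ) × ℕ) ∧ x.1 / x.2 ∈ Gd ∧ x.2 ∈ (N / (x.1 / x.2)).primesLE := by
      rintro ⟨f, p⟩ hx
      rw [mem_sigma, hGd, mem_filter, mem_Icc, Nat.mem_primeFactors] at hx
      simp only at hx
      obtain ⟨⟨⟨hf1, hfN⟩, hsq, hg⟩, hp, ⟨m, rfl⟩, hf0⟩ := hx
      simp only
      have hp0 := hp.pos
      rw [Nat.mul_div_cancel_left m hp0]
      rw [mul_comm p m] at hsq hg hfN
      have hm0 : 0 < m := by
        rcases Nat.eq_zero_or_pos m with rfl | h
        · simp at hf0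
        · exact h
      refine ⟨?_, ?_, ?_⟩
      · rw [mul_comm p m, w_mul hp hsq]
      · rw [hGd, mem_filter, mem_Icc]
        exact ⟨⟨hm0, (Nat.le_mul_of_pos_right m hp0).trans hfN⟩, hsq.of_mul_left, hG m p hp hg⟩
      · rw [Nat.mem_primesLE]
        exact ⟨(Nat.le_div_iff_mul_le hm0).2 (by rw [mul_comm]; exact hfN), hp⟩
    rw [sum_congr rfl fun x hx => (h4 x hx).1,
      ← sum_image (f := fun y : (_ : ℕ) × ℕ => 2 * w y.1 * Real.log y.2)
        (g := fun x : (_ : ℕ) × ℕ => (⟨x.1 / x.2, x.2⟩ : (_ : ℕ) × ℕ))]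
    · apply sum_le_sum_of_subset_of_nonneg
      · intro y hy
        rw [mem_image] at hy
        obtain ⟨x, hx, rfl⟩ := hy
        rw [mem_sigma]
        exact (h4 x hx).2
      · rintro ⟨m, p⟩ hy _
        rw [mem_sigma, Nat.mem_primesLE] at hy
        have : 0 ≤ Real.log p := Real.log_nonneg (by exact_mod_cast hy.2.2.one_lt.le)
        have := w_nonneg m
        simp only
        positivity
    · rintro ⟨f, p⟩ hx ⟨f', p'⟩ hx' h
      simp only [Sigma.mk.injEq, heq_eq_eq] at h
      rw [Finset.mem_coe, mem_sigma, Nat.mem_primeFactors] at hx hx'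
      simp only at hx hx'
      obtain ⟨h5, rfl⟩ := h
      have e1 : f = f / p * p := (Nat.div_mul_cancel hx.2.2.1).symm
      have e2 : f' = f' / p * p := (Nat.div_mul_cancel hx'.2.2.1).symm
      rw [e1, e2, h5]
  have h5 : ∀ m ∈ Gd, ∑ p ∈ (N / m).primesLE, 2 * w m * Real.log p ≤ 2 * Real.log 4 * N * (w m / m) := by
    intro m hm
    rw [hGd, mem_filter, mem_Icc] at hm
    have hm0 : (0 : ℝ) < m := by exact_mod_cast hm.1.1
    rw [← mul_sum, ← Chebyshev.theta_eq_sum_primesLE_log]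
    have h6 := Chebyshev.theta_le_log4_mul_x (Nat.cast_nonneg (α := ℝ) (N / m))
    have h7 : ((N / m : ℕ) : ℝ) ≤ N / m := Nat.cast_div_le
    have hl4 : 0 ≤ Real.log 4 := Real.log_nonneg (by norm_num)
    calc 2 * w m * Chebyshev.theta ((N / m : ℕ) : ℝ) ≤ 2 * w m * (Real.log 4 * ((N : ℝ) / m)) := by
          apply mul_le_mul_of_nonneg_left _ (by have := w_nonneg m; positivity)
          exact h6.trans (mul_le_mul_of_nonneg_left h7 hl4)
      _ = _ := by ring
  have hl4 : 2 * Real.log 4 + 1 ≤ 4 := by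
    rw [show (4 : ℝ) = 2 ^ 2 by norm_num, Real.log_pow]
    have := Real.log_two_lt_d9
    push_cast
    norm_num
    linarith
  have hH0 : 0 ≤ ∑ f ∈ Gd, w f / f :=
    sum_nonneg fun f _ => div_nonneg (w_nonneg f) (Nat.cast_nonneg f)
  calc Real.log N * ∑ f ∈ Gd, w f = ∑ f ∈ Gd, Real.log N * w f := by rw [mul_sum]
    _ ≤ ∑ f ∈ Gd, (w f * Real.log f + w f / f * N) := sum_le_sum h1
    _ = ∑ f ∈ Gd, w f * Real.log f + N * ∑ f ∈ Gd, w f / f := by
        rw [sum_add_distrib, ← sum_mul, mul_comm (N : ℝ)]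
    _ ≤ ∑ m ∈ Gd, 2 * Real.log 4 * N * (w m / m) + N * ∑ f ∈ Gd, w f / f := by
        apply add_le_add (h2.trans (sum_le_sum h5)) le_rfl
    _ = (2 * Real.log 4 + 1) * (N * ∑ f ∈ Gd, w f / f) := by rw [← mul_sum]; ring
    _ ≤ 4 * (N * ∑ f ∈ Gd, w f / f) := mul_le_mul_of_nonneg_right hl4 (by positivity)
    _ = _ := by ring

/-- all primes are `1` modulo `3` and each block has at most two of them -/
def GB (B : ℕ → Finset ℕ) (J f : ℕ) : Prop :=
  (∀ p, p.Prime → p ∣ f → p % 3 = 1) ∧ Good B J f.primeFactors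

open Classical in
/-- from integers to sets of primes -/
theorem to_sets (B : ℕ → Finset ℕ) (J N : ℕ) :
    ∑ f ∈ (Icc 1 N).filter (fun f => Squarefree f ∧ GB B J f), w f / f ≤
    ∑ S ∈ ((Icc 1 N).filter (fun p => p.Prime ∧ p % 3 = 1)).powerset.filter (Good B J),
      ∏ p ∈ S, (2 / (p : ℝ)) := by
  have h1 : ∀ f ∈ (Icc 1 N).filter (fun f => Squarefree f ∧ GB B J f), w f / f = ∏ p ∈ f.primeFactors, (2 / (p : ℝ)) := by
    intro f hf
    rw [mem_filter] at hf
    unfold w
    conv_lhs => rw [← Nat.prod_primeFactors_of_squarefree hf.2.1]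
    rw [prod_div_distrib, prod_const, Nat.prod_primeFactors_of_squarefree hf.2.1]
    congr 1
    conv_lhs => rw [← Nat.prod_primeFactors_of_squarefree hf.2.1]
    push_cast
    rfl
  rw [sum_congr rfl h1, ← sum_image (f := fun S : Finset ℕ => ∏ p ∈ S, (2 / (p : ℝ)))
    (g := fun f : ℕ => f.primeFactors)]
  · apply sum_le_sum_of_subset_of_nonneg
    · intro S hS
      rw [mem_image] at hS
      obtain ⟨f, hf, rfl⟩ := hS
      rw [mem_filter, mem_Icc] at hf
      rw [mem_filter, mem_powerset]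
      refine ⟨fun p hp => ?_, hf.2.2.2⟩
      rw [Nat.mem_primeFactors] at hp
      rw [mem_filter, mem_Icc]
      exact ⟨⟨hp.1.one_lt.le, (Nat.le_of_dvd hf.1.1 hp.2.1).trans hf.1.2⟩, hp.1,
        hf.2.2.1 p hp.1 hp.2.1⟩
    · intro S _ _
      exact prod_nonneg fun p _ => by positivity
  · intro f hf f' hf' h
    rw [Finset.mem_coe, mem_filter] at hf hf'
    simp only at h
    rw [← Nat.prod_primeFactors_of_squarefree hf.2.1, ← Nat.prod_primeFactors_of_squarefree hf'.2.1, h]

end Pool.Agent.Work.SF.CN1
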