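import Pool.Agent.Work.SF081200.Inner2

/-!
# MP_081200_nt: Burgess's method with smooth factors, the core inequality
-/

set_option autoImplicit false

namespace Pool.Agent.Work.SF

open Finset Pool.Agent.Work.LV Pool.Agent.Work.LV.M Pool.Agent.Work.SC

theorem core2 (k r : ℕ) (hr : 1 ≤ r) (ε : ℝ) (hε : 0 < ε) :
    ∃ C : ℝ, 0 ≤ C ∧ ∀ (G : ℕ) [NeZero G] (ψ : DirichletCharacter ℂ G), LocPrim ψ → ψ ^ 3 = 1 →
      ∀ (l : List (ℕ × ℕ)) (L0 B Y : ℕ) (P : Finset ℕ) (V : ℝ) (𝓜 : Finset ℤ) (A : ℤ → ℂ),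
        l.length ≤ k → (∀ p ∈ l, 1 ≤ p.1 ∧ 1 ≤ p.2 ∧ Y * p.1 * p.2 ≤ L0 ∧ p.1.Coprime G) →
        1 ≤ L0 → 1 ≤ B → (∀ a ∈ P, 1 ≤ a ∧ a ≤ Y ∧ a.Coprime G) → Per l A → 0 ≤ V →
        (∀ M ∈ 𝓜, ∃ N : ℕ, N ≤ L0 ∧ V ≤ ‖∑ a ∈ Ioc M (M + N), A a * ψ (a : ZMod G)‖) →
        2 * (2 * (L0 : ℝ)) ^ (2 ^ l.length - 1) *
          (2 * Y * B + L0 * (l.map fun p => 1 / (p.2 : ℝ)).sum) ≤ V ^ (2 ^ l.length) →
        ((P.card : ℝ) * 𝓜.card *
          (V ^ (2 ^ l.length) / (2 * (2 * (L0 : ℝ)) ^ (2 ^ l.length - 1))) * B) ^ (2 * r) ≤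
          ((P.card : ℝ) * 𝓜.card * L0) ^ (2 * r - 2) * (∑ x : ZMod G, (vv G P 𝓜 L0 x : ℝ) ^ 2) *
          (C * (G.divisors.card : ℝ) ^ k *
            ((B : ℝ) ^ r * G + (B : ℝ) ^ (2 * r) * (G : ℝ) ^ (1 / 2 + ε))) := by
  classical
  obtain ⟨C, hC, hmom⟩ := moment r hr k ε hε
  refine ⟨C, hC, ?_⟩
  intro G _ ψ hloc hcub l L0 B Y P V 𝓜 A hlk hl hL0 hB hPa hA hV hVM hE
  have hG : G ≠ 0 := NeZero.ne G
  have hG0 : (0 : ℝ) < G := by exact_mod_cast Nat.pos_of_ne_zero hG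
  have hB0 : (0 : ℝ) < B := by exact_mod_cast hB
  have hL00 : (0 : ℝ) < L0 := by exact_mod_cast hL0
  have hcop : ∀ a ∈ P, a.Coprime G := fun a ha => (hPa a ha).2.2
  set J : ℝ := (P.card : ℝ) * 𝓜.card with hJ
  have hJ0 : 0 ≤ J := by positivity
  set K := 2 ^ l.length with hK
  set Z : ℝ := (2 * (L0 : ℝ)) ^ (K - 1) with hZ
  have hZ0 : 0 < Z := by positivity
  set S1 : ℝ := (l.map fun p => 1 / (p.2 : ℝ)).sum with hS1
  have hHH : 0 < HH l := HH_pos l fun p hp => (hl p hp).2.1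
  set Φ : List ℤ → ℝ := fun t => ∑ x : ZMod G, (vv G P 𝓜 L0 x : ℝ) * T2 ψ t B x with hΦ
  set Φz : List ℤ → ℝ := fun t => if (0 : ℤ) ∈ t then 0 else Φ t with hΦz
  have hΦ0 : ∀ t, 0 ≤ Φ t := fun t => sum_nonneg fun _ _ =>
    mul_nonneg (Nat.cast_nonneg _) (T2_nonneg _ _ _ _)
  have hΦz0 : ∀ t, 0 ≤ Φz t := by
    intro t
    simp only [hΦz]
    split_ifs
    · exact le_rfl
    · exact hΦ0 t
  have hΦle : ∀ t, Φ t ≤ Φz t + B * J * L0 * (if (0 : ℤ) ∈ t then 1 else 0) := by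
    intro t
    simp only [hΦz]
    split_ifs with h0
    · rw [zero_add, mul_one]
      calc Φ t ≤ ∑ x : ZMod G, (vv G P 𝓜 L0 x : ℝ) * B :=
            sum_le_sum fun _ _ => mul_le_mul_of_nonneg_left (T2_le _ _ _ _) (Nat.cast_nonneg _)
        _ = B * J * L0 := by
            rw [← sum_mul, sum_vv_one P 𝓜 L0 hcop, hJ]; ring
    · simp
  -- one M and one a
  have hone : ∀ a ∈ P, ∀ M ∈ 𝓜, V ^ K * HH l * B ≤ Z * Av l (fun t => 2 * Y * (B : ℝ) ^ 2 +
      ∑ n ∈ Icc 1 L0, T2 ψ t B (((M : ZMod G) + (n : ZMod G)) * (a : ZMod G)⁻¹)) := by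
    intro a ha M hM
    obtain ⟨ha1, ha2, ha3⟩ := hPa a ha
    obtain ⟨N, hN, hVN⟩ := hVM M hM
    have h1 := vdC (l.map (fun p => (a * p.1, p.2))) L0 N M hN (by
        intro p hp
        rw [List.mem_map] at hp
        obtain ⟨p', hp', rfl⟩ := hp
        obtain ⟨h1, h2, h3, h4⟩ := hl p' hp'
        refine ⟨h2, ?_⟩
        calc a * p'.1 * p'.2 ≤ Y * p'.1 * p'.2 := by gcongr
          _ ≤ L0 := h3) A
      (fun a : ℤ => if a ∈ Ioc M (M + N) then ψ (a : ZMod G) else 0) (Per_scale a l A hA)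
      (fun a ha => if_neg ha)
    rw [List.length_map, HH_scale, Av_scale] at h1
    have h2 : ∑' a : ℤ, A a * (if a ∈ Ioc M (M + N) then ψ (a : ZMod G) else 0) =
        ∑ a ∈ Ioc M (M + N), A a * ψ (a : ZMod G) := by
      rw [tsum_eq_sum (s := Ioc M (M + N))]
      · refine sum_congr rfl fun a ha => ?_
        rw [if_pos ha]
      · intro a ha
        rw [if_neg ha, mul_zero]
    rw [h2] at h1
    have h3 : V ^ K * HH l ≤ Z * Av l (fun t => ‖∑' x, DD (t.map (fun s => (a : ℤ) * s))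
        (fun x : ℤ => if x ∈ Ioc M (M + N) then ψ (x : ZMod G) else 0) x‖) :=
      (mul_le_mul_of_nonneg_right (pow_le_pow_left₀ hV hVN K) hHH.le).trans h1
    calc V ^ K * HH l * B ≤ Z * Av l (fun t => ‖∑' x, DD (t.map (fun s => (a : ℤ) * s))
        (fun x : ℤ => if x ∈ Ioc M (M + N) then ψ (x : ZMod G) else 0) x‖) * B :=
          mul_le_mul_of_nonneg_right h3 hB0.le
      _ = Z * Av l (fun t => B * ‖∑' x, DD (t.map (fun s => (a : ℤ) * s))
        (fun x : ℤ => if x ∈ Ioc M (M + N) then ψ (x : ZMod G) else 0) x‖) := by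
          rw [Av_mul]; ring
      _ ≤ _ := by
          apply mul_le_mul_of_nonneg_left _ hZ0.le
          apply Av_mono
          intro t _
          exact inner_bound2 ψ t M N L0 B Y a hN ha2 ha3
  have hsum : J * (V ^ K * HH l * B) ≤ Z * (B * J * HH l * (2 * Y * B + L0 * S1) + Av l Φz) := by
    calc J * (V ^ K * HH l * B) = ∑ a ∈ P, ∑ M ∈ 𝓜, V ^ K * HH l * B := by
          simp [hJ]; ring
      _ ≤ ∑ a ∈ P, ∑ M ∈ 𝓜, Z * Av l (fun t => 2 * Y * (B : ℝ) ^ 2 +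
      ∑ n ∈ Icc 1 L0, T2 ψ t B (((M : ZMod G) + (n : ZMod G)) * (a : ZMod G)⁻¹)) :=
          sum_le_sum fun a ha => sum_le_sum fun M hM => hone a ha M hM
      _ = Z * Av l (fun t => 2 * Y * (B : ℝ) ^ 2 * J + Φ t) := by
          simp only [← mul_sum]
          simp only [← Av_sum]
          congr 2
          funext t
          simp only [sum_add_distrib]
          rw [hΦ]
          simp only
          rw [sum_vv P 𝓜 L0 hcop]
          congr 1
          simp [hJ]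
          ring
      _ ≤ Z * Av l (fun t => 2 * Y * (B : ℝ) ^ 2 * J +
            (Φz t + B * J * L0 * (if (0 : ℤ) ∈ t then 1 else 0))) := by
          apply mul_le_mul_of_nonneg_left _ hZ0.le
          apply Av_mono
          intro t _
          have := hΦle t
          linarith
      _ = Z * (2 * Y * (B : ℝ) ^ 2 * J * HH l + (Av l Φz +
            B * J * L0 * Av l (fun t => if (0 : ℤ) ∈ t then 1 else 0))) := by
          rw [Av_add l (fun _ => 2 * Y * (B : ℝ) ^ 2 * J), Av_add l Φz, Av_const,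
            Av_mul l (B * J * L0) (fun t => if (0 : ℤ) ∈ t then 1 else 0)]
      _ ≤ Z * (2 * Y * (B : ℝ) ^ 2 * J * HH l + (Av l Φz + B * J * L0 * (HH l * S1))) := by
          apply mul_le_mul_of_nonneg_left _ hZ0.le
          have h1 := mul_le_mul_of_nonneg_left (Av_zero l fun p hp => ⟨(hl p hp).1, (hl p hp).2.1⟩)
            (by positivity : (0 : ℝ) ≤ B * J * L0)
          linarith
      _ = _ := by ring
  set X : ℝ := V ^ K / (2 * Z) with hX
  have hX0 : 0 ≤ X := by positivity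
  have hXZ : X * (2 * Z) = V ^ K := div_mul_cancel₀ _ (by positivity)
  have hmain : J * X * HH l * B ≤ Av l Φz := by
    have h1 : J * (V ^ K * HH l * B) ≤ J * HH l * B * (V ^ K / 2) + Z * Av l Φz := by
      refine hsum.trans ?_
      have h2 : 0 ≤ J * HH l * B := by positivity
      have h3 := mul_le_mul_of_nonneg_left hE h2
      nlinarith
    have h2 : Z * (J * X * HH l * B) ≤ Z * Av l Φz := by
      have : Z * (J * X * HH l * B) = J * HH l * B * (V ^ K / 2) := by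
        rw [← hXZ]; ring
      rw [this]
      nlinarith
    exact le_of_mul_le_mul_left h2 hZ0
  obtain ⟨j, hj⟩ : ∃ j, 2 * r = j + 1 := ⟨2 * r - 1, by omega⟩
  set R : ℝ := (B : ℝ) ^ r * G + (B : ℝ) ^ (2 * r) * (G : ℝ) ^ (1 / 2 + ε) with hR
  have hR0 : 0 ≤ R := by positivity
  set E : ℝ := ∑ x : ZMod G, (vv G P 𝓜 L0 x : ℝ) ^ 2 with hEdef
  have hE0 : 0 ≤ E := sum_nonneg fun _ _ => by positivity
  set W : ℝ := (J * L0) ^ (2 * r - 2) * E with hW
  have hW0 : 0 ≤ W := by positivity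
  have hpt : ∀ t : List ℤ, t.length = l.length → Φz t ^ (j + 1) ≤
      (W * (C * R)) * (t.map (ga G)).prod := by
    intro t ht
    have hprod : 0 ≤ (t.map (ga G)).prod := List.prod_nonneg fun a ha => by
      rw [List.mem_map] at ha
      obtain ⟨s, _, rfl⟩ := ha
      exact ga_nonneg G s
    by_cases h0 : (0 : ℤ) ∈ t
    · simp only [hΦz, if_pos h0]
      rw [zero_pow (by omega)]
      positivity
    · simp only [hΦz, if_neg h0]
      have h1 := holder Finset.univ (fun x : ZMod G => (vv G P 𝓜 L0 x : ℝ))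
        (fun x => T2 ψ t B x) (fun _ => Nat.cast_nonneg _) (fun _ => T2_nonneg _ _ _ _) r hr
      rw [sum_vv_one P 𝓜 L0 hcop] at h1
      rw [← hj]
      refine h1.trans ?_
      have h2 := hmom G ψ hloc hcub (t.map (fun s : ℤ => (s : ZMod G)))
        (by rw [List.length_map, ht]; exact hlk) B
      have h3 : ∑ x : ZMod G, T2 ψ t B x ^ (2 * r) ≤ C * R * (t.map (ga G)).prod := by
        unfold T2
        refine h2.trans ?_
        have h4 := gam_le (G := G) t h0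
        calc C * gam (t.map (fun s : ℤ => (s : ZMod G))) *
              ((B : ℝ) ^ r * G + (B : ℝ) ^ (2 * r) * (G : ℝ) ^ (1 / 2 + ε))
            = C * R * gam (t.map (fun s : ℤ => (s : ZMod G))) := by
              rw [hR]; ring
          _ ≤ _ := mul_le_mul_of_nonneg_left h4 (by positivity)
      calc ((P.card : ℝ) * 𝓜.card * L0) ^ (2 * r - 2) * E * ∑ x : ZMod G, T2 ψ t B x ^ (2 * r)
          ≤ ((P.card : ℝ) * 𝓜.card * L0) ^ (2 * r - 2) * E * (C * R * (t.map (ga G)).prod) := by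
            gcongr
        _ = _ := by rw [hW, hJ]; ring
  have hτ1 : (1 : ℝ) ≤ G.divisors.card := by
    exact_mod_cast Nat.one_le_iff_ne_zero.2 (card_pos.2 ⟨1, Nat.one_mem_divisors.2 hG⟩).ne'
  have hAv : Av l (fun t => Φz t ^ (j + 1)) ≤
      (W * (C * R)) * ((G.divisors.card : ℝ) ^ k * HH l) := by
    refine (Av_mono l _ _ hpt).trans ?_
    rw [Av_mul]
    apply mul_le_mul_of_nonneg_left _ (by positivity)
    refine (Av_prod l (ga G) (ga_nonneg G) _ (by positivity) fun p hp =>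
      ga_avg G p.1 p.2 hG (hl p hp).2.2.2).trans ?_
    apply mul_le_mul_of_nonneg_right _ hHH.le
    exact pow_le_pow_right₀ hτ1 hlk
  have hfin : (J * X * HH l * B) ^ (j + 1) ≤
      HH l ^ j * ((W * (C * R)) * ((G.divisors.card : ℝ) ^ k * HH l)) := by
    calc (J * X * HH l * B) ^ (j + 1) ≤ (Av l Φz) ^ (j + 1) :=
          pow_le_pow_left₀ (by positivity) hmain _
      _ ≤ HH l ^ j * Av l (fun t => Φz t ^ (j + 1)) := Av_pow l j Φz hΦz0
      _ ≤ _ := mul_le_mul_of_nonneg_left hAv (by positivity)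
  rw [hj]
  have hpos2 : 0 < HH l ^ (j + 1) := by positivity
  refine le_of_mul_le_mul_left ?_ hpos2
  calc HH l ^ (j + 1) * (J * X * B) ^ (j + 1)
      = (J * X * HH l * B) ^ (j + 1) := by
        rw [← mul_pow]; congr 1; ring
    _ ≤ _ := hfin
    _ = _ := by
        rw [hW, hR, ← hj, show j = 2 * r - 1 by omega]
        have : HH l ^ (2 * r) = HH l ^ (2 * r - 1) * HH l := by
          rw [← pow_succ]; congr 1; omega
        rw [this]
        ring

end Pool.Agent.Work.SF
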