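import Pool.Agent.Work.SF081200.FinN

/-!
# MP_081200_nt: the bound for almost all (n ≤ 4) or a positive proportion of all cubic characters
-/

set_option autoImplicit false

namespace Pool.Agent.Work.SF

open Finset Pool.Agent.Work.LV Pool.Agent.Work.SC

/-- No exceptions for `n ≤ 3` (Burgess). -/
theorem thm3 (n : ℕ) (hn : 1 ≤ n) (hn3 : n ≤ 3) : ∃ δ : ℝ, 0 < δ ∧ ∃ c : ℝ, ∀ Q : ℝ, 1 ≤ Q →
    (Exceptional n δ c Q).ncard = 0 := by
  classical
  have hn1 : (1 : ℝ) ≤ n := by exact_mod_cast hn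
  have hn0 : (0 : ℝ) < n := by linarith
  have hn3' : (n : ℝ) ≤ 3 := by exact_mod_cast hn3
  obtain ⟨δ, hδ, hδ1, c, hc, hA⟩ := thmA n hn (1 / 3) (by norm_num)
  refine ⟨δ, hδ, c, ?_⟩
  intro Q hQ
  have hQ0 : 0 ≤ Q := by linarith
  have h13 : (1 : ℝ) / 3 ≤ 1 / n := one_div_le_one_div_of_le hn0 hn3'
  have e1 := exceptional_ncard n δ c Q hQ0 (fun _ => True) (by
    intro q _ hqQ χ h3 hne _ M N hN
    have hF0 : 0 < χ.conductor := Nat.pos_of_ne_zero χ.conductor_ne_zero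
    refine hA Q hQ q hqQ χ h3 hne χ.conductor dvd_rfl
      (by rw [Nat.div_self hF0]; exact Nat.coprime_one_right _) 1 le_rfl
      (Real.one_le_rpow hQ (by linarith)) ?_ ?_ M N hN
    · intro p hp hpd
      rw [Nat.div_self hF0, Nat.dvd_one] at hpd
      exact absurd hpd hp.one_lt.ne'
    · rw [one_pow, one_mul]
      have h5 : (χ.conductor : ℝ) ≤ Q := by
        refine le_trans ?_ hqQ
        exact_mod_cast Nat.le_of_dvd (Nat.pos_of_ne_zero (NeZero.ne q)) χ.conductor_dvd_level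
      refine h5.trans ?_
      nth_rewrite 1 [← Real.rpow_one Q]
      apply Real.rpow_le_rpow_of_exponent_le hQ
      have : (4 : ℝ) / n = 4 * (1 / n) := by ring
      rw [this]
      linarith)
  simpa using e1

/-- The combined statement. -/
theorem thmAll (hCNT3 : Stmt_CNT3) (n : ℕ) (hn : 1 ≤ n) : ∃ p : ℝ, 0 ≤ p ∧ p < 1 ∧
    (n ≤ 4 → p = 0) ∧ ∀ η : ℝ, p < η → ∃ δ : ℝ, 0 < δ ∧ ∃ c : ℝ, ∀ Q : ℝ, 1 ≤ Q →
      ((Exceptional n δ c Q).ncard : ℝ) ≤ η * ((CubicChars Q).ncard : ℝ) := by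
  rcases Nat.lt_trichotomy n 4 with h | h | h
  · refine ⟨0, le_rfl, by norm_num, fun _ => rfl, ?_⟩
    intro η hη
    obtain ⟨δ, hδ, c, hc⟩ := thm3 n hn (by omega)
    refine ⟨δ, hδ, c, fun Q hQ => ?_⟩
    rw [hc Q hQ]
    push_cast
    positivity
  · subst h
    exact ⟨0, le_rfl, by norm_num, fun _ => rfl, fun η hη => thmC η hη⟩
  · obtain ⟨p, hp, δ, hδ, c, hc⟩ := thmN hCNT3 n hn
    refine ⟨max p 0, le_max_right _ _, max_lt hp (by norm_num), fun h4 => by omega, ?_⟩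
    intro η hη
    refine ⟨δ, hδ, c, fun Q hQ => (hc Q hQ).trans ?_⟩
    gcongr
    exact (le_max_left _ _).trans hη.le

end Pool.Agent.Work.SF
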