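import Pool.Agent.Work.SF081200.Interface

/-!
# MP_081200_nt: block CNT3
-/

set_option autoImplicit false

namespace Pool.Agent.Work.SF

open Finset

/-- Block CNT3: members of the family with all prime factors at most `Q ^ s` have positive
weighted density. -/
def Stmt_CNT3 : Prop := ∀ s : ℝ, 0 < s → ∃ c : ℝ, 0 < c ∧ ∃ Q₀ : ℝ, ∀ Q : ℝ, Q₀ ≤ Q →
  open Classical in c * Q ≤ ∑ f ∈ (Icc 2 ⌊Q⌋₊).filter
    (fun f => Fam f ∧ ∀ p : ℕ, p.Prime → p ∣ f → (p : ℝ) ≤ Q ^ s), (2 : ℝ) ^ f.primeFactors.card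

end Pool.Agent.Work.SF
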