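import Pool.Agent.Work.SF081200.FinC
import Pool.Agent.Work.SF081200.Interface3

/-!
# MP_081200_nt: the bound for a positive proportion of the cubic characters, every n
-/

set_option autoImplicit false

namespace Pool.Agent.Work.SF

open Finset Pool.Agent.Work.LV Pool.Agent.Work.SC

/-- The number of primitive cubic characters of conductor at most `Q` is at most `3 Q`. -/
theorem cubicChars_le (Q : ℝ) (hQ : 0 ≤ Q) : ((CubicChars Q).ncard : ℝ) ≤ 3 * Q := by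
  classical
  obtain ⟨hC1, hC2, -⟩ := stmt_CC
  rw [cubicChars_ncard Q hQ]
  have hH : ∑ f ∈ (Icc 1 ⌊Q⌋₊).filter Fam, (2 : ℝ) ^ f.primeFactors.card ≤ Q := by
    have h1 := CNT2_.H_le ⌊Q⌋₊
    unfold CNT2_.H at h1
    have h2 : (⌊Q⌋₊ : ℝ) ≤ Q := Nat.floor_le hQ
    exact (le_trans (le_of_eq (by
      apply sum_congr _ fun _ _ => rfl
      ext f
      simp only [mem_filter, mem_Icc, mem_Ioc]
      constructor
      · rintro ⟨⟨a, b⟩, c⟩; exact ⟨⟨by omega, b⟩, c⟩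
      · rintro ⟨⟨a, b⟩, c⟩; exact ⟨⟨by omega, b⟩, c⟩)) h1).trans h2
  set T : Finset ℕ := ((Icc 1 ⌊Q⌋₊).filter Fam).image (fun f' => 9 * f') with hT
  have hpt : ∀ f ∈ Icc 1 ⌊Q⌋₊, (NPC f : ℝ) ≤
      (if Fam f then (2 : ℝ) ^ f.primeFactors.card else 0) +
      (if f ∈ T then (2 : ℝ) ^ f.primeFactors.card else 0) := by
    intro f hf
    rw [mem_Icc] at hf
    obtain ⟨hf1, hfQ⟩ := hf
    by_cases h0 : NPC f = 0
    · rw [h0]
      push_cast
      positivity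
    have h1 : (NPC f : ℝ) ≤ (2 : ℝ) ^ f.primeFactors.card := by exact_mod_cast hC1 f hf1
    obtain ⟨-, h2 | ⟨f', h3, h4⟩⟩ := hC2 f hf1 h0
    · rw [if_pos h2]
      have : (0 : ℝ) ≤ (if f ∈ T then (2 : ℝ) ^ f.primeFactors.card else 0) := by positivity
      linarith
    · have h5 : f ∈ T := by
        rw [hT, mem_image]
        refine ⟨f', ?_, h4.symm⟩
        rw [mem_filter, mem_Icc]
        exact ⟨⟨by omega, by omega⟩, h3⟩
      rw [if_pos h5]
      have : (0 : ℝ) ≤ (if Fam f then (2 : ℝ) ^ f.primeFactors.card else 0) := by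
        positivity
      linarith
  push_cast
  refine (sum_le_sum hpt).trans ?_
  rw [sum_add_distrib]
  have hA : ∑ f ∈ Icc 1 ⌊Q⌋₊, (if Fam f then (2 : ℝ) ^ f.primeFactors.card else 0) ≤ Q := by
    rw [← sum_filter]
    exact hH
  have hB : ∑ f ∈ Icc 1 ⌊Q⌋₊, (if f ∈ T then (2 : ℝ) ^ f.primeFactors.card else 0) ≤ 2 * Q := by
    rw [← sum_filter]
    calc _ ≤ ∑ f ∈ T, (2 : ℝ) ^ f.primeFactors.card := by
          apply sum_le_sum_of_subset_of_nonneg
          · intro f hf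
            rw [mem_filter] at hf
            exact hf.2
          · intro f _ _
            positivity
      _ = ∑ f' ∈ (Icc 1 ⌊Q⌋₊).filter Fam, (2 : ℝ) ^ (9 * f').primeFactors.card := by
          rw [hT, sum_image]
          intro x _ y _ hxy
          simp only at hxy
          omega
      _ ≤ ∑ f' ∈ (Icc 1 ⌊Q⌋₊).filter Fam, 2 * (2 : ℝ) ^ f'.primeFactors.card := by
          apply sum_le_sum
          intro f' hf'
          rw [mem_filter, mem_Icc] at hf'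
          have h1 : (9 * f').primeFactors.card ≤ f'.primeFactors.card + 1 := by
            have h2 : (9 * f').primeFactors = {3} ∪ f'.primeFactors := by
              rw [Nat.primeFactors_mul (by norm_num) (by omega)]
              congr 1
              have : (9 : ℕ) = 3 ^ 2 := by norm_num
              rw [this, Nat.primeFactors_prime_pow (by norm_num) Nat.prime_three]
            rw [h2]
            refine (card_union_le _ _).trans ?_
            simp [add_comm]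
          calc (2 : ℝ) ^ (9 * f').primeFactors.card ≤ (2 : ℝ) ^ (f'.primeFactors.card + 1) :=
                pow_le_pow_right₀ (by norm_num) h1
            _ = 2 * (2 : ℝ) ^ f'.primeFactors.card := by rw [pow_succ]; ring
      _ ≤ 2 * Q := by
          rw [← mul_sum]
          gcongr
  linarith

/-- The bound for smooth conductors. -/
theorem smooth_bound (n : ℕ) (hn : 1 ≤ n) : ∃ δ : ℝ, 0 < δ ∧ δ ≤ 1 ∧ ∃ c : ℝ, 0 ≤ c ∧
    ∀ Q : ℝ, 1 ≤ Q → ∀ (q : ℕ) [NeZero q], (q : ℝ) ≤ Q → ∀ χ : DirichletCharacter ℂ q,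
      χ ^ 3 = 1 → χ ≠ 1 →
      (∀ p : ℕ, p.Prime → p ∣ χ.conductor → (p : ℝ) ≤ Q ^ (1 / (2 * (n : ℝ)))) →
      ∀ (M : ℤ) (N : ℕ), (N : ℝ) ≤ Q ^ (1 / (n : ℝ)) →
        ‖shortSum χ M N‖ ≤ c * Q ^ ((1 - δ) / n) := by
  have hn1 : (1 : ℝ) ≤ n := by exact_mod_cast hn
  have hn0 : (0 : ℝ) < n := by linarith
  obtain ⟨δ, hδ, hδ1, c, hc, hA⟩ := thmA n hn (1 / (2 * n)) (by positivity)
  refine ⟨δ, hδ, hδ1, c, hc, ?_⟩
  intro Q hQ q _ hqQ χ h3 hne hsm M N hN
  have hQ0 : 0 < Q := by linarith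
  have hmono : ∀ a b : ℝ, a ≤ b → Q ^ a ≤ Q ^ b := fun a b h =>
    Real.rpow_le_rpow_of_exponent_le hQ h
  refine hA Q hQ q hqQ χ h3 hne 1 (one_dvd _) (Nat.coprime_one_left _) (Q ^ (1 / (2 * (n : ℝ))))
    (Real.one_le_rpow hQ (by positivity)) (hmono _ _ (le_of_eq ?_)) (fun p hp hpd => hsm p hp ?_)
    ?_ M N hN
  · field_simp
    norm_num
  · rwa [Nat.div_one] at hpd
  · rw [Nat.cast_one, mul_one, ← Real.rpow_natCast, ← Real.rpow_mul hQ0.le]
    apply hmono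
    push_cast
    have h5 : (1 : ℝ) / (2 * n) * 2 = 1 / n := by field_simp
    have h6 : (1 : ℝ) / (2 * n) ≤ 1 / n := by
      rw [← h5]
      have : (0 : ℝ) < 1 / (2 * n) := by positivity
      linarith
    have h7 : (4 : ℝ) / n = 4 * (1 / n) := by ring
    have h8 : (0 : ℝ) < 1 / n := by positivity
    rw [h5, h7]
    linarith

/-- Positive proportion for every `n`. -/
theorem thmN (hCNT3 : Stmt_CNT3) (n : ℕ) (hn : 1 ≤ n) : ∃ p : ℝ, p < 1 ∧ ∃ δ : ℝ, 0 < δ ∧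
    ∃ c : ℝ, ∀ Q : ℝ, 1 ≤ Q →
      ((Exceptional n δ c Q).ncard : ℝ) ≤ p * ((CubicChars Q).ncard : ℝ) := by
  classical
  have hn1 : (1 : ℝ) ≤ n := by exact_mod_cast hn
  have hn0 : (0 : ℝ) < n := by linarith
  obtain ⟨c₁, hc₁, Q₀, h1⟩ := hCNT3 (1 / (2 * (n : ℝ))) (by positivity)
  obtain ⟨δ, hδ, hδ1, c, hc, hA⟩ := smooth_bound n hn
  refine ⟨max 0 (1 - c₁ / 3), by rw [max_lt_iff]; constructor <;> [norm_num; linarith], δ, hδ,
    c + max Q₀ 7, ?_⟩
  intro Q hQ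
  have hQ0 : 0 ≤ Q := by linarith
  have hm7 : (7 : ℝ) ≤ max Q₀ 7 := le_max_right _ _
  rcases le_or_gt Q (max Q₀ 7) with hsm | hbig
  · rw [exceptional_small n hn δ (c + max Q₀ 7) Q (max Q₀ 7) hδ1 hQ hsm (by linarith)]
    rw [Set.ncard_empty]
    push_cast
    positivity
  have hQ₀ : Q₀ ≤ Q := (le_max_left _ _).trans hbig.le
  set G : ℕ → Prop := fun f => 2 ≤ f ∧ Fam f ∧
    ∀ p : ℕ, p.Prime → p ∣ f → (p : ℝ) ≤ Q ^ (1 / (2 * (n : ℝ))) with hG
  have e1 := exceptional_ncard n δ (c + max Q₀ 7) Q hQ0 G (by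
    intro q _ hqQ χ h3 hne hGc M N hN
    refine (hA Q hQ q hqQ χ h3 hne hGc.2.2 M N hN).trans ?_
    have : 0 ≤ Q ^ ((1 - δ) / (n : ℝ)) := by positivity
    nlinarith)
  have e1' : (Exceptional n δ (c + max Q₀ 7) Q).ncard ≤
      ∑ f ∈ (Icc 1 ⌊Q⌋₊).filter (fun f => ¬ G f), NPC f := by convert e1
  have e2 : (∑ f ∈ (Icc 1 ⌊Q⌋₊).filter (fun f => ¬ G f), NPC f) +
      ∑ f ∈ (Icc 1 ⌊Q⌋₊).filter G, NPC f = (CubicChars Q).ncard := by
    rw [cubicChars_ncard Q hQ0, add_comm, sum_filter_add_sum_filter_not]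
  have e3 : c₁ * Q ≤ ((∑ f ∈ (Icc 1 ⌊Q⌋₊).filter G, NPC f : ℕ) : ℝ) := by
    refine (h1 Q hQ₀).trans ?_
    push_cast
    refine (sum_le_sum (f := fun f => (2 : ℝ) ^ f.primeFactors.card) (g := fun f => (NPC f : ℝ))
      ?_).trans ?_
    · intro f hf
      rw [mem_filter, mem_Icc] at hf
      exact_mod_cast stmt_CC.2.2 f hf.1.1 hf.2.1
    · apply sum_le_sum_of_subset_of_nonneg
      · intro f hf
        rw [mem_filter, mem_Icc] at hf
        rw [mem_filter, mem_Icc]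
        exact ⟨⟨by omega, hf.1.2⟩, hf.1.1, hf.2⟩
      · intro f _ _
        positivity
  have e4 := cubicChars_le Q hQ0
  have e5 : ((Exceptional n δ (c + max Q₀ 7) Q).ncard : ℝ) +
      ((∑ f ∈ (Icc 1 ⌊Q⌋₊).filter G, NPC f : ℕ) : ℝ) ≤ ((CubicChars Q).ncard : ℝ) := by
    rw [← e2]
    push_cast
    have : ((Exceptional n δ (c + max Q₀ 7) Q).ncard : ℝ) ≤
        ∑ f ∈ (Icc 1 ⌊Q⌋₊).filter (fun f => ¬ G f), (NPC f : ℝ) := by exact_mod_cast e1'
    linarith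
  calc ((Exceptional n δ (c + max Q₀ 7) Q).ncard : ℝ) ≤ ((CubicChars Q).ncard : ℝ) - c₁ * Q := by
        linarith
    _ ≤ (1 - c₁ / 3) * ((CubicChars Q).ncard : ℝ) := by nlinarith
    _ ≤ max 0 (1 - c₁ / 3) * ((CubicChars Q).ncard : ℝ) := by
        gcongr
        exact le_max_right _ _

end Pool.Agent.Work.SF
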