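import Pool.Agent.Work.SC081200.Core
import Pool.Agent.Work.LV.A3

/-!
# MP_081200_nt: Burgess's method with smooth factors, inner sums
-/

set_option autoImplicit false

namespace Pool.Agent.Work.SF

open Finset Pool.Agent.Work.LV Pool.Agent.Work.LV.M Pool.Agent.Work.SC

lemma DZ_comp_mul {q : ℕ} (a : ZMod q) (l : List (ZMod q)) (φ : ZMod q → ℂ) (x : ZMod q) :
    DZ (l.map (fun s => a * s)) φ (a * x) = DZ l (fun y => φ (a * y)) x := by
  induction l generalizing φ with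
  | nil => rfl
  | cons s l ih =>
    simp only [List.map_cons, DZ]
    rw [ih]
    congr 1
    funext y
    rw [mul_add]

lemma DZ_const {q : ℕ} (l : List (ZMod q)) (c : ℂ) (hc : ‖c‖ ≤ 1) : ∃ c' : ℂ, ‖c'‖ ≤ 1 ∧
    ∀ (φ : ZMod q → ℂ) (x : ZMod q), DZ l (fun y => c * φ y) x = c' * DZ l φ x := by
  induction l generalizing c with
  | nil => exact ⟨c, hc, fun φ x => rfl⟩
  | cons s l ih =>
    obtain ⟨c', h1, h2⟩ := ih (c * (starRingEnd ℂ) c) (by
      rw [norm_mul, RCLike.norm_conj]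
      calc ‖c‖ * ‖c‖ ≤ 1 * 1 := mul_le_mul hc hc (norm_nonneg _) zero_le_one
        _ = 1 := one_mul 1)
    refine ⟨c', h1, fun φ x => ?_⟩
    simp only [DZ]
    rw [← h2]
    congr 1
    funext y
    rw [map_mul]
    ring

/-- shifting by multiples of `a` -/
lemma shiftAB (φ : ℤ → ℂ) (hφ : ∀ a, ‖φ a‖ ≤ 1) (M M' : ℤ) (N' L B Y a : ℕ) (haY : a ≤ Y)
    (hsub : Ioc M' (M' + N') ⊆ Ioc M (M + L)) :
    (B : ℝ) * ‖∑ x ∈ Ioc M' (M' + N'), φ x‖ ≤
      2 * Y * (B : ℝ) ^ 2 + ∑ x ∈ Ioc M (M + L), ‖∑ b ∈ Icc 1 B, φ (x + (a : ℤ) * (b : ℤ))‖ := by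
  set S := ∑ x ∈ Ioc M' (M' + N'), φ x with hS
  have h1 : ∀ b ∈ Icc 1 B, ‖S - ∑ n ∈ Icc 1 N', φ (M' + (n : ℤ) + (a : ℤ) * (b : ℤ))‖ ≤
      2 * Y * B := by
    intro b hb
    rw [mem_Icc] at hb
    rw [hS, sum_Ioc_shift]
    have := shift_le (fun n => φ (M' + (n : ℤ))) (fun n => hφ _) N' (a * b)
    refine le_trans (le_of_eq ?_) (this.trans ?_)
    · congr 2
      apply Finset.sum_congr rfl
      intro n _
      push_cast
      ring_nf
    · rw [mul_assoc]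
      have h2 : a * b ≤ Y * B := Nat.mul_le_mul haY hb.2
      have h3 : ((a * b : ℕ) : ℝ) ≤ ((Y * B : ℕ) : ℝ) := by exact_mod_cast h2
      push_cast at h3 ⊢
      linarith
  have h2 : (B : ℂ) * S =
      ∑ b ∈ Icc 1 B, (S - ∑ n ∈ Icc 1 N', φ (M' + (n : ℤ) + (a : ℤ) * (b : ℤ))) +
      ∑ b ∈ Icc 1 B, ∑ n ∈ Icc 1 N', φ (M' + (n : ℤ) + (a : ℤ) * (b : ℤ)) := by
    rw [← Finset.sum_add_distrib]
    simp
  have h3 : ‖∑ b ∈ Icc 1 B, (S - ∑ n ∈ Icc 1 N', φ (M' + (n : ℤ) + (a : ℤ) * (b : ℤ)))‖ ≤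
      B * (2 * Y * B) := by
    refine (norm_sum_le _ _).trans ((Finset.sum_le_sum h1).trans ?_)
    simp
  have h4 : ‖∑ b ∈ Icc 1 B, ∑ n ∈ Icc 1 N', φ (M' + (n : ℤ) + (a : ℤ) * (b : ℤ))‖ ≤
      ∑ x ∈ Ioc M (M + L), ‖∑ b ∈ Icc 1 B, φ (x + (a : ℤ) * (b : ℤ))‖ := by
    rw [Finset.sum_comm]
    refine (norm_sum_le _ _).trans ?_
    rw [← sum_Ioc_shift (fun x => ‖∑ b ∈ Icc 1 B, φ (x + (a : ℤ) * (b : ℤ))‖) M' N']
    exact sum_le_sum_of_subset_of_nonneg hsub fun _ _ _ => norm_nonneg _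
  have h5 : ‖(B : ℂ) * S‖ ≤ B * (2 * Y * B) +
      ∑ x ∈ Ioc M (M + L), ‖∑ b ∈ Icc 1 B, φ (x + (a : ℤ) * (b : ℤ))‖ := by
    rw [h2]
    exact (norm_add_le _ _).trans (add_le_add h3 h4)
  rw [norm_mul, Complex.norm_natCast] at h5
  linarith

/-- the shifted sum over `b` does not feel `a` -/
lemma point_bound {G : ℕ} (ψ : DirichletCharacter ℂ G) (t : List ℤ) (B a : ℕ) (haG : a.Coprime G)
    (x : ℤ) :
    ‖∑ b ∈ Icc 1 B, DD (t.map (fun s => (a : ℤ) * s)) (fun y : ℤ => ψ (y : ZMod G))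
      (x + (a : ℤ) * (b : ℤ))‖ ≤ T2 ψ t B ((x : ZMod G) * (a : ZMod G)⁻¹) := by
  have hinv : (a : ZMod G) * (a : ZMod G)⁻¹ = 1 := ZMod.coe_mul_inv_eq_one a haG
  obtain ⟨c', h1, h2⟩ := DZ_const (t.map (fun s : ℤ => (s : ZMod G))) (ψ (a : ZMod G))
    (DirichletCharacter.norm_le_one ψ _)
  have h3 : ∀ b ∈ Icc 1 B, DD (t.map (fun s => (a : ℤ) * s)) (fun y : ℤ => ψ (y : ZMod G))
      (x + (a : ℤ) * (b : ℤ)) = c' * DZ (t.map (fun s : ℤ => (s : ZMod G))) (fun y => ψ y)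
        ((x : ZMod G) * (a : ZMod G)⁻¹ + (b : ZMod G)) := by
    intro b _
    rw [DD_cast (t.map (fun s => (a : ℤ) * s)) (fun y => ψ y), List.map_map]
    have e1 : (t.map ((fun s : ℤ => (s : ZMod G)) ∘ fun s => (a : ℤ) * s)) =
        (t.map (fun s : ℤ => (s : ZMod G))).map (fun s => (a : ZMod G) * s) := by
      rw [List.map_map]
      congr 1
      funext s
      simp
    have e2 : ((x + (a : ℤ) * (b : ℤ) : ℤ) : ZMod G) =
        (a : ZMod G) * ((x : ZMod G) * (a : ZMod G)⁻¹ + (b : ZMod G)) := by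
      push_cast
      linear_combination -(x : ZMod G) * hinv
    rw [e1, e2, DZ_comp_mul, ← h2]
    congr 1
    funext y
    rw [map_mul]
  rw [sum_congr rfl h3, ← mul_sum, norm_mul]
  unfold T2
  calc ‖c'‖ * _ ≤ 1 * _ := mul_le_mul_of_nonneg_right h1 (norm_nonneg _)
    _ = _ := one_mul _

lemma inner_bound2 {G : ℕ} (ψ : DirichletCharacter ℂ G) (t : List ℤ) (M : ℤ) (N L B Y a : ℕ)
    (hN : N ≤ L) (haY : a ≤ Y) (haG : a.Coprime G) :
    (B : ℝ) * ‖∑' x, DD (t.map (fun s => (a : ℤ) * s))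
      (fun x : ℤ => if x ∈ Ioc M (M + N) then ψ (x : ZMod G) else 0) x‖ ≤
      2 * Y * (B : ℝ) ^ 2 +
        ∑ n ∈ Icc 1 L, T2 ψ t B (((M : ZMod G) + (n : ZMod G)) * (a : ZMod G)⁻¹) := by
  obtain ⟨M', N', h1, h2⟩ := DD_ind (t.map (fun s => (a : ℤ) * s)) M N
  have h3 : ∑' x, DD (t.map (fun s => (a : ℤ) * s))
      (fun x : ℤ => if x ∈ Ioc M (M + N) then ψ (x : ZMod G) else 0) x =
      ∑ x ∈ Ioc M' (M' + N'), DD (t.map (fun s => (a : ℤ) * s)) (fun x : ℤ => ψ (x : ZMod G)) x := by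
    rw [tsum_eq_sum (s := Ioc M' (M' + N'))]
    · refine sum_congr rfl fun x hx => ?_
      rw [h2, if_pos hx]
    · intro x hx
      rw [h2, if_neg hx]
  rw [h3]
  have h4 := shiftAB (DD (t.map (fun s => (a : ℤ) * s)) (fun x : ℤ => ψ (x : ZMod G)))
    (fun x => DD_norm _ (fun b => DirichletCharacter.norm_le_one ψ _) x) M M' N' L B Y a haY
    (h1.trans (by
      intro x hx
      rw [mem_Ioc] at hx ⊢
      omega))
  refine h4.trans ?_
  rw [sum_Ioc_shift]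
  gcongr with n _
  refine (point_bound ψ t B a haG (M + (n : ℤ))).trans (le_of_eq ?_)
  push_cast
  rfl

lemma Per_scale (a : ℕ) : ∀ (l : List (ℕ × ℕ)) (P : ℤ → ℂ), Per l P →
    Per (l.map (fun p => (a * p.1, p.2))) P := by
  intro l
  induction l with
  | nil => intro P h; exact h
  | cons p l ih =>
    intro P h
    obtain ⟨A, P', h1, h2, h3, h4⟩ := h
    refine ⟨A, P', h1, ?_, h3, ih P' h4⟩
    intro x
    have hk : ∀ (k : ℕ) (x : ℤ), A (x + (k : ℤ) * p.1) = A x := by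
      intro k
      induction k with
      | zero => intro x; simp
      | succ k ihk =>
        intro x
        rw [← ihk x, ← h2 (x + (k : ℤ) * p.1)]
        congr 1
        push_cast; ring
    have := hk a x
    push_cast
    exact this

lemma HH_scale (a : ℕ) (l : List (ℕ × ℕ)) : HH (l.map (fun p => (a * p.1, p.2))) = HH l := by
  unfold HH
  rw [List.map_map]
  rfl

lemma Av_scale (a : ℕ) : ∀ (l : List (ℕ × ℕ)) (Ψ : List ℤ → ℝ),
    Av (l.map (fun p => (a * p.1, p.2))) Ψ = Av l (fun t => Ψ (t.map (fun s => (a : ℤ) * s))) := by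
  intro l
  induction l with
  | nil => intro Ψ; rfl
  | cons p l ih =>
    intro Ψ
    simp only [List.map_cons, Av]
    refine sum_congr rfl fun h _ => sum_congr rfl fun h' _ => ?_
    rw [ih]
    congr 1
    funext t
    congr 2
    push_cast
    ring

end Pool.Agent.Work.SF
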