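import Mathlib

/-!
# MP_081200_nt: Burgess's method with smooth factors; almost all cubic characters. Interface.
See PLAN.md in this folder.
-/

set_option autoImplicit false

namespace Pool.Agent.Work.SF

open Finset

/-- squarefree, all prime factors are `1` modulo `3` -/
def Fam (f : ℕ) : Prop := Squarefree f ∧ ∀ p : ℕ, p.Prime → p ∣ f → p % 3 = 1

/-- three prime factors, the largest one much smaller than the product of the two others -/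
def Tri (Q κ : ℝ) (f : ℕ) : Prop := ∃ a b c : ℕ, a.Prime ∧ b.Prime ∧ c.Prime ∧ a < b ∧ b < c ∧
  a ∣ f ∧ b ∣ f ∧ c ∣ f ∧ (c : ℝ) ≤ Q ^ (3 / 16 : ℝ) ∧ (c : ℝ) * Q ^ κ ≤ (a : ℝ) * b

/-- Block CNT1: few members of the family without such a triple. -/
def Stmt_CNT1 : Prop := ∀ η : ℝ, 0 < η → ∃ κ : ℝ, 0 < κ ∧ ∃ Q₀ : ℝ, ∀ Q : ℝ, Q₀ ≤ Q →
  open Classical in ∑ f ∈ (Icc 1 ⌊Q⌋₊).filter (fun f => Fam f ∧ ¬ Tri Q κ f),
    (2 : ℝ) ^ f.primeFactors.card ≤ η * Q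

/-- Block CNT2: the family has positive weighted density. -/
def Stmt_CNT2 : Prop := ∃ c : ℝ, 0 < c ∧ ∀ Q : ℝ, 7 ≤ Q →
  open Classical in c * Q ≤ ∑ f ∈ (Icc 2 ⌊Q⌋₊).filter Fam, (2 : ℝ) ^ f.primeFactors.card

/-- The number of primitive non-principal cubic characters of modulus `f`. -/
noncomputable def NPC (f : ℕ) : ℕ :=
  Nat.card {ψ : DirichletCharacter ℂ f // ψ.IsPrimitive ∧ ψ ^ 3 = 1 ∧ ψ ≠ 1}

/-- Block CC: counting primitive cubic characters. -/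
def Stmt_CC : Prop :=
  (∀ f : ℕ, 1 ≤ f → NPC f ≤ 2 ^ f.primeFactors.card) ∧
  (∀ f : ℕ, 1 ≤ f → NPC f ≠ 0 → 2 ≤ f ∧ (Fam f ∨ ∃ f' : ℕ, Fam f' ∧ f = 9 * f')) ∧
  (∀ f : ℕ, 2 ≤ f → Fam f → 2 ^ f.primeFactors.card ≤ NPC f)

end Pool.Agent.Work.SF
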