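import Pool.Agent.Work.SF081200.Core2
import Pool.Agent.Work.SC081200.Prim2
import Pool.Agent.Work.LV.E

/-!
# MP_081200_nt: Burgess's method with smooth factors, primitive characters with a given factorisation
-/

set_option autoImplicit false

namespace Pool.Agent.Work.SF

open Finset Pool.Agent.Work.LV Pool.Agent.Work.LV.M Pool.Agent.Work.SC

/-- the final cancellation: `X1 = |P| J L0`. -/
lemma cancel3 (r : ℕ) (hr : 1 ≤ r) (X1 ρ B E CE D G T W : ℝ) (hX1 : 0 < X1) (hB : 0 < B)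
    (hG : 0 < G) (hW : 0 ≤ W)
    (h1 : (X1 * ρ * B) ^ (2 * r) ≤ X1 ^ (2 * r - 2) * E * (T * (B ^ (2 * r) * W)))
    (hT : 0 ≤ T) (hE : E ≤ CE * (D * X1 + X1 ^ 2 / G)) :
    X1 * ρ ^ (2 * r) ≤ T * CE * (D + X1 / G) * W := by
  have h2 : X1 ^ (2 * r) = X1 ^ (2 * r - 2) * X1 ^ 2 := by
    rw [← pow_add]; congr 1; omega
  have h3 : (X1 * ρ * B) ^ (2 * r) = (X1 ^ (2 * r - 2) * X1 * B ^ (2 * r)) * (X1 * ρ ^ (2 * r)) := by
    rw [mul_pow, mul_pow, h2]; ring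
  have h4 : X1 ^ (2 * r - 2) * E * (T * (B ^ (2 * r) * W)) ≤
      (X1 ^ (2 * r - 2) * X1 * B ^ (2 * r)) * (T * CE * (D + X1 / G) * W) := by
    have h5 : X1 ^ (2 * r - 2) * E * (T * (B ^ (2 * r) * W)) =
        (X1 ^ (2 * r - 2) * (T * (B ^ (2 * r) * W))) * E := by ring
    rw [h5]
    have h6 : 0 ≤ X1 ^ (2 * r - 2) * (T * (B ^ (2 * r) * W)) := by positivity
    refine (mul_le_mul_of_nonneg_left hE h6).trans (le_of_eq ?_)
    field_simp
  rw [h3] at h1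
  exact le_of_mul_le_mul_left (h1.trans h4) (by positivity)

theorem primA3 (n : ℕ) (hn : 1 ≤ n) (η δ : ℝ) (k r : ℕ) (hη : 0 < η) (hηn : 40 * η ≤ 1 / n)
    (hr : 1 ≤ r) (hrη : 1 / (2 * (r : ℝ)) ≤ η) (hδ : 0 < δ)
    (hδr : 2 * r * (δ * 2 ^ k / n) ≤ η) :
    ∃ C : ℝ, 0 ≤ C ∧ ∃ Q₀ : ℝ, 1 ≤ Q₀ ∧ ∀ Q : ℝ, Q₀ ≤ Q →
      ∀ (f : ℕ) (_ : NeZero f) (_ : (f : ℝ) ≤ Q) (χ : DirichletCharacter ℂ f), LocPrim χ →
      χ ^ 3 = 1 → ∀ (fs : List ℕ) (G : ℕ), prodG fs G = f → (G :: fs).Pairwise Nat.Coprime →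
      ∀ R : ℝ, 1 ≤ R → R ≤ Q ^ (1 / (n : ℝ) - 10 * η) →
      (∀ a ∈ fs, 1 ≤ a ∧ (a : ℝ) ≤ R * Q ^ η) → fs.length ≤ k →
      Q ^ (1 / (n : ℝ) + 2 * η) ≤ G →
        ∀ 𝓜 : Finset ℤ, Sep G (Q ^ (1 / (n : ℝ))) 𝓜 →
          (∀ M ∈ 𝓜, ∃ N : ℕ, (N : ℝ) ≤ Q ^ (1 / (n : ℝ)) ∧
            3 * Q ^ ((1 - δ) / n) ≤ ‖shortSum χ M N‖) →
            (𝓜.card : ℝ) ≤ C * (R * (G : ℝ) ^ (1 / 2 : ℝ) * Q ^ (10 * η - 2 / n)) := by
  classical
  obtain ⟨C₀, hC₀, hcore⟩ := core2 k r hr η hη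
  obtain ⟨Cτ, hCτ, hτ⟩ := Pool.Agent.Work.MP_081200_nt.div_bound (η / (k + 1)) (by positivity)
  obtain ⟨CE, hCE, hEn⟩ := stmt_E
  obtain ⟨q1, hq11, hq1⟩ := ev (2 * k + 4) η hη
  obtain ⟨q2, hq21, hq2⟩ := ev (128 / η) η hη
  obtain ⟨q3, hq31, hq3⟩ := ev (4 / η) (η / 2) (by positivity)
  obtain ⟨q4, hq41, hq4⟩ := ev 8 (2 * η) (by positivity)
  obtain ⟨q5, hq51, hq5⟩ := ev (4 * C₀ * CE * Cτ ^ k) (8 * η) (by positivity)
  refine ⟨8 * C₀ * CE * Cτ ^ k, by positivity, max q1 (max q2 (max q3 (max q4 q5))),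
    hq11.trans (le_max_left _ _), ?_⟩
  intro Q hQge f hfne hfQ χ hloc hcub fs G hfG hcop R hR1 hRQ hfs hlen hGbig 𝓜 hsep hV
  have hQq1 : q1 ≤ Q := (le_max_left _ _).trans hQge
  have hQq2 : q2 ≤ Q := ((le_max_left _ _).trans (le_max_right _ _)).trans hQge
  have hQq3 : q3 ≤ Q :=
    (((le_max_left _ _).trans (le_max_right _ _)).trans (le_max_right _ _)).trans hQge
  have hQq4 : q4 ≤ Q := ((((le_max_left _ _).trans (le_max_right _ _)).trans
    (le_max_right _ _)).trans (le_max_right _ _)).trans hQge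
  have hQq5 : q5 ≤ Q := ((((le_max_right _ _).trans (le_max_right _ _)).trans
    (le_max_right _ _)).trans (le_max_right _ _)).trans hQge
  have hQ1 : 1 ≤ Q := hq11.trans hQq1
  have e1 := hq1 Q hQq1
  have e2 := hq2 Q hQq2
  have e3 := hq3 Q hQq3
  have e4 := hq4 Q hQq4
  have e5 := hq5 Q hQq5
  have hn1 : (1 : ℝ) ≤ n := by exact_mod_cast hn
  have hn0 : (0 : ℝ) < n := by linarith
  have hQpos : 0 < Q := by linarith
  have hQgt : 1 < Q := by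
    rcases hQ1.lt_or_eq with h | h
    · exact h
    · rw [← h, Real.one_rpow] at e4
      norm_num at e4
  have hmono : ∀ a b : ℝ, a ≤ b → Q ^ a ≤ Q ^ b := fun a b h =>
    Real.rpow_le_rpow_of_exponent_le hQ1 h
  have hθ1 : 1 / (n : ℝ) ≤ 1 := by rw [div_le_one hn0]; exact hn1
  -- `G` is non-zero and at most `Q`
  have hf0 : f ≠ 0 := NeZero.ne f
  have hG0 : G ≠ 0 := by
    intro h
    apply hf0
    rw [← hfG, prodG_eq, h, mul_zero]
  have hGne : NeZero G := ⟨hG0⟩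
  have hGpos : (0 : ℝ) < G := by exact_mod_cast Nat.pos_of_ne_zero hG0
  have hG1' : 1 ≤ G := Nat.one_le_iff_ne_zero.2 hG0
  have hG1 : (1 : ℝ) ≤ G := by exact_mod_cast hG1'
  have hGf : G ≤ f := by
    apply Nat.le_of_dvd (Nat.pos_of_ne_zero hf0)
    rw [← hfG, prodG_eq]
    exact Dvd.intro_left _ rfl
  have hGQ : (G : ℝ) ≤ Q := le_trans (by exact_mod_cast hGf) hfQ
  obtain ⟨L, hL⟩ : ∃ L : ℝ, L = Q ^ (1 / (n : ℝ)) := ⟨_, rfl⟩
  have hL1 : 1 ≤ L := by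
    rw [hL]
    exact Real.one_le_rpow hQ1 (by positivity)
  have hL0' : 0 < L := by linarith
  rw [← hL] at hsep
  simp only [← hL] at hV
  set L0 : ℕ := ⌊L⌋₊ with hL0
  have hL0L : (L0 : ℝ) ≤ L := Nat.floor_le (by linarith)
  have hL01 : 1 ≤ L0 := (Nat.one_le_floor_iff L).2 hL1
  have hL0pos : (0 : ℝ) < L0 := by exact_mod_cast hL01
  have hL02 : L / 2 ≤ L0 := half_floor L hL1
  -- B
  obtain ⟨b, hb⟩ : ∃ b : ℝ, b = Q ^ (1 / (2 * (r : ℝ))) := ⟨_, rfl⟩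
  have hr0 : (0 : ℝ) < r := by exact_mod_cast hr
  have hb1 : 1 ≤ b := by
    rw [hb]
    exact Real.one_le_rpow hQ1 (by positivity)
  set B : ℕ := ⌈b⌉₊ with hB
  have hbB : b ≤ B := Nat.le_ceil _
  have hB2 : (B : ℝ) ≤ 2 * Q ^ η := by
    have h1 := Nat.ceil_lt_add_one (a := b) (by linarith)
    have h2 : b ≤ Q ^ η := by rw [hb]; exact hmono _ _ hrη
    linarith
  have hB0 : (0 : ℝ) < B := by linarith
  have hB1 : 1 ≤ B := by exact_mod_cast hB0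
  have hBr : (G : ℝ) ^ (1 / 2 : ℝ) ≤ (B : ℝ) ^ r := by
    calc (G : ℝ) ^ (1 / 2 : ℝ) ≤ Q ^ (1 / 2 : ℝ) := by gcongr
      _ = b ^ r := by
          rw [hb, ← Real.rpow_natCast, ← Real.rpow_mul hQpos.le]
          congr 1
          field_simp
      _ ≤ (B : ℝ) ^ r := by gcongr
  -- Y
  obtain ⟨y, hy⟩ : ∃ y : ℝ, y = L * Q ^ (-(4 * η)) / R := ⟨_, rfl⟩
  have hR0 : 0 < R := by linarith
  have hy6 : Q ^ (6 * η) ≤ y := by
    rw [hy, le_div_iff₀ hR0]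
    calc Q ^ (6 * η) * R ≤ Q ^ (6 * η) * Q ^ (1 / (n : ℝ) - 10 * η) := by gcongr
      _ = L * Q ^ (-(4 * η)) := by
          rw [hL, ← Real.rpow_add hQpos, ← Real.rpow_add hQpos]
          congr 1
          ring
  have hQ6 : 512 ≤ Q ^ (6 * η) := by
    have : Q ^ (6 * η) = (Q ^ (2 * η)) ^ 3 := by
      rw [← Real.rpow_natCast, ← Real.rpow_mul hQpos.le]
      congr 1
      push_cast
      ring
    rw [this]
    calc (512 : ℝ) = 8 ^ 3 := by norm_num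
      _ ≤ _ := pow_le_pow_left₀ (by norm_num) e4 3
  have hy1 : 512 ≤ y := hQ6.trans hy6
  have hy0 : 0 < y := by linarith
  set Y : ℕ := ⌊y⌋₊ with hY
  have hYy : (Y : ℝ) ≤ y := Nat.floor_le hy0.le
  have hY1 : y - 1 < Y := Nat.sub_one_lt_floor _
  have hY0 : (0 : ℝ) < Y := by linarith
  have hYL : (Y : ℝ) ≤ L * Q ^ (-(4 * η)) := by
    refine hYy.trans ?_
    rw [hy]
    exact div_le_self (by positivity) hR1
  have hYL0 : Y ≤ L0 := by
    apply Nat.le_floor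
    refine hYL.trans ?_
    have : Q ^ (-(4 * η)) ≤ 1 := Real.rpow_le_one_of_one_le_of_nonpos hQ1 (by linarith)
    calc L * Q ^ (-(4 * η)) ≤ L * 1 := by gcongr
      _ = L := mul_one L
  -- H
  set H : ℕ → ℕ := fun a => ⌊L * Q ^ (-η) / (Y * a)⌋₊ with hH
  have hHa : ∀ a ∈ fs, 1 ≤ H a ∧ Y * a * H a ≤ L0 ∧ 1 / (H a : ℝ) ≤ 2 * Q ^ (-(2 * η)) := by
    intro a ha
    obtain ⟨ha1, ha2⟩ := hfs a ha
    have ha0 : (0 : ℝ) < a := by exact_mod_cast ha1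
    have h1 : Q ^ (2 * η) ≤ L * Q ^ (-η) / (Y * a) := by
      rw [le_div_iff₀ (by positivity)]
      calc Q ^ (2 * η) * (Y * a) ≤ Q ^ (2 * η) * (y * (R * Q ^ η)) := by gcongr
        _ = L * (Q ^ (2 * η) * Q ^ (-(4 * η)) * Q ^ η) := by
            rw [hy]; field_simp
        _ = L * Q ^ (-η) := by
            rw [← Real.rpow_add hQpos, ← Real.rpow_add hQpos]
            congr 2
            ring
    have h2 : 1 ≤ Q ^ (2 * η) := Real.one_le_rpow hQ1 (by positivity)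
    have h3 := h2.trans h1
    refine ⟨(Nat.one_le_floor_iff _).2 h3, ?_, ?_⟩
    · apply Nat.le_floor
      push_cast
      calc (Y : ℝ) * a * (H a : ℝ) ≤ Y * a * (L * Q ^ (-η) / (Y * a)) := by
            apply mul_le_mul_of_nonneg_left _ (by positivity)
            exact Nat.floor_le (by linarith)
        _ = L * Q ^ (-η) := by field_simp
        _ ≤ L * 1 := by
            apply mul_le_mul_of_nonneg_left _ hL0'.le
            exact Real.rpow_le_one_of_one_le_of_nonpos hQ1 (by linarith)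
        _ = L := mul_one L
    · have h4 := half_floor _ h3
      have h5 : Q ^ (2 * η) / 2 ≤ (H a : ℝ) := by
        refine le_trans ?_ h4
        linarith
      have h6 : 0 < Q ^ (2 * η) := by positivity
      calc 1 / (H a : ℝ) ≤ 1 / (Q ^ (2 * η) / 2) := one_div_le_one_div_of_le (by positivity) h5
        _ = 2 * Q ^ (-(2 * η)) := by
            rw [Real.rpow_neg hQpos.le]
            field_simp
  set l : List (ℕ × ℕ) := fs.map (fun f => (f, H f)) with hl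
  have hllen : l.length = fs.length := by rw [hl, List.length_map]
  obtain ⟨ψ, hψloc, hψcub, A, hA, hχ⟩ := split H fs G hGne (fun a ha => (hfs a ha).1) hcop f
    hfG.symm χ hloc hcub
  obtain ⟨u, hu⟩ : ∃ u : ℝ, u = Q ^ (-(δ / n)) := ⟨_, rfl⟩
  have hu0 : 0 < u := by rw [hu]; positivity
  have hu1 : u ≤ 1 := by
    rw [hu]
    apply Real.rpow_le_one_of_one_le_of_nonpos hQ1
    have : 0 < δ / n := by positivity
    linarith
  obtain ⟨V, hVd⟩ : ∃ V : ℝ, V = 3 * Q ^ ((1 - δ) / n) := ⟨_, rfl⟩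
  have hVL : V = 3 * (L * u) := by
    rw [hVd, hL, hu, ← Real.rpow_add hQpos]
    congr 2
    ring
  have hV0 : 0 ≤ V := by rw [hVL]; positivity
  set K : ℕ := 2 ^ l.length with hK
  have hKk : K ≤ 2 ^ k := by
    rw [hK, hllen]
    exact Nat.pow_le_pow_right (by norm_num) hlen
  have hK1 : 1 ≤ K := Nat.one_le_two_pow
  obtain ⟨ρ, hρ⟩ : ∃ ρ : ℝ, ρ = Q ^ (-(δ * 2 ^ k / n)) := ⟨_, rfl⟩
  have hρ0 : 0 < ρ := by rw [hρ]; positivity
  have hδη : δ * 2 ^ k / n ≤ η := by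
    have h1 : 0 ≤ δ * 2 ^ k / n := by positivity
    have h2 : (1 : ℝ) ≤ r := by exact_mod_cast hr
    nlinarith
  have huK : ρ ≤ u ^ K := by
    have h1 : u ^ (2 ^ k) ≤ u ^ K := pow_le_pow_of_le_one hu0.le hu1 hKk
    refine le_trans (le_of_eq ?_) h1
    rw [hρ, hu, ← Real.rpow_natCast (Q ^ (-(δ / (n : ℝ)))), ← Real.rpow_mul hQpos.le]
    congr 1
    push_cast
    ring
  set Z : ℝ := (2 * (L0 : ℝ)) ^ (K - 1) with hZ
  have hZ0 : 0 < Z := by positivity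
  have hZL : 2 * Z * L ≤ 2 ^ K * L ^ K := by
    have h1 : Z ≤ (2 * L) ^ (K - 1) := by
      rw [hZ]
      gcongr
    have h2 : 2 * (2 * L) ^ (K - 1) * L = 2 ^ K * L ^ K := by
      rw [← mul_pow]
      obtain ⟨j, hj⟩ : ∃ j, K = j + 1 := ⟨K - 1, by omega⟩
      rw [hj, Nat.add_sub_cancel, pow_succ]
      ring
    rw [← h2]
    gcongr
  have hVK : 2 ^ K * L ^ K * ρ ≤ V ^ K := by
    rw [hVL, mul_pow, mul_pow]
    calc (2 : ℝ) ^ K * L ^ K * ρ ≤ 3 ^ K * L ^ K * u ^ K := by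
          gcongr
          norm_num
      _ = _ := by ring
  have hS1 : (l.map fun p => 1 / (p.2 : ℝ)).sum ≤ 2 * k * Q ^ (-(2 * η)) := by
    have h1 : ∀ fs : List ℕ, (∀ a ∈ fs, 1 / (H a : ℝ) ≤ 2 * Q ^ (-(2 * η))) →
        ((fs.map (fun f => (f, H f))).map fun p => 1 / (p.2 : ℝ)).sum ≤
          fs.length * (2 * Q ^ (-(2 * η))) := by
      intro fs
      induction fs with
      | nil => intro _; simp
      | cons a fs ih =>
        intro h
        have h1 := h a (by simp)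
        have h2 := ih fun b hb => h b (by simp [hb])
        simp only [List.map_cons, List.sum_cons, List.length_cons]
        push_cast
        linarith
    have h2 := h1 fs fun a ha => (hHa a ha).2.2
    refine h2.trans ?_
    have h3 : (fs.length : ℝ) ≤ k := by exact_mod_cast hlen
    have h4 : 0 ≤ 2 * Q ^ (-(2 * η)) := by positivity
    calc (fs.length : ℝ) * (2 * Q ^ (-(2 * η))) ≤ k * (2 * Q ^ (-(2 * η))) := by gcongr
      _ = _ := by ring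
  have hE : 2 * Z * (2 * Y * B + L0 * (l.map fun p => 1 / (p.2 : ℝ)).sum) ≤ V ^ K := by
    have h1 : 2 * (Y : ℝ) * B + L0 * (l.map fun p => 1 / (p.2 : ℝ)).sum ≤
        L * ((2 * k + 4) * Q ^ (-(2 * η))) := by
      have h2 : (L0 : ℝ) * (l.map fun p => 1 / (p.2 : ℝ)).sum ≤ L * (2 * k * Q ^ (-(2 * η))) := by
        calc (L0 : ℝ) * (l.map fun p => 1 / (p.2 : ℝ)).sum ≤ L0 * (2 * k * Q ^ (-(2 * η))) := by
              gcongr
          _ ≤ _ := by gcongr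
      have h3 : 2 * (Y : ℝ) * B ≤ L * (4 * Q ^ (-(2 * η))) := by
        calc 2 * (Y : ℝ) * B ≤ 2 * (L * Q ^ (-(4 * η))) * (2 * Q ^ η) := by gcongr
          _ = L * (4 * (Q ^ (-(4 * η)) * Q ^ η)) := by ring
          _ ≤ L * (4 * Q ^ (-(2 * η))) := by
              rw [← Real.rpow_add hQpos]
              apply mul_le_mul_of_nonneg_left _ hL0'.le
              apply mul_le_mul_of_nonneg_left _ (by norm_num)
              apply hmono
              linarith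
      linarith
    have h3 : (2 * k + 4 : ℝ) * Q ^ (-(2 * η)) ≤ ρ := by
      calc (2 * k + 4 : ℝ) * Q ^ (-(2 * η)) ≤ Q ^ η * Q ^ (-(2 * η)) := by gcongr
        _ = Q ^ (-η) := by
            rw [← Real.rpow_add hQpos]
            congr 1
            ring
        _ ≤ ρ := by
            rw [hρ]
            apply hmono
            linarith
    calc 2 * Z * (2 * Y * B + L0 * (l.map fun p => 1 / (p.2 : ℝ)).sum)
        ≤ 2 * Z * (L * ((2 * k + 4) * Q ^ (-(2 * η)))) := by gcongr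
      _ ≤ 2 * Z * (L * ρ) := by gcongr
      _ = (2 * Z * L) * ρ := by ring
      _ ≤ (2 ^ K * L ^ K) * ρ := by gcongr
      _ ≤ V ^ K := hVK
  have hX : L * ρ ≤ V ^ K / (2 * Z) := by
    rw [le_div_iff₀ (by positivity)]
    calc L * ρ * (2 * Z) = (2 * Z * L) * ρ := by ring
      _ ≤ (2 ^ K * L ^ K) * ρ := by gcongr
      _ ≤ V ^ K := hVK
  -- the primes
  have hlogG : (Nat.log 2 G : ℝ) ≤ Q ^ η := by
    have h1 := natlog_le G hG1'
    have h1' : Real.log G ≤ Real.log Q := Real.log_le_log hGpos hGQ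
    have h2 := Real.log_le_rpow_div hQpos.le (by positivity : 0 < η / 2)
    have e : Q ^ η = Q ^ (η / 2) * Q ^ (η / 2) := by
      rw [← Real.rpow_add hQpos]; congr 1; ring
    rw [e]
    have h3 : 0 < Q ^ (η / 2) := by positivity
    calc (Nat.log 2 G : ℝ) ≤ 2 * (Q ^ (η / 2) / (η / 2)) := by linarith
      _ = (4 / η) * Q ^ (η / 2) := by field_simp; norm_num
      _ ≤ _ := by gcongr
  have hlogQ : 0 < Real.log Q := Real.log_pos hQgt
  obtain ⟨κ, hκ⟩ : ∃ κ : ℝ, κ = Real.log y / Real.log Q := ⟨_, rfl⟩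
  have hQκ : Q ^ κ = y := by
    rw [Real.rpow_def_of_pos hQpos, hκ, mul_div_cancel₀ _ hlogQ.ne', Real.exp_log hy0]
  have hκ6 : 6 * η ≤ κ := by
    rw [← Real.rpow_le_rpow_left_iff hQgt, hQκ]
    exact hy6
  have hκ1 : κ ≤ 1 := by
    rw [← Real.rpow_le_rpow_left_iff hQgt, hQκ, hy]
    calc L * Q ^ (-(4 * η)) / R ≤ L * Q ^ (-(4 * η)) := div_le_self (by positivity) hR1
      _ ≤ L * 1 := by
          apply mul_le_mul_of_nonneg_left _ hL0'.le
          exact Real.rpow_le_one_of_one_le_of_nonpos hQ1 (by linarith)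
      _ ≤ Q ^ (1 : ℝ) := by
          rw [mul_one, hL]
          exact hmono _ _ hθ1
  have hP : Q ^ (κ - 2 * η) ≤ (PP G Y).card := by
    apply P_lower Q κ η hQ1 hη (by linarith) hκ1 (by linarith) G Y hG0 _ _ e2 hlogG
    · have : (4 : ℝ) ≤ Y := by linarith
      exact_mod_cast this
    · rw [hQκ]; linarith
  have hP' : y * Q ^ (-(2 * η)) ≤ (PP G Y).card := by
    refine le_trans (le_of_eq ?_) hP
    rw [← hQκ, ← Real.rpow_add hQpos]
    congr 1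
  have hPpos : (0 : ℝ) < (PP G Y).card := lt_of_lt_of_le (by positivity) hP'
  -- energy
  have h8 : 8 * L0 ≤ G := by
    have : (8 : ℝ) * L0 ≤ G := by
      calc (8 : ℝ) * L0 ≤ Q ^ (2 * η) * L := by gcongr
        _ = Q ^ (1 / (n : ℝ) + 2 * η) := by
            rw [hL, ← Real.rpow_add hQpos]
            congr 1
            ring
        _ ≤ G := hGbig
    exact_mod_cast this
  have hE' := hEn G L0 Y (Nat.log 2 G) (PP G Y) 𝓜 hL01 h8 hYL0 (fun a ha => PP_mem ha)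
    (fun m hm hmq => PP_div G Y m hm hmq) (hsep.mono hL0L Subset.rfl)
  have hmain := hcore G ψ hψloc hψcub l L0 B Y (PP G Y) V 𝓜 A (by rw [hllen]; exact hlen) (by
      intro p hp
      rw [hl, List.mem_map] at hp
      obtain ⟨a, ha, rfl⟩ := hp
      obtain ⟨h1, h2, _⟩ := hHa a ha
      exact ⟨(hfs a ha).1, h1, h2, ((List.pairwise_cons.1 hcop).1 a ha).symm⟩)
    hL01 hB1 (fun a ha => PP_mem ha) hA hV0 (by
      intro M hM
      obtain ⟨N, hN, hS⟩ := hV M hM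
      refine ⟨N, Nat.le_floor hN, ?_⟩
      rw [hVd]
      refine hS.trans (le_of_eq ?_)
      unfold shortSum
      congr 1
      exact sum_congr rfl fun a _ => hχ a) hE
  rcases 𝓜.eq_empty_or_nonempty with hemp | hne
  · rw [hemp]
    simp only [card_empty, Nat.cast_zero]
    positivity
  have hJpos : (0 : ℝ) < 𝓜.card := by exact_mod_cast card_pos.2 hne
  obtain ⟨X1, hX1⟩ : ∃ X1 : ℝ, X1 = (PP G Y).card * 𝓜.card * L0 := ⟨_, rfl⟩
  have hX1pos : 0 < X1 := by rw [hX1]; positivity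
  rw [← hX1] at hE' hmain
  obtain ⟨W, hW⟩ : ∃ W : ℝ, W = (G : ℝ) ^ (1 / 2 + η) := ⟨_, rfl⟩
  have hW0 : 0 < W := by rw [hW]; positivity
  have hτk : (G.divisors.card : ℝ) ^ k ≤ Cτ ^ k * Q ^ η := by
    have h1 := hτ G hG0
    calc (G.divisors.card : ℝ) ^ k ≤ (Cτ * (G : ℝ) ^ (η / (k + 1))) ^ k :=
          pow_le_pow_left₀ (Nat.cast_nonneg _) h1 k
      _ = Cτ ^ k * (G : ℝ) ^ (η / (k + 1) * k) := by
          rw [mul_pow, ← Real.rpow_natCast ((G : ℝ) ^ (η / (k + 1))), ← Real.rpow_mul hGpos.le]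
      _ ≤ Cτ ^ k * (G : ℝ) ^ η := by
          apply mul_le_mul_of_nonneg_left _ (by positivity)
          apply Real.rpow_le_rpow_of_exponent_le hG1
          rw [div_mul_eq_mul_div, div_le_iff₀ (by positivity)]
          nlinarith
      _ ≤ Cτ ^ k * Q ^ η := by
          gcongr
  have hmom : C₀ * (G.divisors.card : ℝ) ^ k * ((B : ℝ) ^ r * G + (B : ℝ) ^ (2 * r) *
      (G : ℝ) ^ (1 / 2 + η)) ≤ (2 * C₀ * (Cτ ^ k * Q ^ η)) * ((B : ℝ) ^ (2 * r) * W) := by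
    have hm : (B : ℝ) ^ r * G ≤ (B : ℝ) ^ (2 * r) * (G : ℝ) ^ (1 / 2 + η) := by
      have e1 : (G : ℝ) = (G : ℝ) ^ (1 / 2 : ℝ) * (G : ℝ) ^ (1 / 2 : ℝ) := by
        rw [← Real.rpow_add hGpos]; norm_num
      have e2 : (B : ℝ) ^ (2 * r) = (B : ℝ) ^ r * (B : ℝ) ^ r := by
        rw [← pow_add]; congr 1; ring
      have e3 : (G : ℝ) ^ (1 / 2 : ℝ) ≤ (G : ℝ) ^ (1 / 2 + η) :=
        Real.rpow_le_rpow_of_exponent_le hG1 (by linarith)
      calc (B : ℝ) ^ r * G = (B : ℝ) ^ r * ((G : ℝ) ^ (1 / 2 : ℝ) * (G : ℝ) ^ (1 / 2 : ℝ)) := by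
            rw [← e1]
        _ ≤ (B : ℝ) ^ r * ((B : ℝ) ^ r * (G : ℝ) ^ (1 / 2 + η)) := by gcongr
        _ = _ := by rw [e2]; ring
    rw [hW]
    calc C₀ * (G.divisors.card : ℝ) ^ k * ((B : ℝ) ^ r * G + (B : ℝ) ^ (2 * r) *
      (G : ℝ) ^ (1 / 2 + η)) ≤ C₀ * (Cτ ^ k * Q ^ η) * ((B : ℝ) ^ (2 * r) *
      (G : ℝ) ^ (1 / 2 + η) + (B : ℝ) ^ (2 * r) * (G : ℝ) ^ (1 / 2 + η)) := by gcongr
      _ = _ := by ring
  have hlow : X1 * ρ * B ≤ ((PP G Y).card : ℝ) * 𝓜.card * (V ^ K / (2 * Z)) * B := by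
    have h1 : (L0 : ℝ) * ρ ≤ V ^ K / (2 * Z) := by
      refine le_trans ?_ hX
      gcongr
    have h2 : X1 * ρ * B = ((PP G Y).card : ℝ) * 𝓜.card * (L0 * ρ) * B := by rw [hX1]; ring
    rw [h2]
    gcongr
  obtain ⟨E, hEdef⟩ : ∃ E : ℝ, E = ∑ x : ZMod G, (vv G (PP G Y) 𝓜 L0 x : ℝ) ^ 2 := ⟨_, rfl⟩
  rw [← hEdef] at hE' hmain
  have hE0 : 0 ≤ E := by
    rw [hEdef]
    exact sum_nonneg fun _ _ => by positivity
  have hstep : (X1 * ρ * B) ^ (2 * r) ≤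
      X1 ^ (2 * r - 2) * E * ((2 * C₀ * (Cτ ^ k * Q ^ η)) * ((B : ℝ) ^ (2 * r) * W)) := by
    calc (X1 * ρ * B) ^ (2 * r) ≤ (((PP G Y).card : ℝ) * 𝓜.card * (V ^ K / (2 * Z)) * B) ^ (2 * r) :=
          pow_le_pow_left₀ (by positivity) hlow _
      _ ≤ _ := hmain
      _ ≤ _ := by gcongr
  have hc3 := cancel3 r hr X1 ρ B E CE (Nat.log 2 G) G (2 * C₀ * (Cτ ^ k * Q ^ η)) W hX1pos hB0
    hGpos hW0.le hstep (by positivity) hE'
  -- ρ ^ (2 r)
  have hρr : Q ^ (-η) ≤ ρ ^ (2 * r) := by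
    rw [hρ, ← Real.rpow_natCast (Q ^ (-(δ * 2 ^ k / (n : ℝ)))), ← Real.rpow_mul hQpos.le]
    apply hmono
    push_cast
    have : -(δ * 2 ^ k / (n : ℝ)) * (2 * r) = -(2 * r * (δ * 2 ^ k / n)) := by ring
    rw [this]
    linarith
  obtain ⟨T, hT⟩ : ∃ T : ℝ, T = C₀ * CE * Cτ ^ k := ⟨_, rfl⟩
  have hT0 : 0 ≤ T := by rw [hT]; positivity
  have e5' : 4 * T ≤ Q ^ (8 * η) := by
    refine le_trans (le_of_eq ?_) e5
    rw [hT]; ring
  have h1 : X1 * Q ^ (-η) ≤ 2 * T * Q ^ η * (Q ^ η + X1 / G) * W := by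
    calc X1 * Q ^ (-η) ≤ X1 * ρ ^ (2 * r) := by gcongr
      _ ≤ _ := hc3
      _ ≤ 2 * C₀ * (Cτ ^ k * Q ^ η) * CE * (Q ^ η + X1 / G) * W := by gcongr
      _ = _ := by rw [hT]; ring
  -- absorb
  have habs : 2 * T * Q ^ η * (X1 / G) * W ≤ X1 * Q ^ (-η) / 2 := by
    have h2 : W / G ≤ Q ^ (-(10 * η)) := by
      have h3 : W / G = (G : ℝ) ^ (-(1 / 2) + η) := by
        rw [hW, div_eq_mul_inv, ← Real.rpow_neg_one, ← Real.rpow_add hGpos]
        congr 1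
        ring
      rw [h3]
      calc (G : ℝ) ^ (-(1 / 2) + η) ≤ (G : ℝ) ^ (-(1 / 4) : ℝ) := by
            apply Real.rpow_le_rpow_of_exponent_le hG1
            linarith
        _ ≤ (Q ^ (1 / (n : ℝ) + 2 * η)) ^ (-(1 / 4) : ℝ) := by
            apply Real.rpow_le_rpow_of_nonpos (by positivity) hGbig (by norm_num)
        _ = Q ^ (-((1 / (n : ℝ) + 2 * η) / 4)) := by
            rw [← Real.rpow_mul hQpos.le]
            congr 1
            ring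
        _ ≤ Q ^ (-(10 * η)) := by
            apply hmono
            linarith
    calc 2 * T * Q ^ η * (X1 / G) * W = (4 * T) * Q ^ η * (W / G) * X1 / 2 := by ring
      _ ≤ Q ^ (8 * η) * Q ^ η * Q ^ (-(10 * η)) * X1 / 2 := by gcongr
      _ = X1 * Q ^ (-η) / 2 := by
          rw [← Real.rpow_add hQpos, ← Real.rpow_add hQpos]
          have : 8 * η + η + -(10 * η) = -η := by ring
          rw [this]; ring
  have h2 : X1 * Q ^ (-η) ≤ 4 * T * Q ^ (2 * η) * W := by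
    have h3 : 2 * T * Q ^ η * (Q ^ η + X1 / G) * W = 2 * T * (Q ^ η * Q ^ η) * W +
        2 * T * Q ^ η * (X1 / G) * W := by ring
    rw [h3, ← Real.rpow_add hQpos] at h1
    have h4 : η + η = 2 * η := by ring
    rw [h4] at h1
    linarith
  have hW2 : W ≤ (G : ℝ) ^ (1 / 2 : ℝ) * Q ^ η := by
    rw [hW, Real.rpow_add hGpos]
    gcongr
  have h3 : X1 ≤ 4 * T * ((G : ℝ) ^ (1 / 2 : ℝ) * Q ^ (4 * η)) := by
    have h4 : X1 = X1 * Q ^ (-η) * Q ^ η := by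
      rw [mul_assoc, ← Real.rpow_add hQpos]; simp
    rw [h4]
    calc X1 * Q ^ (-η) * Q ^ η ≤ (4 * T * Q ^ (2 * η) * ((G : ℝ) ^ (1 / 2 : ℝ) * Q ^ η)) * Q ^ η := by
          apply mul_le_mul_of_nonneg_right _ (by positivity)
          refine h2.trans ?_
          gcongr
      _ = 4 * T * ((G : ℝ) ^ (1 / 2 : ℝ) * (Q ^ (2 * η) * Q ^ η * Q ^ η)) := by ring
      _ = _ := by
          rw [← Real.rpow_add hQpos, ← Real.rpow_add hQpos]
          congr 3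
          ring
  -- lower bound for X1
  have h4 : (𝓜.card : ℝ) * (L * Q ^ (-(4 * η)) * Q ^ (-(2 * η)) * (L / 2)) ≤ X1 * R := by
    calc (𝓜.card : ℝ) * (L * Q ^ (-(4 * η)) * Q ^ (-(2 * η)) * (L / 2))
        = (𝓜.card : ℝ) * (y * R * Q ^ (-(2 * η)) * (L / 2)) := by
          rw [hy]; field_simp
      _ = (y * Q ^ (-(2 * η))) * 𝓜.card * (L / 2) * R := by ring
      _ ≤ ((PP G Y).card : ℝ) * 𝓜.card * L0 * R := by gcongr
      _ = X1 * R := by rw [hX1]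
  have h5 : L * Q ^ (-(4 * η)) * Q ^ (-(2 * η)) * (L / 2) = Q ^ (2 / n - 6 * η) / 2 := by
    have : L * Q ^ (-(4 * η)) * Q ^ (-(2 * η)) * (L / 2) =
      (L * L * Q ^ (-(4 * η)) * Q ^ (-(2 * η))) / 2 := by ring
    rw [this, hL, ← Real.rpow_add hQpos, ← Real.rpow_add hQpos, ← Real.rpow_add hQpos]
    congr 2
    ring
  rw [h5] at h4
  have h6 : (𝓜.card : ℝ) * Q ^ (2 / n - 6 * η) ≤
      2 * (4 * T * ((G : ℝ) ^ (1 / 2 : ℝ) * Q ^ (4 * η))) * R := by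
    have h7 : X1 * R ≤ 4 * T * ((G : ℝ) ^ (1 / 2 : ℝ) * Q ^ (4 * η)) * R := by gcongr
    linarith
  have h7 : 0 < Q ^ (2 / n - 6 * η) := by positivity
  refine le_of_mul_le_mul_right ?_ h7
  refine h6.trans (le_of_eq ?_)
  have h8 : Q ^ (4 * η) = Q ^ (10 * η - 2 / n) * Q ^ (2 / n - 6 * η) := by
    rw [← Real.rpow_add hQpos]
    congr 1
    ring
  rw [h8, hT]
  ring

end Pool.Agent.Work.SF
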