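import Pool.Agent.Work.SF081200.Prim3

/-!
# MP_081200_nt: Burgess's method with smooth factors, primitive characters
-/

set_option autoImplicit false

namespace Pool.Agent.Work.SF

open Finset Pool.Agent.Work.LV Pool.Agent.Work.LV.M Pool.Agent.Work.SC

/-- the factorisation of the conductor, given the part `g` -/
lemma factor2 {f : ℕ} [NeZero f] (χ : DirichletCharacter ℂ f) (hloc : LocPrim χ) (hcub : χ ^ 3 = 1)
    (g : ℕ) (hg : g ∣ f) (hgc : g.Coprime (f / g)) (z : ℕ) (hz : 9 ≤ z)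
    (hpz : ∀ p : ℕ, p.Prime → p ∣ f / g → p ≤ z) : ∃ fs : List ℕ,
      prodG fs g = f ∧ (g :: fs).Pairwise Nat.Coprime ∧
      (∀ a ∈ fs, 1 ≤ a ∧ a ≤ z) ∧ ∀ m : ℕ, 2 * m ≤ fs.length → (z + 1) ^ m ≤ f := by
  classical
  have hf : f ≠ 0 := NeZero.ne f
  obtain ⟨s, hs⟩ := hg
  have hg0 : g ≠ 0 := by rintro rfl; simp at hs; exact hf hs
  have hs' : f / g = s := by rw [hs]; exact Nat.mul_div_cancel_left s (Nat.pos_of_ne_zero hg0)
  rw [hs'] at hgc hpz
  have hs0 : s ≠ 0 := by rintro rfl; simp at hs; exact hf hs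
  set S := s.primeFactors with hS
  have hSp : ∀ p ∈ S, p.Prime := fun p hp => Nat.prime_of_mem_primeFactors hp
  have hfac : ∀ p : ℕ, s.factorization p ≤ f.factorization p := by
    intro p
    have : s ∣ f := ⟨g, by rw [hs]; ring⟩
    exact (Nat.factorization_le_iff_dvd hs0 hf).2 this p
  set l : List ℕ := S.toList.map (fun p => p ^ s.factorization p) with hl
  have hlb : ∀ a ∈ l, 1 ≤ a ∧ a ≤ z := by
    intro a ha
    rw [hl, List.mem_map] at ha
    obtain ⟨p, hp, rfl⟩ := ha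
    rw [mem_toList] at hp
    have hpp := hSp p hp
    refine ⟨Nat.one_le_iff_ne_zero.2 (pow_ne_zero _ hpp.ne_zero), ?_⟩
    by_cases hp3 : p = 3
    · subst hp3
      have h1 := (hfac 3).trans (fact_le χ hloc hcub 3 Nat.prime_three).2
      calc 3 ^ s.factorization 3 ≤ 3 ^ 2 := Nat.pow_le_pow_right (by norm_num) h1
        _ ≤ z := by omega
    · have h1 := (hfac p).trans ((fact_le χ hloc hcub p hpp).1 hp3)
      have h2 : p ≤ z := hpz p hpp (Nat.dvd_of_mem_primeFactors hp)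
      calc p ^ s.factorization p ≤ p ^ 1 := Nat.pow_le_pow_right hpp.pos h1
        _ ≤ z := by rw [pow_one]; exact h2
  have hcop : (g :: l).Pairwise Nat.Coprime := by
    rw [List.pairwise_cons]
    constructor
    · intro a ha
      rw [hl, List.mem_map] at ha
      obtain ⟨p, hp, rfl⟩ := ha
      rw [mem_toList] at hp
      apply Nat.Coprime.pow_right
      exact hgc.coprime_dvd_right (Nat.dvd_of_mem_primeFactors hp)
    · rw [hl, List.pairwise_map]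
      have hnd : S.toList.Nodup := S.nodup_toList
      refine List.Pairwise.imp_of_mem ?_ hnd
      intro p p' hp hp' hne
      rw [mem_toList] at hp hp'
      apply Nat.Coprime.pow
      exact (Nat.coprime_primes (hSp p hp) (hSp p' hp')).2 hne
  have hprod : l.prod * g = f := by
    have h1 : l.prod = ∏ p ∈ S, p ^ s.factorization p := by
      rw [hl, Finset.prod_map_toList]
    have h2 : ∏ p ∈ S, p ^ s.factorization p = s := by
      conv_rhs => rw [← Nat.prod_factorization_pow_eq_self hs0]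
      rfl
    rw [h1, h2, hs]
    ring
  obtain ⟨fs, e1, e2, e3, e4⟩ := pack z g l hlb hcop
  have hpg : prodG fs g = f := by rw [prodG_eq, e1, hprod]
  refine ⟨fs, hpg, e3, e2, ?_⟩
  intro m hm
  have h1 := chain_len z m fs (fun a ha => (e2 a ha).1) e4 hm
  refine h1.trans ?_
  rw [e1]
  apply Nat.le_of_dvd (Nat.pos_of_ne_zero hf)
  exact Dvd.intro _ hprod

theorem primB3 (n : ℕ) (hn : 1 ≤ n) (ε : ℝ) (hε : 0 < ε) :
    ∃ δ : ℝ, 0 < δ ∧ δ ≤ 1 / 2 ∧ δ ≤ ε ∧ ∃ c : ℝ, 0 ≤ c ∧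
      ∀ Q : ℝ, 1 ≤ Q → ∀ (f : ℕ) [NeZero f], (f : ℝ) ≤ Q →
      ∀ χ : DirichletCharacter ℂ f, χ.IsPrimitive → χ ^ 3 = 1 → χ ≠ 1 →
      ∀ g : ℕ, g ∣ f → g.Coprime (f / g) → ∀ R : ℝ, 1 ≤ R → R ≤ Q ^ (1 / (n : ℝ) - ε) →
      (∀ p : ℕ, p.Prime → p ∣ f / g → (p : ℝ) ≤ R) →
        ∀ 𝓜 : Finset ℤ, Sep g (Q ^ (1 / (n : ℝ))) 𝓜 →
          (∀ M ∈ 𝓜, ∃ N : ℕ, (N : ℝ) ≤ Q ^ (1 / (n : ℝ)) ∧
            3 * Q ^ ((1 - δ) / n) ≤ ‖shortSum χ M N‖) →
            (𝓜.card : ℝ) ≤ c * (R * (g : ℝ) ^ (1 / 2 : ℝ) * Q ^ (-(2 / (n : ℝ)) + ε)) := by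
  classical
  have hn1 : (1 : ℝ) ≤ n := by exact_mod_cast hn
  have hn0 : (0 : ℝ) < n := by linarith
  obtain ⟨η, hη⟩ : ∃ η : ℝ, η = min ε (1 / n) / 100 := ⟨_, rfl⟩
  have hmin : 0 < min ε (1 / (n : ℝ)) := lt_min hε (by positivity)
  have hη0 : 0 < η := by rw [hη]; positivity
  have hηε : 100 * η ≤ ε := by
    have := min_le_left ε (1 / (n : ℝ))
    rw [hη]; linarith
  have hηn : 100 * η ≤ 1 / n := by
    have := min_le_right ε (1 / (n : ℝ))
    rw [hη]; linarith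
  obtain ⟨r, hr⟩ : ∃ r : ℕ, r = ⌈1 / (2 * η)⌉₊ := ⟨_, rfl⟩
  have hr1 : 1 / (2 * η) ≤ r := by rw [hr]; exact Nat.le_ceil _
  have hrpos : (0 : ℝ) < r := lt_of_lt_of_le (by positivity) hr1
  have hr0 : 1 ≤ r := by
    have : 0 < r := by exact_mod_cast hrpos
    omega
  have hrη : 1 / (2 * (r : ℝ)) ≤ η := by
    rw [div_le_iff₀ (by positivity)] at hr1 ⊢
    linarith
  obtain ⟨k, hk⟩ : ∃ k : ℕ, k = 2 * ⌊1 / η⌋₊ + 2 := ⟨_, rfl⟩
  obtain ⟨δ, hδ⟩ : ∃ δ : ℝ, δ = min (min (1 / 4) ε) (η * n / (2 * r * 2 ^ k)) := ⟨_, rfl⟩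
  have hδ0 : 0 < δ := by
    rw [hδ]
    exact lt_min (lt_min (by norm_num) hε) (by positivity)
  have hδ1 : δ ≤ 1 / 4 := by rw [hδ]; exact (min_le_left _ _).trans (min_le_left _ _)
  have hδ2 : δ ≤ ε := by rw [hδ]; exact (min_le_left _ _).trans (min_le_right _ _)
  have hδ3 : δ ≤ η * n / (2 * r * 2 ^ k) := by rw [hδ]; exact min_le_right _ _
  have hδr : 2 * r * (δ * 2 ^ k / n) ≤ η := by
    rw [le_div_iff₀ (by positivity)] at hδ3
    have : 2 * (r : ℝ) * (δ * 2 ^ k / n) = δ * (2 * r * 2 ^ k) / n := by ring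
    rw [this, div_le_iff₀ hn0]
    exact hδ3
  obtain ⟨C, hC, Qa, hQa1, hA⟩ := primA3 n hn η δ k r hη0 (by linarith) hr0 hrη hδ0 hδr
  obtain ⟨Cp, hCp, hpv⟩ := Pool.Agent.Work.MP_081200_nt.pv (1 / 16) (by norm_num)
  obtain ⟨Q1, hQ11, hQ1⟩ := ev 9 η hη0
  obtain ⟨Q2, hQ21, hQ2⟩ := ev (C + 1) η hη0
  obtain ⟨Q3, hQ31, hQ3⟩ := ev Cp (1 / (8 * n)) (by positivity)
  obtain ⟨Q0, hQ0⟩ : ∃ Q0 : ℝ, Q0 = max Qa (max Q1 (max Q2 Q3)) := ⟨_, rfl⟩
  have hQ01 : 1 ≤ Q0 := by rw [hQ0]; exact hQa1.trans (le_max_left _ _)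
  refine ⟨δ, hδ0, by linarith, hδ2, C + 2 * Q0 ^ 3, by positivity, ?_⟩
  intro Q hQge f hfne hfQ χ hprim hcub hne1 g hgf hgc R hR1 hRQ hpR 𝓜 hsep hV
  have hQpos : 0 < Q := by linarith
  have hf0 : f ≠ 0 := NeZero.ne f
  have hg0 : g ≠ 0 := by rintro rfl; exact hf0 (zero_dvd_iff.1 hgf)
  have hgpos : 0 < g := Nat.pos_of_ne_zero hg0
  have hgne : NeZero g := ⟨hg0⟩
  have hg1 : (1 : ℝ) ≤ g := by exact_mod_cast hgpos
  have hg12 : 1 ≤ (g : ℝ) ^ (1 / 2 : ℝ) := Real.one_le_rpow hg1 (by norm_num)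
  obtain ⟨L, hL⟩ : ∃ L : ℝ, L = Q ^ (1 / (n : ℝ)) := ⟨_, rfl⟩
  have hL1 : 1 ≤ L := by
    rw [hL]
    exact Real.one_le_rpow hQge (by positivity)
  have hLpos : 0 < L := by linarith
  obtain ⟨J, hJ⟩ : ∃ J : ℝ, J = (𝓜.card : ℝ) := ⟨_, rfl⟩
  rw [← hJ]
  have hgf' : g ≤ f := Nat.le_of_dvd (Nat.pos_of_ne_zero hf0) hgf
  have hmono : ∀ a b : ℝ, a ≤ b → Q ^ a ≤ Q ^ b := fun a b h =>
    Real.rpow_le_rpow_of_exponent_le hQge h
  have hθ1 : 1 / (n : ℝ) ≤ 1 := by rw [div_le_one hn0]; exact hn1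
  have hR0 : 0 < R := by linarith
  by_cases hQs : Q < Q0
  · -- small `Q`
    have h1 := Sep.card_le (by rw [← hL]; exact hLpos) hsep
    rw [← hL, ← hJ] at h1
    have h2 : (g : ℝ) / L ≤ Q0 := by
      calc (g : ℝ) / L ≤ g := div_le_self (by positivity) hL1
        _ ≤ f := by exact_mod_cast hgf'
        _ ≤ Q := hfQ
        _ ≤ Q0 := hQs.le
    have h3 : 1 / Q0 ^ 2 ≤ Q ^ (-(2 / (n : ℝ)) + ε) := by
      calc 1 / Q0 ^ 2 ≤ 1 / Q ^ 2 := by
            apply one_div_le_one_div_of_le (by positivity)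
            exact pow_le_pow_left₀ hQpos.le hQs.le 2
        _ = Q ^ (-2 : ℝ) := by
            rw [Real.rpow_neg hQpos.le]
            norm_num
        _ ≤ _ := by
            apply hmono
            have : 2 / (n : ℝ) = 2 * (1 / n) := by ring
            rw [this]
            linarith
    calc J ≤ 2 * Q0 := by linarith
      _ = (2 * Q0 ^ 3) * (1 * 1 * (1 / Q0 ^ 2)) := by field_simp
      _ ≤ (C + 2 * Q0 ^ 3) * (R * (g : ℝ) ^ (1 / 2 : ℝ) * Q ^ (-(2 / (n : ℝ)) + ε)) := by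
          gcongr
          linarith
  push Not at hQs
  rw [hQ0] at hQs
  have hqa : Qa ≤ Q := (le_max_left _ _).trans hQs
  have hQs1 : max Q1 (max Q2 Q3) ≤ Q := (le_max_right _ _).trans hQs
  have hQs2 : max Q2 Q3 ≤ Q := (le_max_right _ _).trans hQs1
  have hq1 := hQ1 Q ((le_max_left _ _).trans hQs1)
  have hq2 := hQ2 Q ((le_max_left _ _).trans hQs2)
  have hq3 := hQ3 Q ((le_max_right _ _).trans hQs2)
  have hQgt : 1 < Q := by
    rcases hQge.lt_or_eq with h | h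
    · exact h
    · rw [← h, Real.one_rpow] at hq1
      norm_num at hq1
  have hloc : LocPrim χ := locPrim_of_isPrimitive χ hprim
  obtain ⟨zr, hzr⟩ : ∃ zr : ℝ, zr = R * Q ^ η := ⟨_, rfl⟩
  have hzr9 : 9 ≤ zr := by
    rw [hzr]
    calc (9 : ℝ) = 1 * 9 := (one_mul _).symm
      _ ≤ R * Q ^ η := by gcongr
  set z : ℕ := ⌊zr⌋₊ with hz
  have hz9 : 9 ≤ z := Nat.le_floor (by exact_mod_cast hzr9)
  have hzz : (z : ℝ) ≤ zr := Nat.floor_le (by linarith)
  have hQη1 : 1 ≤ Q ^ η := Real.one_le_rpow hQge hη0.le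
  obtain ⟨fs, hfs1, hfs2, hfs3, hfs4⟩ := factor2 χ hloc hcub g hgf hgc z hz9 (by
    intro p hp hpd
    apply Nat.le_floor
    refine (hpR p hp hpd).trans ?_
    rw [hzr]
    nlinarith)
  have hlen : fs.length ≤ k := by
    by_contra hcon
    push Not at hcon
    have h1 := hfs4 (fs.length / 2) (by omega)
    have h2 : Q ^ (η * ((fs.length / 2 : ℕ) : ℝ)) ≤ Q ^ (1 : ℝ) := by
      rw [Real.rpow_mul hQpos.le, Real.rpow_natCast, Real.rpow_one]
      calc (Q ^ η) ^ (fs.length / 2) ≤ ((z : ℝ) + 1) ^ (fs.length / 2) := by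
            apply pow_le_pow_left₀ (by positivity)
            have h3 : Q ^ η ≤ zr := by rw [hzr]; nlinarith
            exact h3.trans (Nat.lt_floor_add_one _).le
        _ ≤ f := by exact_mod_cast h1
        _ ≤ Q := hfQ
    rw [Real.rpow_le_rpow_left_iff hQgt] at h2
    have h3 : fs.length / 2 ≤ ⌊1 / η⌋₊ := by
      apply Nat.le_floor
      rw [le_div_iff₀ hη0]
      linarith
    omega
  obtain ⟨y, hy⟩ : ∃ y : ℝ, y = Q ^ (1 / (n : ℝ) + 2 * η) := ⟨_, rfl⟩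
  have hy0 : 0 < y := by rw [hy]; positivity
  have hRQ' : R ≤ Q ^ (1 / (n : ℝ) - 10 * η) := hRQ.trans (hmono _ _ (by linarith))
  -- the bound for a given factorisation
  have key : ∀ (fs : List ℕ) (G : ℕ), prodG fs G = f → (G :: fs).Pairwise Nat.Coprime →
      (∀ a ∈ fs, 1 ≤ a ∧ a ≤ z) → fs.length ≤ k → g ∣ G → y ≤ G →
      J ≤ C * (R * (G : ℝ) ^ (1 / 2 : ℝ) * Q ^ (10 * η - 2 / n)) := by
    intro fs G h1 h2 h3 h4 h5 h6
    have h7 := hA Q hqa f hfne hfQ χ hloc hcub fs G h1 h2 R hR1 hRQ' (fun a ha => ⟨(h3 a ha).1, by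
      rw [← hzr]
      exact le_trans (by exact_mod_cast (h3 a ha).2) hzz⟩) h4 (by rw [← hy]; exact h6) 𝓜
      (Sep.of_dvd hsep h5) hV
    rw [← hJ] at h7
    exact h7
  have hbig0 : 0 ≤ (C + 2 * Q0 ^ 3) * (R * (g : ℝ) ^ (1 / 2 : ℝ) * Q ^ (-(2 / (n : ℝ)) + ε)) := by
    positivity
  have hzero : J < 1 → J ≤ (C + 2 * Q0 ^ 3) *
      (R * (g : ℝ) ^ (1 / 2 : ℝ) * Q ^ (-(2 / (n : ℝ)) + ε)) := by
    intro h
    have h1 : 𝓜.card < 1 := by
      rw [hJ] at h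
      exact_mod_cast h
    have h2 : J = 0 := by
      rw [hJ]
      have : 𝓜.card = 0 := by omega
      rw [this]; simp
    rw [h2]; exact hbig0
  by_cases hgy : y ≤ g
  · -- the rough part is large
    have h1 := key fs g hfs1 hfs2 hfs3 hlen dvd_rfl hgy
    refine h1.trans ?_
    have h2 : Q ^ (10 * η - 2 / n) ≤ Q ^ (-(2 / (n : ℝ)) + ε) := hmono _ _ (by linarith)
    have h3 : 0 ≤ 2 * Q0 ^ 3 := by positivity
    calc C * (R * (g : ℝ) ^ (1 / 2 : ℝ) * Q ^ (10 * η - 2 / n))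
        ≤ C * (R * (g : ℝ) ^ (1 / 2 : ℝ) * Q ^ (-(2 / (n : ℝ)) + ε)) := by gcongr
      _ ≤ _ := by
          apply mul_le_mul_of_nonneg_right _ (by positivity)
          linarith
  push Not at hgy
  apply hzero
  by_cases hfy : y ≤ f
  · -- enlarge the rough part
    obtain ⟨fs', G, e1, e2, e3, e4, e5, e6, e7⟩ := enlarge z y fs g hfs3 hfs2 hgy
      (by rw [hfs1]; exact hfy)
    have h1 := key fs' G (e1.trans hfs1) e2 e3 (e4.trans hlen) e7 e5
    have hG0 : (0 : ℝ) < G := by linarith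
    have h2 : (G : ℝ) ≤ Q ^ (2 / n - ε + 3 * η) := by
      calc (G : ℝ) ≤ y * z := e6.le
        _ ≤ y * (R * Q ^ η) := by rw [← hzr]; gcongr
        _ ≤ Q ^ (1 / (n : ℝ) + 2 * η) * (Q ^ (1 / (n : ℝ) - ε) * Q ^ η) := by
            rw [← hy]
            gcongr
        _ = Q ^ (2 / n - ε + 3 * η) := by
            rw [← Real.rpow_add hQpos, ← Real.rpow_add hQpos]
            congr 1
            ring
    have h3 : (G : ℝ) ^ (1 / 2 : ℝ) ≤ Q ^ ((2 / n - ε + 3 * η) / 2) := by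
      calc (G : ℝ) ^ (1 / 2 : ℝ) ≤ (Q ^ (2 / n - ε + 3 * η)) ^ (1 / 2 : ℝ) := by gcongr
        _ = _ := by
            rw [← Real.rpow_mul hQpos.le]
            congr 1
            ring
    have h4 : J ≤ C * Q ^ (-η) := by
      refine h1.trans ?_
      apply mul_le_mul_of_nonneg_left _ hC
      calc R * (G : ℝ) ^ (1 / 2 : ℝ) * Q ^ (10 * η - 2 / n)
          ≤ Q ^ (1 / (n : ℝ) - ε) * Q ^ ((2 / n - ε + 3 * η) / 2) * Q ^ (10 * η - 2 / n) := by
            gcongr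
        _ = Q ^ (1 / (n : ℝ) - ε + (2 / n - ε + 3 * η) / 2 + (10 * η - 2 / n)) := by
            rw [← Real.rpow_add hQpos, ← Real.rpow_add hQpos]
        _ ≤ Q ^ (-η) := by
            apply hmono
            have : (2 : ℝ) / n = 2 * (1 / n) := by ring
            rw [this]
            linarith
    have h5 : C * Q ^ (-η) < 1 := by
      rw [Real.rpow_neg hQpos.le, ← div_eq_mul_inv, div_lt_one (by positivity)]
      linarith
    linarith
  · push Not at hfy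
    by_contra hcon
    push Not at hcon
    have h1 : 𝓜.Nonempty := by
      rw [← card_pos]
      have : (0 : ℝ) < 𝓜.card := by rw [← hJ]; linarith
      exact_mod_cast this
    obtain ⟨M, hM⟩ := h1
    obtain ⟨N, hN, hS⟩ := hV M hM
    have h1 := hpv f χ hf0 hne1 (M + 1) N
    have h2 : ∑ k ∈ range N, χ ((M + 1 + k : ℤ) : ZMod f) = shortSum χ M N := by
      rw [shortSum_eq, sum_Icc_one]
      apply Finset.sum_congr rfl
      intro k _
      congr 1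
      push_cast
      ring
    rw [h2] at h1
    have hfpos : (0 : ℝ) < f := by exact_mod_cast Nat.pos_of_ne_zero hf0
    have h3 : (f : ℝ) ^ (1 / 2 + 1 / 16 : ℝ) ≤ Q ^ (5 / (8 * (n : ℝ))) := by
      calc (f : ℝ) ^ (1 / 2 + 1 / 16 : ℝ) ≤ y ^ (1 / 2 + 1 / 16 : ℝ) := by gcongr
        _ = Q ^ ((1 / (n : ℝ) + 2 * η) * (1 / 2 + 1 / 16)) := by
            rw [hy, ← Real.rpow_mul hQpos.le]
        _ ≤ _ := by
            apply hmono
            have : 5 / (8 * (n : ℝ)) = 5 / 8 * (1 / n) := by ring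
            rw [this]
            have h4 : 0 < 1 / (n : ℝ) := by positivity
            nlinarith
    have h4 : ‖shortSum χ M N‖ ≤ Q ^ ((1 - δ) / n) := by
      calc ‖shortSum χ M N‖ ≤ Cp * (f : ℝ) ^ (1 / 2 + 1 / 16 : ℝ) := h1
        _ ≤ Q ^ (1 / (8 * (n : ℝ))) * Q ^ (5 / (8 * (n : ℝ))) := by gcongr
        _ = Q ^ (3 / (4 * (n : ℝ))) := by
            rw [← Real.rpow_add hQpos]
            congr 1
            field_simp
            norm_num
        _ ≤ _ := by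
            apply hmono
            have e1 : 3 / (4 * (n : ℝ)) = (3 / 4) / n := by field_simp
            rw [e1]
            apply div_le_div_of_nonneg_right _ hn0.le
            linarith
    have h5 : 0 < Q ^ ((1 - δ) / n) := by positivity
    linarith

end Pool.Agent.Work.SF
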